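import Pool.Agent.Helper77.SUBK.SheetK

/-!
Project SUBK, row SVB: closure properties of `S`-integers and `S`-units.
-/

set_option autoImplicit false

namespace Pool.Agent.Helper94.SUBK

open Finset
open Pool.Agent.Helper70.SUB
open Pool.Agent.Helper77.SUBK

theorem Sm_one (S : Finset ℕ) : Sm S 1 :=
  ⟨one_ne_zero, fun q hq hd => absurd (Nat.dvd_one.mp hd) hq.one_lt.ne'⟩

theorem Sm_mul {S : Finset ℕ} {n m : ℕ} (hn : Sm S n) (hm : Sm S m) : Sm S (n * m) :=
  ⟨mul_ne_zero hn.1 hm.1, fun q hq hd => ((Nat.Prime.dvd_mul hq).mp hd).elim (hn.2 q hq) (hm.2 q hq)⟩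

theorem Sm_mono {S S' : Finset ℕ} (h : S ⊆ S') {n : ℕ} (hn : Sm S n) : Sm S' n :=
  ⟨hn.1, fun q hq hd => h (hn.2 q hq hd)⟩

section fld

variable {M : Type} [Field M]

theorem SI_of_int (S : Finset ℕ) {z : M} (hz : IsIntegral ℤ z) : SI S z :=
  ⟨1, Sm_one S, by simpa using hz⟩

theorem isInt_nat (n : ℕ) : IsIntegral ℤ (n : M) := by
  have := isIntegral_algebraMap (R := ℤ) (A := M) (x := (n : ℤ))
  simpa using this

theorem SI_add {S : Finset ℕ} {z z' : M} (hz : SI S z) (hz' : SI S z') : SI S (z + z') := by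
  obtain ⟨n, hn, h1⟩ := hz
  obtain ⟨n', hn', h2⟩ := hz'
  refine ⟨n * n', Sm_mul hn hn', ?_⟩
  have e : ((n * n' : ℕ) : M) * (z + z') = (n' : M) * ((n : M) * z) + (n : M) * ((n' : M) * z') := by
    push_cast
    ring
  rw [e]
  exact ((isInt_nat n').mul h1).add ((isInt_nat n).mul h2)

theorem SI_mul {S : Finset ℕ} {z z' : M} (hz : SI S z) (hz' : SI S z') : SI S (z * z') := by
  obtain ⟨n, hn, h1⟩ := hz
  obtain ⟨n', hn', h2⟩ := hz'
  refine ⟨n * n', Sm_mul hn hn', ?_⟩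
  have e : ((n * n' : ℕ) : M) * (z * z') = ((n : M) * z) * ((n' : M) * z') := by
    push_cast
    ring
  rw [e]
  exact h1.mul h2

theorem SI_mono {S S' : Finset ℕ} (h : S ⊆ S') {z : M} (hz : SI S z) : SI S' z := by
  obtain ⟨n, hn, h1⟩ := hz
  exact ⟨n, Sm_mono h hn, h1⟩

theorem SV_mono {S S' : Finset ℕ} (h : S ⊆ S') {z : M} (hz : SV S z) : SV S' z :=
  ⟨hz.1, SI_mono h hz.2.1, SI_mono h hz.2.2⟩

theorem SI_map {M' : Type} [Field M'] (f : M →+* M') {S : Finset ℕ} {z : M} (hz : SI S z) :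
    SI S (f z) := by
  obtain ⟨n, hn, h1⟩ := hz
  refine ⟨n, hn, ?_⟩
  have h2 := map_isIntegral_int f h1
  rwa [map_mul, map_natCast] at h2

theorem SV_map {M' : Type} [Field M'] (f : M →+* M') {S : Finset ℕ} {z : M} (hz : SV S z) :
    SV S (f z) := by
  refine ⟨(map_ne_zero f).mpr hz.1, SI_map f hz.2.1, ?_⟩
  have := SI_map f hz.2.2
  rwa [map_inv₀] at this

theorem SV_one (S : Finset ℕ) : SV S (1 : M) :=
  ⟨one_ne_zero, SI_of_int S isIntegral_one, by rw [inv_one]; exact SI_of_int S isIntegral_one⟩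

theorem SV_mul {S : Finset ℕ} {z z' : M} (hz : SV S z) (hz' : SV S z') : SV S (z * z') :=
  ⟨mul_ne_zero hz.1 hz'.1, SI_mul hz.2.1 hz'.2.1, by rw [mul_inv]; exact SI_mul hz.2.2 hz'.2.2⟩

theorem SV_inv {S : Finset ℕ} {z : M} (hz : SV S z) : SV S z⁻¹ :=
  ⟨inv_ne_zero hz.1, hz.2.2, by rw [inv_inv]; exact hz.2.1⟩

theorem SV_pow {S : Finset ℕ} {z : M} (hz : SV S z) (k : ℕ) : SV S (z ^ k) := by
  induction k with
  | zero => rw [pow_zero]; exact SV_one S
  | succ k ih => rw [pow_succ]; exact SV_mul ih hz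

theorem SV_zpow {S : Finset ℕ} {z : M} (hz : SV S z) (k : ℤ) : SV S (z ^ k) := by
  cases k with
  | ofNat k => simp only [Int.ofNat_eq_natCast, zpow_natCast]; exact SV_pow hz k
  | negSucc k => rw [zpow_negSucc]; exact SV_inv (SV_pow hz _)

theorem SV_prod {S : Finset ℕ} {ι : Type} (s : Finset ι) (f : ι → M) (hf : ∀ i ∈ s, SV S (f i)) :
    SV S (∏ i ∈ s, f i) := by
  classical
  induction s using Finset.induction_on with
  | empty => rw [Finset.prod_empty]; exact SV_one S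
  | insert a s ha ih =>
    rw [Finset.prod_insert ha]
    exact SV_mul (hf a (Finset.mem_insert_self a s)) (ih fun i hi => hf i (Finset.mem_insert_of_mem hi))

end fld

/-- every algebraic number is an `S`-integer -/
theorem ex_SI {M : Type} [Field M] [NumberField M] (z : M) : ∃ S : Finset ℕ,
    (∀ p ∈ S, p.Prime) ∧ SI S z := by
  have hz : IsAlgebraic ℤ z :=
    (IsFractionRing.isAlgebraic_iff ℤ ℚ M).mpr (Algebra.IsAlgebraic.isAlgebraic z)
  obtain ⟨y, hy, hyz⟩ := hz.exists_integral_multiple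
  refine ⟨y.natAbs.primeFactors, fun p hp => Nat.prime_of_mem_primeFactors hp, y.natAbs,
    ⟨Int.natAbs_ne_zero.mpr hy, fun q hq hd => Nat.mem_primeFactors.mpr ⟨hq, hd, Int.natAbs_ne_zero.mpr hy⟩⟩, ?_⟩
  have h1 : IsIntegral ℤ ((y : M) * z) := by
    rwa [zsmul_eq_mul] at hyz
  rcases Int.natAbs_eq y with h | h
  · have h2 : (y : M) = (y.natAbs : M) := by
      nth_rw 1 [h]
      exact Int.cast_natCast _
    rwa [h2] at h1
  · have h2 : (y : M) = -(y.natAbs : M) := by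
      nth_rw 1 [h]
      rw [Int.cast_neg, Int.cast_natCast]
    rw [h2, neg_mul] at h1
    have h3 := h1.neg
    rwa [neg_neg] at h3

theorem ex_SV {M : Type} [Field M] [NumberField M] (z : M) (hz : z ≠ 0) : ∃ S : Finset ℕ,
    (∀ p ∈ S, p.Prime) ∧ SV S z := by
  obtain ⟨S1, h1, h2⟩ := ex_SI z
  obtain ⟨S2, h3, h4⟩ := ex_SI z⁻¹
  refine ⟨S1 ∪ S2, fun p hp => (Finset.mem_union.mp hp).elim (h1 p) (h3 p), hz,
    SI_mono Finset.subset_union_left h2, SI_mono Finset.subset_union_right h4⟩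

theorem ex_Gam {M : Type} [Field M] [NumberField M] (Γ : Subgroup Mˣ) (hΓ : Γ.FG) : ∃ S : Finset ℕ,
    (∀ p ∈ S, p.Prime) ∧ ∀ γ ∈ Γ, SV S (γ : M) := by
  classical
  obtain ⟨s, hs⟩ := hΓ
  choose F hF1 hF2 using fun γ : Mˣ => ex_SV (γ : M) γ.ne_zero
  refine ⟨s.biUnion F, fun p hp => ?_, fun γ hγ => ?_⟩
  · obtain ⟨γ, _, hγ⟩ := Finset.mem_biUnion.mp hp
    exact hF1 γ p hγ
  · rw [← hs] at hγ
    induction hγ using Subgroup.closure_induction with
    | mem x hx => exact SV_mono (Finset.subset_biUnion_of_mem F hx) (hF2 x)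
    | one => rw [Units.val_one]; exact SV_one _
    | mul x y _ _ hx hy => rw [Units.val_mul]; exact SV_mul hx hy
    | inv x _ hx => rw [Units.val_inv_eq_inv_val]; exact SV_inv hx

/-- **SVB**. -/
theorem SVB : ST_SVB := by
  intro M _ _
  exact ⟨fun S z hz => SI_of_int S hz, fun S z z' h h' => ⟨SI_add h h', SI_mul h h'⟩,
    fun S S' z h => ⟨SI_mono h, SV_mono h⟩, fun z hz => ex_SV z hz, fun S => SV_one S,
    fun S z z' h h' => SV_mul h h', fun S z h => SV_inv h, fun S z k h => SV_zpow h k,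
    fun S ι s f h => SV_prod s f h,
    fun S z σ => ⟨SI_map (σ : M →+* M), SV_map (σ : M →+* M)⟩,
    fun M' _ _ f S z => ⟨SI_map f, SV_map f⟩, fun Γ hΓ => ex_Gam Γ hΓ⟩

end Pool.Agent.Helper94.SUBK
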