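import Pool.Agent.Helper70.SUB.SheetL
import Pool.Agent.Helper94.SUBK.SVB

/-!
Project SUBK, third sheet, row CONJ: Laurent polynomials for the terms of a dominated sum and all
their conjugates.
-/

set_option autoImplicit false

namespace Pool.Agent.Helper94.SUBK

open Finset
open Pool.Agent.Helper70.SUB
open Pool.Agent.Helper77.SUBK
open Pool.Agent.Helper70.SUBL

/-- change of the complex embedding -/
noncomputable def PFe {S : Finset ℕ} {M : Type} [Field M] [NumberField M] (P : PF S M)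
    (φ : M →+* ℂ) : PF S M where
  nv := fun v x => match v with
    | none => ‖φ x‖
    | some p => P.nv (some p) x
  emb := φ
  inf := fun _ => rfl
  nn := fun v x => match v with
    | none => norm_nonneg _
    | some p => P.nn (some p) x
  nz := fun v => match v with
    | none => by simp
    | some p => P.nz (some p)
  pos := fun v hv x hx => match v, hv with
    | none, _ => norm_pos_iff.mpr ((map_ne_zero φ).mpr hx)
    | some p, hv => P.pos (some p) hv x hx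
  mul := fun v hv x y => match v, hv with
    | none, _ => by simp
    | some p, hv => P.mul (some p) hv x y
  add := fun v hv x y => match v, hv with
    | none, _ => by
      show ‖φ (x + y)‖ ≤ ‖φ x‖ + ‖φ y‖
      rw [map_add]
      exact norm_add_le _ _
    | some p, hv => P.add (some p) hv x y
  ult := fun p hp x y => P.ult p hp x y
  ext := fun v hv q => match v, hv with
    | none, _ => by
      show ‖φ (q : M)‖ = |(q : ℝ)|
      rw [map_ratCast, ← Complex.ofReal_ratCast, Complex.norm_real, Real.norm_eq_abs]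
    | some p, hv => P.ext (some p) hv q

section basic

variable {M : Type} [Field M]

theorem monM_neg {r : ℕ} (w : Fin r → M) (m : Fin r → ℤ) : monM w (-m) = (monM w m)⁻¹ := by
  simp [monM, zpow_neg]

theorem monM_mulv {r : ℕ} (κ u : Fin r → M) (m : Fin r → ℤ) :
    monM (fun k => κ k * u k) m = monM κ m * monM u m := by
  unfold monM
  rw [← Finset.prod_mul_distrib]
  exact Finset.prod_congr rfl fun k _ => mul_zpow _ _ _

theorem monM_ne {r : ℕ} {w : Fin r → M} (hw : ∀ k, w k ≠ 0) (m : Fin r → ℤ) : monM w m ≠ 0 :=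
  Finset.prod_ne_zero_iff.mpr fun k _ => zpow_ne_zero _ (hw k)

theorem evM_zero {r : ℕ} (w : Fin r → M) : evM w 0 = 0 := by
  simp [evM]

theorem evM_sum (hL : ST_LAUBM) {r : ℕ} {w : Fin r → M} (hw : ∀ k, w k ≠ 0) {ι : Type}
    (s : Finset ι) (f : ι → LauM M r) : evM w (∑ i ∈ s, f i) = ∑ i ∈ s, evM w (f i) := by
  classical
  induction s using Finset.induction_on with
  | empty => simpa using evM_zero w
  | insert a s ha ih => rw [Finset.sum_insert ha, Finset.sum_insert ha, ((hL M r).1 w hw).2.2.1, ih]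

theorem evM_single (hL : ST_LAUBM) {r : ℕ} {w : Fin r → M} (hw : ∀ k, w k ≠ 0) (m : Fin r → ℤ)
    (c : M) : evM w (AddMonoidAlgebra.single m c) = c * monM w m := ((hL M r).1 w hw).2.1 m c

end basic

section heights

variable {M : Type} [Field M] [NumberField M] {S : Finset ℕ}

theorem HB_mono {P : PF S M} {H H' : ℝ} (h : H ≤ H') {z : M} (hz : HB P H z) : HB P H' z :=
  fun v hv σ => (hz v hv σ).trans h

/-- heights of conjugates -/
theorem HB_conj {P : PF S M} {H : ℝ} {z : M} (hz : HB P H z) (τ : M ≃ₐ[ℚ] M) : HB P H (τ z) := by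
  intro v hv σ
  have h := hz v hv (τ.trans σ)
  exact h

/-- heights of roots -/
theorem HB_root {P : PF S M} {H : ℝ} (hH : 1 ≤ H) {z : M} {n : ℕ} (hn : 1 ≤ n)
    (hz : HB P H (z ^ n)) : HB P H z := by
  intro v hv σ
  have h := hz v hv σ
  rw [map_pow, P.pow hv] at h
  rcases le_total (P.nv v (σ z)) 1 with h1 | h1
  · exact h1.trans hH
  · exact (le_self_pow₀ h1 (by omega)).trans h

/-- heights of monomials -/
theorem HB_mon {P : PF S M} {B : ℝ} (hB : 1 ≤ B) {ι : Type} (s : Finset ι) (f : ι → M) (e : ι → ℤ)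
    (hf : ∀ i ∈ s, HB P B (f i) ∧ HB P B (f i)⁻¹) :
    HB P (B ^ (∑ i ∈ s, (e i).natAbs)) (∏ i ∈ s, f i ^ (e i)) := by
  intro v hv σ
  rw [map_prod, P.prod hv, ← Finset.prod_pow_eq_pow_sum]
  apply Finset.prod_le_prod
  · intro i _
    exact P.nn _ _
  · intro i hi
    obtain ⟨h1, h2⟩ := hf i hi
    rcases Int.natAbs_eq (e i) with h | h
    · rw [map_zpow₀, P.zpow hv, h, zpow_natCast, Int.natAbs_natCast]
      exact pow_le_pow_left₀ (P.nn _ _) (h1 v hv σ) _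
    · rw [map_zpow₀, P.zpow hv, h, zpow_neg, zpow_natCast, ← inv_pow, Int.natAbs_neg, Int.natAbs_natCast]
      have h3 := h2 v hv σ
      rw [map_inv₀, P.inv hv] at h3
      exact pow_le_pow_left₀ (inv_nonneg.mpr (P.nn _ _)) h3 _

end heights

/-- growth of the dominating term -/
theorem grow {M : Type} [Field M] (φ : M →+* ℂ) {n t : ℕ} {δ : ℝ} (hδ : 0 < δ) (hn : δ < n)
    {w : M} {a : Fin t → M} {x : ℤ} (ha : ∀ i, ‖φ (a i)‖ ≤ ‖φ w‖ ^ ((n : ℝ) - δ))
    (hx : w ^ n + ∑ i, a i = (x : M)) {R : ℝ} (hR : 1 ≤ R) (hw : ‖φ w‖ ≤ R) :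
    |(x : ℝ)| ≤ (1 + t) * R ^ n := by
  have h1 : |(x : ℝ)| = ‖φ (w ^ n + ∑ i, a i)‖ := by
    rw [hx, map_intCast, Complex.norm_intCast]
  have h2 : ‖φ w‖ ^ ((n : ℝ) - δ) ≤ R ^ n := by
    calc ‖φ w‖ ^ ((n : ℝ) - δ) ≤ R ^ ((n : ℝ) - δ) :=
          Real.rpow_le_rpow (norm_nonneg _) hw (by linarith)
      _ ≤ R ^ (n : ℝ) := Real.rpow_le_rpow_of_exponent_le hR (by linarith)
      _ = R ^ n := Real.rpow_natCast R n
  rw [h1, map_add, map_pow, map_sum]
  refine (norm_add_le _ _).trans ?_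
  have h3 : ‖(φ w) ^ n‖ ≤ R ^ n := by
    rw [norm_pow]
    exact pow_le_pow_left₀ (norm_nonneg _) hw n
  have h4 : ‖∑ i, φ (a i)‖ ≤ t * R ^ n := by
    refine (norm_sum_le _ _).trans ((Finset.sum_le_sum fun i _ => (ha i).trans h2).trans ?_)
    simp
  linarith

/-- **CONJ**. -/
theorem CONJ (hCLNB : ST_CLNB) (hHBK : ST_HBK) (hMONOK : ST_MONOK) (hPFX : ST_PFX) (hPRK : ST_PRK)
    (hL : ST_LAUBM) : ST_CONJ := by
  classical
  intro M _ _ _ S φ n t δ M1 w a x hS hn hδ hδn hM1 hw ha hb hx hfin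
  obtain ⟨P0⟩ := hPFX M S hS
  set P : PF S M := PFe P0 φ with hP
  have hPn : ∀ z, P.nv none z = ‖φ z‖ := fun _ => rfl
  -- removal of proportional terms
  obtain ⟨M2, t', f, c, hM21, hM2, hf, hc, haf, hsum, hnp⟩ := hCLNB M S t M1 a hM1 ha
  set M3 : Set ℕ := M2 \ {j | j ∈ M1 ∧ |(x j : ℝ)| ≤ 1} with hM3d
  have hM3 : M3.Infinite := hM2.diff (hfin 1)
  have hM32 : M3 ⊆ M2 := fun j hj => hj.1
  have hM31 : M3 ⊆ M1 := fun j hj => hM21 hj.1
  have hx1 : ∀ j ∈ M3, 1 < |(x j : ℝ)| := by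
    intro j hj
    by_contra h
    exact hj.2 ⟨hM31 hj, not_lt.mp h⟩
  have hx0 : ∀ j ∈ M3, x j ≠ 0 := by
    intro j hj h0
    have := hx1 j hj
    rw [h0] at this
    norm_num at this
  -- the terms
  set b : ℕ → Fin (t' + 1) → M := fun j => Fin.cons (w j ^ n) (fun i => a j (f i)) with hbd
  have hb0 : ∀ j, b j 0 = w j ^ n := fun j => rfl
  have hbs : ∀ j i, b j (Fin.succ i) = a j (f i) := fun j i => rfl
  set c' : Fin (t' + 1) → M := Fin.cons 1 c with hc'd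
  have hc' : ∀ i, c' i ≠ 0 := by
    intro i
    refine Fin.cases ?_ (fun i => ?_) i
    · exact one_ne_zero
    · exact hc i
  have hbSV : ∀ j ∈ M3, ∀ i, SV S (b j i) := by
    intro j hj i
    refine Fin.cases ?_ (fun i => ?_) i
    · exact SV_pow (hw j (hM31 hj)) n
    · exact haf j (hM32 hj) i
  have hbsum : ∀ j ∈ M3, ∑ i, c' i * b j i = (x j : M) := by
    intro j hj
    rw [Fin.sum_univ_succ, ← hx j (hM31 hj), ← hsum j (hM32 hj)]
    show (1 : M) * w j ^ n + ∑ i, c i * a j (f i) = _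
    rw [one_mul]
  -- the dominating term is not proportional to another one
  have hdom : ∀ (i : Fin t') (ρ : M), {j | j ∈ M3 ∧ w j ^ n = ρ * a j (f i)}.Finite := by
    intro i ρ
    set R : ℝ := max 1 (‖φ ρ‖ ^ (1 / δ)) with hR
    have hR1 : 1 ≤ R := le_max_left _ _
    refine (hfin ((1 + t) * R ^ n)).subset fun j hj => ⟨hM31 hj.1, ?_⟩
    refine grow φ hδ hδn (hb j (hM31 hj.1)) (hx j (hM31 hj.1)) hR1 ?_
    have h1 : ‖φ (w j)‖ ^ n ≤ ‖φ ρ‖ * ‖φ (w j)‖ ^ ((n : ℝ) - δ) := by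
      have h2 : ‖φ (w j)‖ ^ n = ‖φ ρ‖ * ‖φ (a j (f i))‖ := by
        rw [← norm_pow, ← map_pow, hj.2, map_mul, norm_mul]
      rw [h2]
      exact mul_le_mul_of_nonneg_left (hb j (hM31 hj.1) (f i)) (norm_nonneg _)
    have hw0 : 0 < ‖φ (w j)‖ := norm_pos_iff.mpr ((map_ne_zero φ).mpr (hw j (hM31 hj.1)).1)
    have h3 : ‖φ (w j)‖ ^ δ ≤ ‖φ ρ‖ := by
      have h4 : ‖φ (w j)‖ ^ n = ‖φ (w j)‖ ^ δ * ‖φ (w j)‖ ^ ((n : ℝ) - δ) := by
        rw [← Real.rpow_add hw0, ← Real.rpow_natCast]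
        congr 1
        ring
      rw [h4] at h1
      exact le_of_mul_le_mul_right h1 (Real.rpow_pos_of_pos hw0 _)
    have h5 : ‖φ (w j)‖ ≤ ‖φ ρ‖ ^ (1 / δ) := by
      have h6 := Real.rpow_le_rpow (Real.rpow_nonneg hw0.le δ) h3 (show (0 : ℝ) ≤ 1 / δ by positivity)
      rwa [← Real.rpow_mul hw0.le, mul_one_div_cancel hδ.ne', Real.rpow_one] at h6
    exact h5.trans (le_max_right _ _)
  have hbnp : ∀ (i i' : Fin (t' + 1)) (ρ : M), i ≠ i' →
      {j | j ∈ M3 ∧ b j i = ρ * b j i'}.Finite := by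
    intro i i' ρ
    refine Fin.cases ?_ (fun i => ?_) i
    · refine Fin.cases ?_ (fun i' => ?_) i'
      · intro h
        exact absurd rfl h
      · intro _
        exact hdom i' ρ
    · refine Fin.cases ?_ (fun i' => ?_) i'
      · intro _
        refine (hdom i ρ⁻¹).subset fun j hj => ⟨hj.1, ?_⟩
        have h1 : a j (f i) = ρ * w j ^ n := hj.2
        have h2 : ρ ≠ 0 := by
          intro h0
          rw [h0, zero_mul] at h1
          exact (haf j (hM32 hj.1) i).1 h1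
        rw [h1, inv_mul_cancel_left₀ h2]
      · intro hne
        refine (hnp i i' ρ fun h => hne (by rw [h])).subset fun j hj => ⟨hM32 hj.1, hj.2⟩
  -- heights of the terms
  obtain ⟨K, hK, hHB⟩ := hHBK M S P (t' + 1) M3 c' b x hS hM3 hc' hbSV hbsum hx0 hbnp
  set M4 : Set ℕ := M3 \ {j | j ∈ M3 ∧ ¬ ∀ i, HB P (K * |(x j : ℝ)| ^ (2 : ℕ)) (b j i)} with hM4d
  have hM4 : M4.Infinite := hM3.diff hHB
  have hM43 : M4 ⊆ M3 := fun j hj => hj.1
  have hht : ∀ j ∈ M4, ∀ i, HB P (K * |(x j : ℝ)| ^ (2 : ℕ)) (b j i) := by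
    intro j hj
    by_contra h
    exact hj.2 ⟨hj.1, h⟩
  have hH1 : ∀ j ∈ M4, 1 ≤ K * |(x j : ℝ)| ^ (2 : ℕ) := by
    intro j hj
    have h1 : (1 : ℝ) ≤ |(x j : ℝ)| ^ (2 : ℕ) := one_le_pow₀ (hx1 j (hM43 hj)).le
    nlinarith
  -- the family of all conjugates
  let uu : ℕ → (M ≃ₐ[ℚ] M) × Option (Fin t') → M := fun j q =>
    q.1.symm (q.2.elim (w j) (fun i => a j (f i)))
  have huun : ∀ j σ, uu j (σ, none) = σ.symm (w j) := fun j σ => rfl
  have huus : ∀ j σ i, uu j (σ, some i) = σ.symm (a j (f i)) := fun j σ i => rfl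
  have huSV : ∀ j ∈ M4, ∀ q, SV S (uu j q) := by
    intro j hj q
    obtain ⟨σ, o⟩ := q
    have h1 : SV S (o.elim (w j) (fun i => a j (f i))) := by
      cases o with
      | none => exact hw j (hM31 (hM43 hj))
      | some i => exact haf j (hM32 (hM43 hj)) i
    exact SV_map (σ.symm : M →+* M) h1
  have huHB : ∀ j ∈ M4, ∀ q, HB P (K * |(x j : ℝ)| ^ (2 : ℕ)) (uu j q) := by
    intro j hj q
    obtain ⟨σ, o⟩ := q
    have h1 : HB P (K * |(x j : ℝ)| ^ (2 : ℕ)) (o.elim (w j) (fun i => a j (f i))) := by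
      cases o with
      | none => exact HB_root (hH1 j hj) hn (hht j hj 0)
      | some i => exact hht j hj i.succ
    exact HB_conj h1 σ.symm
  obtain ⟨M5, r, v, m, c2, hM54, hM5, hc2, hind, hmon, hcoord⟩ :=
    hMONOK M ((M ≃ₐ[ℚ] M) × Option (Fin t')) M4 uu hM4 (fun j hj q => (huSV j hj q).1)
  choose κ e hκ hve using hcoord
  -- the independent units
  set u : ℕ → Fin r → M := fun j k => ∏ q, uu j q ^ (e k q) with hud
  have hvu : ∀ j ∈ M5, v j = fun k => κ k * u j k := by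
    intro j hj
    funext k
    exact hve k j hj
  have hu0 : ∀ j ∈ M5, ∀ k, u j k ≠ 0 := by
    intro j hj k
    exact Finset.prod_ne_zero_iff.mpr fun q _ => zpow_ne_zero _ (huSV j (hM54 hj) q).1
  have hindu : IndepM M5 u := by
    refine ⟨hu0, fun l ρ hl => ?_⟩
    refine (hind.2 l (monM κ l * ρ) hl).subset fun j hj => ⟨hj.1, ?_⟩
    rw [hvu j hj.1, monM_mulv, hj.2]
  set N0 : ℕ := (plc S).card * Fintype.card (M ≃ₐ[ℚ] M) with hN0
  have hN1 : 1 ≤ N0 := by
    rw [hN0]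
    exact Nat.one_le_iff_ne_zero.mpr (mul_ne_zero (Finset.card_ne_zero_of_mem mem_none) Fintype.card_ne_zero)
  set E0 : ℕ := ∑ k, ∑ q, (e k q).natAbs with hE0
  set M' : Set ℕ := M5 \ {j | j ∈ M1 ∧ |(x j : ℝ)| ≤ K} with hM'
  have hM'5 : M' ⊆ M5 := fun j hj => hj.1
  have hK' : ∀ j ∈ M', K < |(x j : ℝ)| := by
    intro j hj
    by_contra h
    exact hj.2 ⟨hM31 (hM43 (hM54 hj.1)), not_lt.mp h⟩
  -- coefficients
  have huuev : ∀ j ∈ M', ∀ q, c2 q * monM κ (m q) * monM (u j) (m q) = uu j q := by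
    intro j hj q
    rw [hmon j (hM'5 hj) q, hvu j (hM'5 hj), monM_mulv, mul_assoc]
  refine ⟨M', S, P, r, u, ((3 * N0 * E0 + 1 : ℕ) : ℝ),
    fun σ => AddMonoidAlgebra.single (m (σ, none)) (c2 (σ, none) * monM κ (m (σ, none))),
    fun σ => AddMonoidAlgebra.single (-m (σ, none)) (c2 (σ, none) * monM κ (m (σ, none)))⁻¹,
    fun σ => ∑ i, AddMonoidAlgebra.single (m (σ, some i))
      (σ.symm (c i) * (c2 (σ, some i) * monM κ (m (σ, some i)))),
    fun j hj => hM31 (hM43 (hM54 hj.1)), hM5.diff (hfin K), hS, by positivity, hPn,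
    ⟨fun j hj => hindu.1 j (hM'5 hj), fun l ρ hl => (hindu.2 l ρ hl).subset fun j hj => ⟨hM'5 hj.1, hj.2⟩⟩, ?_⟩
  intro j hj
  have hj5 : j ∈ M5 := hM'5 hj
  have hj4 : j ∈ M4 := hM54 hj5
  have hxK : K < |(x j : ℝ)| := hK' j hj
  have hx1' : 1 ≤ |(x j : ℝ)| := hK.trans hxK.le
  refine ⟨hx1', fun k => ⟨?_, ?_⟩, fun σ => ⟨?_, ?_, ?_⟩⟩
  · exact SV_prod _ _ fun q _ => SV_zpow (huSV j hj4 q) _
  · set H : ℝ := K * |(x j : ℝ)| ^ (2 : ℕ) with hH
    have hH1' : 1 ≤ H := hH1 j hj4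
    have hHN : H ≤ H ^ N0 := le_self_pow₀ hH1' (by omega)
    have h1 : HB P ((H ^ N0) ^ (∑ q, (e k q).natAbs)) (u j k) := by
      refine HB_mon (one_le_pow₀ hH1') _ _ _ fun q _ => ⟨HB_mono hHN (huHB j hj4 q), ?_⟩
      exact ((hPRK M S P hS).2.2 (uu j q) H (huSV j hj4 q) (huHB j hj4 q)).2
    refine HB_mono ?_ h1
    have h2 : H ≤ |(x j : ℝ)| ^ 3 := by
      rw [hH, pow_succ |(x j : ℝ)| 2, mul_comm]
      exact mul_le_mul_of_nonneg_left hxK.le (by positivity)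
    have h3 : ∑ q, (e k q).natAbs ≤ E0 := by
      rw [hE0]
      exact Finset.single_le_sum (f := fun k => ∑ q, (e k q).natAbs) (fun k _ => Nat.zero_le _)
        (Finset.mem_univ k)
    calc (H ^ N0) ^ (∑ q, (e k q).natAbs) = H ^ (N0 * ∑ q, (e k q).natAbs) := (pow_mul _ _ _).symm
      _ ≤ (|(x j : ℝ)| ^ 3) ^ (N0 * ∑ q, (e k q).natAbs) := pow_le_pow_left₀ (by linarith) h2 _
      _ = |(x j : ℝ)| ^ (3 * (N0 * ∑ q, (e k q).natAbs)) := (pow_mul _ _ _).symm
      _ ≤ |(x j : ℝ)| ^ (3 * N0 * E0 + 1) := by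
          apply pow_le_pow_right₀ hx1'
          have h4 : N0 * ∑ q, (e k q).natAbs ≤ N0 * E0 := Nat.mul_le_mul_left _ h3
          have h5 : 3 * N0 * E0 = 3 * (N0 * E0) := by ring
          omega
      _ = |(x j : ℝ)| ^ (((3 * N0 * E0 + 1 : ℕ) : ℝ)) := (Real.rpow_natCast _ _).symm
  · rw [evM_single hL (hu0 j hj5), huuev j hj, huun]
  · rw [evM_single hL (hu0 j hj5), monM_neg, ← mul_inv, huuev j hj, huun]
  · rw [evM_sum hL (hu0 j hj5), ← hsum j (hM32 (hM43 hj4)), map_sum]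
    refine Finset.sum_congr rfl fun i _ => ?_
    rw [evM_single hL (hu0 j hj5), mul_assoc, huuev j hj, huus, map_mul]

end Pool.Agent.Helper94.SUBK
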