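import Pool.Agent.Helper77.SUBK.SheetE
import Pool.Agent.Helper15.SUB.AV
import Pool.Agent.Helper72.SUB.EXTR
import Pool.Agent.Helper94.SUB.T1X

/-!
Project SUBK, sheet E, row NEARX.
-/

set_option autoImplicit false

namespace Pool.Agent.Helper94.SUBK

open Finset Pool.Agent.Helper70.SUB Pool.Agent.Helper77.SUBK

/-- a constant which is small along an infinite set vanishes -/
theorem z0 {M : Set ℕ} (hM : M.Infinite) (q : ℕ → ℝ) (c K : ℝ)
    (hq : ∀ j ∈ M, 0 ≤ q j) (hj : ∀ j ∈ M, (j : ℝ) ≤ q j ^ 4) (h : ∀ j ∈ M, |c| * q j ≤ K) :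
    c = 0 := by
  by_contra hc
  have hc4 : 0 < |c| ^ 4 := by positivity
  obtain ⟨T, hT⟩ := exists_nat_gt (K ^ 4 / |c| ^ 4)
  obtain ⟨j, hjM, hjT⟩ := hM.exists_gt T
  have h1 : (|c| * q j) ^ 4 ≤ K ^ 4 :=
    pow_le_pow_left₀ (mul_nonneg (abs_nonneg _) (hq j hjM)) (h j hjM) 4
  rw [mul_pow] at h1
  have h2 : q j ^ 4 ≤ K ^ 4 / |c| ^ 4 := by
    rw [le_div_iff₀ hc4]
    linarith
  have h3 : (T : ℝ) < j := by exact_mod_cast hjT
  have := hj j hjM
  linarith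

/-- three coefficients vanish -/
theorem three_zero {M : Set ℕ} (hM : M.Infinite) (q W A E : ℕ → ℝ) (c C γ1 γ2 γ3 : ℝ)
    (hc : 0 < c) (hC : 0 ≤ C) (hq : ∀ j ∈ M, 1 ≤ q j) (hj : ∀ j ∈ M, (j : ℝ) ≤ q j ^ 4)
    (hW : ∀ j ∈ M, c * q j ^ 4 ≤ W j ^ 2) (hA1 : ∀ j ∈ M, 1 ≤ |A j|)
    (hA : ∀ j ∈ M, |A j| ≤ q j) (hE : ∀ j ∈ M, |E j| * q j ≤ C)
    (hr : ∀ j ∈ M, γ1 * W j ^ 4 + γ2 * (W j ^ 2 * A j) + γ3 * A j ^ 2 = E j) :
    γ1 = 0 ∧ γ2 = 0 ∧ γ3 = 0 := by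
  have hq0 : ∀ j ∈ M, 0 ≤ q j := fun j h => by linarith [hq j h]
  -- first coefficient
  have h1 : γ1 = 0 := by
    refine z0 hM q γ1 (|γ2| / c + |γ3| / c ^ 2 + C / c ^ 2) hq0 hj fun j hjM => ?_
    have q1 := hq j hjM
    have w1 := hW j hjM
    have a1 := hA j hjM
    have e1 := hE j hjM
    have r1 := hr j hjM
    have hq4 : q j ≤ q j ^ 4 := le_self_pow₀ q1 (by norm_num)
    have hcq : 0 < c * q j ^ 4 := by positivity
    have hW0 : 0 < W j ^ 2 := lt_of_lt_of_le hcq w1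
    have h2 : |γ1| * W j ^ 4 ≤ |γ2| * (W j ^ 2 * |A j|) + |γ3| * |A j| ^ 2 + |E j| := by
      have h3 : γ1 * W j ^ 4 = E j - γ2 * (W j ^ 2 * A j) - γ3 * A j ^ 2 := by linarith
      have h4 : |γ1 * W j ^ 4| ≤ |E j| + |γ2 * (W j ^ 2 * A j)| + |γ3 * A j ^ 2| := by
        rw [h3]
        refine (abs_sub _ _).trans ?_
        have := abs_sub (E j) (γ2 * (W j ^ 2 * A j))
        linarith
      rw [abs_mul, abs_mul, abs_mul, abs_mul, abs_pow, abs_pow, abs_pow, sq_abs] at h4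
      have h5 : |W j| ^ 4 = W j ^ 4 := by
        rw [← abs_pow, abs_of_nonneg (by positivity)]
      rw [h5] at h4
      linarith
    have e2 : |E j| ≤ C := by
      refine le_trans ?_ e1
      nlinarith [abs_nonneg (E j)]
    have h6 : W j ^ 4 = (W j ^ 2) ^ 2 := by ring
    have h7 : 0 < (W j ^ 2) ^ 2 := by positivity
    -- divide by W^4
    have h8 : |γ1| ≤ (|γ2| * (W j ^ 2 * |A j|) + |γ3| * |A j| ^ 2 + |E j|) / (W j ^ 2) ^ 2 := by
      rw [le_div_iff₀ h7, ← h6]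
      exact h2
    have h9 : (|γ2| * (W j ^ 2 * |A j|) + |γ3| * |A j| ^ 2 + |E j|) / (W j ^ 2) ^ 2 =
        |γ2| * (|A j| / W j ^ 2) + |γ3| * (|A j| / W j ^ 2) ^ 2 + |E j| / (W j ^ 2) ^ 2 := by
      field_simp
    rw [h9] at h8
    have t1 : |A j| / W j ^ 2 ≤ 1 / (c * q j ^ 2) := by
      rw [div_le_div_iff₀ hW0 (by positivity)]
      have h10 : |A j| * (c * q j ^ 2) ≤ c * q j ^ 4 := by
        have : |A j| * (c * q j ^ 2) ≤ q j * (c * q j ^ 2) :=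
          mul_le_mul_of_nonneg_right a1 (by positivity)
        have h11 : q j * (c * q j ^ 2) ≤ c * q j ^ 4 := by
          have h12 : q j ^ 3 ≤ q j ^ 4 := pow_le_pow_right₀ q1 (by norm_num)
          calc q j * (c * q j ^ 2) = c * q j ^ 3 := by ring
            _ ≤ c * q j ^ 4 := mul_le_mul_of_nonneg_left h12 hc.le
        linarith
      linarith
    have t0 : 0 ≤ |A j| / W j ^ 2 := by positivity
    have t2 : (|A j| / W j ^ 2) * q j ≤ 1 / c := by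
      have h10 : 1 / (c * q j ^ 2) * q j = 1 / c * (1 / q j) := by
        field_simp
      have h11 : 1 / q j ≤ 1 := by
        rw [div_le_one (by linarith)]
        exact q1
      calc (|A j| / W j ^ 2) * q j ≤ 1 / (c * q j ^ 2) * q j :=
            mul_le_mul_of_nonneg_right t1 (hq0 j hjM)
        _ = 1 / c * (1 / q j) := h10
        _ ≤ 1 / c * 1 := mul_le_mul_of_nonneg_left h11 (by positivity)
        _ = 1 / c := mul_one _
    have t3 : (|A j| / W j ^ 2) ^ 2 * q j ≤ 1 / c ^ 2 := by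
      have h10 : (|A j| / W j ^ 2) ^ 2 * q j ≤ ((|A j| / W j ^ 2) * q j) ^ 2 := by
        rw [mul_pow]
        apply mul_le_mul_of_nonneg_left _ (by positivity)
        nlinarith
      have h11 : ((|A j| / W j ^ 2) * q j) ^ 2 ≤ (1 / c) ^ 2 :=
        pow_le_pow_left₀ (by have := hq0 j hjM; positivity) t2 2
      rw [div_pow, one_pow] at h11
      linarith
    have t4 : |E j| / (W j ^ 2) ^ 2 * q j ≤ C / c ^ 2 := by
      rw [div_mul_eq_mul_div]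
      apply div_le_div₀ hC e1 (by positivity)
      have h12 : c ≤ W j ^ 2 := by
        have : (1 : ℝ) ≤ q j ^ 4 := one_le_pow₀ q1
        nlinarith
      exact pow_le_pow_left₀ hc.le h12 2
    calc |γ1| * q j ≤ (|γ2| * (|A j| / W j ^ 2) + |γ3| * (|A j| / W j ^ 2) ^ 2 +
          |E j| / (W j ^ 2) ^ 2) * q j := mul_le_mul_of_nonneg_right h8 (hq0 j hjM)
      _ = |γ2| * ((|A j| / W j ^ 2) * q j) + |γ3| * ((|A j| / W j ^ 2) ^ 2 * q j) +
          |E j| / (W j ^ 2) ^ 2 * q j := by ring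
      _ ≤ |γ2| * (1 / c) + |γ3| * (1 / c ^ 2) + C / c ^ 2 := by
          gcongr
      _ = |γ2| / c + |γ3| / c ^ 2 + C / c ^ 2 := by ring
  subst h1
  have h2 : γ2 = 0 := by
    refine z0 hM q γ2 (|γ3| / c + C / c) hq0 hj fun j hjM => ?_
    have q1 := hq j hjM
    have w1 := hW j hjM
    have a1 := hA j hjM
    have a2 := hA1 j hjM
    have e1 := hE j hjM
    have r1 := hr j hjM
    have hcq : 0 < c * q j ^ 4 := by positivity
    have hW0 : 0 < W j ^ 2 := lt_of_lt_of_le hcq w1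
    have hA0 : 0 < |A j| := by linarith
    have h2 : |γ2| * (W j ^ 2 * |A j|) ≤ |γ3| * |A j| ^ 2 + |E j| := by
      have h3 : γ2 * (W j ^ 2 * A j) = E j - γ3 * A j ^ 2 := by linarith
      have h4 : |γ2 * (W j ^ 2 * A j)| ≤ |E j| + |γ3 * A j ^ 2| := by
        rw [h3]
        exact abs_sub _ _
      rw [abs_mul, abs_mul, abs_mul, abs_pow, abs_pow, sq_abs] at h4
      linarith
    have h8 : |γ2| ≤ (|γ3| * |A j| ^ 2 + |E j|) / (W j ^ 2 * |A j|) := by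
      rw [le_div_iff₀ (by positivity)]
      exact h2
    have h9 : (|γ3| * |A j| ^ 2 + |E j|) / (W j ^ 2 * |A j|) =
        |γ3| * (|A j| / W j ^ 2) + |E j| / (W j ^ 2 * |A j|) := by
      field_simp
    rw [h9] at h8
    have t2 : (|A j| / W j ^ 2) * q j ≤ 1 / c := by
      rw [div_mul_eq_mul_div, div_le_div_iff₀ hW0 hc]
      have h10 : |A j| * q j ≤ q j ^ 4 := by
        have h11 : |A j| * q j ≤ q j * q j := mul_le_mul_of_nonneg_right a1 (hq0 j hjM)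
        have h12 : q j ^ 2 ≤ q j ^ 4 := pow_le_pow_right₀ q1 (by norm_num)
        nlinarith
      nlinarith
    have t4 : |E j| / (W j ^ 2 * |A j|) * q j ≤ C / c := by
      rw [div_mul_eq_mul_div]
      apply div_le_div₀ hC e1 hc
      have h12 : c ≤ W j ^ 2 := by
        have : (1 : ℝ) ≤ q j ^ 4 := one_le_pow₀ q1
        nlinarith
      nlinarith
    calc |γ2| * q j ≤ (|γ3| * (|A j| / W j ^ 2) + |E j| / (W j ^ 2 * |A j|)) * q j :=
          mul_le_mul_of_nonneg_right h8 (hq0 j hjM)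
      _ = |γ3| * ((|A j| / W j ^ 2) * q j) + |E j| / (W j ^ 2 * |A j|) * q j := by ring
      _ ≤ |γ3| * (1 / c) + C / c := by
          gcongr
      _ = |γ3| / c + C / c := by ring
  subst h2
  have h3 : γ3 = 0 := by
    refine z0 hM q γ3 C hq0 hj fun j hjM => ?_
    have q1 := hq j hjM
    have a2 := hA1 j hjM
    have e1 := hE j hjM
    have r1 := hr j hjM
    have h2 : |γ3| * |A j| ^ 2 = |E j| := by
      rw [← r1, ← abs_pow, ← abs_mul]
      congr 1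
      ring
    have h4 : |γ3| ≤ |E j| := by
      rw [← h2]
      have : 1 ≤ |A j| ^ 2 := one_le_pow₀ a2
      nlinarith [abs_nonneg γ3]
    exact (mul_le_mul_of_nonneg_right h4 (hq0 j hjM)).trans e1
  exact ⟨rfl, rfl, h3⟩

/-- pointwise estimate -/
theorem ptN {x q r Y a p d : ℝ} (hx : x = q ^ 4) (hq : 1 ≤ q) (hr0 : 0 < r) (hr : r ≤ 1 / 4)
    (hqr : 1 ≤ q * r ^ 3) (ha : |a| ≤ q * r) (hp : 0 < p) (hxp : x = p ^ 2 + a) (hY : 0 ≤ Y)
    (hd : Y ^ 2 - x ^ 3 = d) (hd2 : |d| ≤ q ^ 2) :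
    q ^ 4 / 2 ≤ p ^ 2 ∧ p ≤ 2 * q ^ 2 ∧
      |Y - (p ^ 3 + 3 / 2 * (p * a) + 3 / 8 * (a ^ 2 / p))| * q ^ 3 ≤ 48 * r ^ 3 := by
  have hq4 : q ≤ q ^ 4 := le_self_pow₀ hq (by norm_num)
  have ha1 : |a| ≤ q / 4 := by nlinarith
  obtain ⟨ha2, ha3⟩ := abs_le.mp ha1
  have hp1 : q ^ 4 / 2 ≤ p ^ 2 := by linarith
  have hp2 : p ^ 2 ≤ 2 * q ^ 4 := by linarith
  have hp3 : p ≤ 2 * q ^ 2 := by
    have h1 : p ^ 2 ≤ (2 * q ^ 2) ^ 2 := by
      have : (2 * q ^ 2) ^ 2 = 4 * q ^ 4 := by ring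
      have h0 : 0 ≤ q ^ 4 := by positivity
      linarith
    exact (pow_le_pow_iff_left₀ hp.le (by positivity) (by norm_num)).mp h1
  have hp4 : q ^ 2 / 2 ≤ p := by
    have h1 : (q ^ 2 / 2) ^ 2 ≤ p ^ 2 := by
      have : (q ^ 2 / 2) ^ 2 = q ^ 4 / 4 := by ring
      have h0 : 0 ≤ q ^ 4 := by positivity
      linarith
    exact (pow_le_pow_iff_left₀ (by positivity) hp.le (by norm_num)).mp h1
  refine ⟨hp1, hp3, ?_⟩
  obtain ⟨A, hA⟩ : ∃ A : ℝ, A = a / p ^ 2 := ⟨_, rfl⟩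
  have haA : a = A * p ^ 2 := by rw [hA]; field_simp
  have hA1 : |A| ≤ 1 / 2 := by
    rw [hA, abs_div, abs_of_pos (show (0 : ℝ) < p ^ 2 by positivity), div_le_iff₀ (by positivity)]
    linarith
  obtain ⟨hA2, hA3⟩ := abs_le.mp hA1
  obtain ⟨F, hF⟩ : ∃ F : ℝ, F = p ^ 3 + 3 / 2 * (p * a) + 3 / 8 * (a ^ 2 / p) := ⟨_, rfl⟩
  rw [← hF]
  have hFA : F = p ^ 3 * (1 + 3 / 2 * A + 3 / 8 * A ^ 2) := by
    rw [hF, haA]
    field_simp
  have hF1 : p ^ 3 / 4 ≤ F := by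
    rw [hFA]
    have : 1 / 4 ≤ 1 + 3 / 2 * A + 3 / 8 * A ^ 2 := by nlinarith [sq_nonneg A]
    have h3 : 0 < p ^ 3 := by positivity
    nlinarith
  have hp6 : q ^ 6 / 8 ≤ p ^ 3 := by
    have := pow_le_pow_left₀ (by positivity) hp4 3
    have h2 : (q ^ 2 / 2) ^ 3 = q ^ 6 / 8 := by ring
    linarith
  have hF2 : q ^ 6 / 32 ≤ F := by linarith
  have hF2x : F ^ 2 - x ^ 3 = a ^ 3 * (1 / 8 + 9 / 64 * A) := by
    rw [hFA, hxp, haA]
    ring
  have h1 : |F ^ 2 - x ^ 3| ≤ q ^ 3 * r ^ 3 / 2 := by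
    rw [hF2x, abs_mul, abs_pow]
    have h2 : |a| ^ 3 ≤ (q * r) ^ 3 := pow_le_pow_left₀ (abs_nonneg _) ha 3
    have h3 : |1 / 8 + 9 / 64 * A| ≤ 1 / 2 := by
      rw [abs_le]
      constructor <;> linarith
    calc |a| ^ 3 * |1 / 8 + 9 / 64 * A| ≤ (q * r) ^ 3 * (1 / 2) :=
          mul_le_mul h2 h3 (abs_nonneg _) (by positivity)
      _ = q ^ 3 * r ^ 3 / 2 := by ring
  have h2 : q ^ 2 ≤ q ^ 3 * r ^ 3 := by
    have h3 : q ^ 2 * 1 ≤ q ^ 2 * (q * r ^ 3) := mul_le_mul_of_nonneg_left hqr (by positivity)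
    calc q ^ 2 = q ^ 2 * 1 := (mul_one _).symm
      _ ≤ q ^ 2 * (q * r ^ 3) := h3
      _ = q ^ 3 * r ^ 3 := by ring
  have h3 : |Y - F| * (Y + F) ≤ 3 / 2 * (q ^ 3 * r ^ 3) := by
    have hF0 : 0 < F := lt_of_lt_of_le (by positivity) hF2
    rw [← abs_of_pos (show 0 < Y + F by linarith), ← abs_mul]
    have h4 : (Y - F) * (Y + F) = d - (F ^ 2 - x ^ 3) := by rw [← hd]; ring
    rw [h4]
    refine (abs_sub _ _).trans ?_
    linarith
  have h4 : |Y - F| * (q ^ 6 / 32) ≤ 3 / 2 * (q ^ 3 * r ^ 3) := by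
    refine le_trans ?_ h3
    apply mul_le_mul_of_nonneg_left (by linarith) (abs_nonneg _)
  have h5 : (|Y - F| * q ^ 3) * q ^ 3 ≤ (48 * r ^ 3) * q ^ 3 := by
    calc (|Y - F| * q ^ 3) * q ^ 3 = 32 * (|Y - F| * (q ^ 6 / 32)) := by ring
      _ ≤ 32 * (3 / 2 * (q ^ 3 * r ^ 3)) := by linarith
      _ = (48 * r ^ 3) * q ^ 3 := by ring
  exact le_of_mul_le_mul_right h5 (by positivity)

/-- the `p`-adic factor of an `S`-unit -/
theorem padic_prod {S : Finset ℕ} (hS : ∀ p ∈ S, p.Prime) {w : ℤ} (hw : SU S w) :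
    |(w : ℝ)| * ∏ p ∈ S, av (some p) (w : ℚ) = 1 := by
  have h1 := (Pool.Agent.Helper15.SUB.AV.2.2 S hS).2.2.2.2.2.2.2.1 w hw.1 hw.2
  rw [Pool.Agent.Helper15.SUB.prod_plc] at h1
  simpa [av] using h1

theorem avs_nonneg (v : Option ℕ) (x : ℚ) : 0 ≤ av v x := Pool.Agent.Helper15.SUB.AV.1 v x

theorem avp_mul {S : Finset ℕ} (hS : ∀ p ∈ S, p.Prime) {p : ℕ} (hp : p ∈ S) (x y : ℚ) :
    av (some p) (x * y) = av (some p) x * av (some p) y :=
  (Pool.Agent.Helper15.SUB.AV.2.2 S hS).2.1 (some p)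
    (by simp only [plc, Finset.some_mem_insertNone]; exact hp) x y

theorem avp_int {S : Finset ℕ} (hS : ∀ p ∈ S, p.Prime) {p : ℕ} (hp : p ∈ S) (z : ℤ) :
    av (some p) (z : ℚ) ≤ 1 := (Pool.Agent.Helper15.SUB.AV.2.2 S hS).2.2.2.2.1 p hp z

theorem avp_pow {S : Finset ℕ} (hS : ∀ p ∈ S, p.Prime) {p : ℕ} (hp : p ∈ S) (x : ℚ) (n : ℕ) :
    av (some p) (x ^ (n + 1)) = av (some p) x ^ (n + 1) := by
  induction n with
  | zero => simp
  | succ n ih => rw [pow_succ, avp_mul hS hp, ih, ← pow_succ]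

/-- squarefree part of an `S`-unit -/
theorem sqf {S : Finset ℕ} (hS : ∀ p ∈ S, p.Prime) (u : ℤ) (hu : SU S u) :
    ∃ e b : ℕ, b ^ 2 * e = u.natAbs ∧ Squarefree e ∧ e ≤ ∏ p ∈ S, p ∧ 0 < e ∧ 0 < b ∧
      SU S (b : ℤ) := by
  have hu0 : u.natAbs ≠ 0 := Int.natAbs_ne_zero.mpr hu.1
  obtain ⟨e, b, hb, he⟩ := Nat.sq_mul_squarefree u.natAbs
  have he0 : e ≠ 0 := by
    rintro rfl
    exact hu0 (by rw [← hb, mul_zero])
  have hb0 : b ≠ 0 := by
    rintro rfl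
    exact hu0 (by rw [← hb]; simp)
  have hdvd : ∀ q : ℕ, q.Prime → (q : ℤ) ∣ ((u.natAbs : ℕ) : ℤ) → q ∈ S := fun q hq h =>
    hu.2 q hq (by rwa [Int.dvd_natAbs] at h)
  refine ⟨e, b, hb, he, ?_, Nat.pos_of_ne_zero he0, Nat.pos_of_ne_zero hb0, ?_⟩
  · have h1 : e.primeFactors ⊆ S := by
      intro q hq
      refine hdvd q (Nat.prime_of_mem_primeFactors hq) ?_
      rw [← hb]
      exact_mod_cast (Nat.dvd_of_mem_primeFactors hq).mul_left _
    calc e = ∏ p ∈ e.primeFactors, p := (Nat.prod_primeFactors_of_squarefree he).symm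
      _ ≤ ∏ p ∈ S, p := Finset.prod_le_prod_of_subset_of_one_le' h1
          fun p hp _ => (hS p hp).one_lt.le
  · refine ⟨by exact_mod_cast hb0, fun q hq h => hdvd q hq ?_⟩
    rw [← hb]
    have h2 : q ∣ b := by exact_mod_cast h
    exact_mod_cast (h2.trans (dvd_pow_self b (by norm_num))).mul_right e

/-- the point is an `S`-unit itself -/
theorem caseA (hSUBTR : ST_SUBTR) {S : Finset ℕ} (hS : ∀ p ∈ S, p.Prime) {M1 : Set ℕ}
    (hM1 : M1.Infinite) (x b Y : ℕ → ℤ) (q : ℕ → ℝ) (e : ℕ) (he : 0 < e)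
    (hq : ∀ j ∈ M1, (x j : ℝ) = q j ^ 4 ∧ 1 ≤ q j) (hx2 : ∀ j ∈ M1, (2 : ℝ) ≤ x j)
    (hj : ∀ j ∈ M1, (j : ℝ) ≤ x j)
    (hb : ∀ j ∈ M1, 0 < b j ∧ SU S (b j)) (hxb : ∀ j ∈ M1, x j = e * b j ^ 2)
    (hY : ∀ j ∈ M1, 0 ≤ Y j) (hne : ∀ j ∈ M1, Y j ^ 2 ≠ x j ^ 3)
    (hd : ∀ j ∈ M1, |((Y j ^ 2 - x j ^ 3 : ℤ) : ℝ)| ≤ q j ^ 2) : False := by
  obtain ⟨s, hs⟩ : ∃ s : ℝ, s = √(e : ℝ) := ⟨_, rfl⟩
  have heR : (1 : ℝ) ≤ e := by exact_mod_cast he
  have hs0 : 0 < s := by rw [hs]; positivity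
  have hs2 : s ^ 2 = e := by rw [hs, Real.sq_sqrt (by positivity)]
  have hsalg : IsAlgebraic ℚ s := by
    refine IsAlgebraic.of_pow (n := 2) (by norm_num) ?_
    rw [hs2]
    exact isAlgebraic_natCast e
  have hpt : ∀ j ∈ M1, |(Y j : ℝ) - s ^ 3 * (b j : ℝ) ^ 3| ≤ ((x j : ℝ))⁻¹ ∧
      (b j : ℝ) ^ 3 ≤ (x j : ℝ) ^ 3 ∧ (Y j : ℝ) ≤ (x j : ℝ) ^ 3 := by
    intro j hjM
    obtain ⟨hx, hq1⟩ := hq j hjM
    have hbR : (0 : ℝ) < b j := by exact_mod_cast (hb j hjM).1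
    have hb1 : (1 : ℝ) ≤ b j := by exact_mod_cast (hb j hjM).1
    have hYR : (0 : ℝ) ≤ Y j := by exact_mod_cast hY j hjM
    have hxbR : (x j : ℝ) = (s * b j) ^ 2 := by
      rw [mul_pow, hs2]
      exact_mod_cast hxb j hjM
    obtain ⟨p, hp⟩ : ∃ p : ℝ, p = s * b j := ⟨_, rfl⟩
    rw [← hp] at hxbR
    have hp0 : 0 < p := by rw [hp]; positivity
    have hpq : p = q j ^ 2 := by
      have h1 : p ^ 2 = (q j ^ 2) ^ 2 := by rw [← hxbR, hx]; ring
      exact (pow_left_inj₀ hp0.le (by positivity) (by norm_num)).mp h1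
    have hdj := hd j hjM
    rw [← hpq] at hdj
    push_cast at hdj
    have h1 : (Y j : ℝ) ^ 2 - (x j : ℝ) ^ 3 = (Y j - p ^ 3) * (Y j + p ^ 3) := by
      rw [hxbR]; ring
    have hx2j := hx2 j hjM
    refine ⟨?_, ?_, ?_⟩
    · rw [h1, abs_mul, abs_of_pos (show 0 < (Y j : ℝ) + p ^ 3 by positivity)] at hdj
      have h2 : |(Y j : ℝ) - p ^ 3| * p ^ 3 ≤ p := by
        refine le_trans ?_ hdj
        apply mul_le_mul_of_nonneg_left (by linarith) (abs_nonneg _)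
      have h3 : s ^ 3 * (b j : ℝ) ^ 3 = p ^ 3 := by rw [hp]; ring
      rw [h3, hxbR, inv_eq_one_div, le_div_iff₀ (by positivity)]
      have h4 : (|(Y j : ℝ) - p ^ 3| * p ^ 2) * p ≤ 1 * p := by
        calc (|(Y j : ℝ) - p ^ 3| * p ^ 2) * p = |(Y j : ℝ) - p ^ 3| * p ^ 3 := by ring
          _ ≤ p := h2
          _ = 1 * p := (one_mul p).symm
      exact le_of_mul_le_mul_right h4 hp0
    · apply pow_le_pow_left₀ hbR.le
      have h2 : (x j : ℝ) = e * (b j : ℝ) ^ 2 := by exact_mod_cast hxb j hjM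
      rw [h2]
      have h3 : (b j : ℝ) ≤ (b j : ℝ) ^ 2 := le_self_pow₀ hb1 (by norm_num)
      nlinarith
    · have h2 : (Y j : ℝ) ^ 2 ≤ (x j : ℝ) ^ 3 + p := by
        have := (abs_le.mp hdj).2
        linarith
      have h3 : p ≤ x j := by
        rw [hxbR]
        apply le_self_pow₀ _ (by norm_num)
        rw [hpq]
        exact one_le_pow₀ hq1
      have hxj : (1 : ℝ) ≤ x j := by linarith
      have h4 : (x j : ℝ) ≤ (x j : ℝ) ^ 3 := le_self_pow₀ hxj (by norm_num)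
      have h5 : (Y j : ℝ) ^ 2 ≤ ((x j : ℝ) ^ 3) ^ 2 := by
        have h6 : 2 * (x j : ℝ) ^ 3 ≤ ((x j : ℝ) ^ 3) ^ 2 := by
          have h7 : (2 : ℝ) ≤ (x j : ℝ) ^ 3 := by linarith
          nlinarith
        linarith
      exact (pow_le_pow_iff_left₀ hYR (by positivity) (by norm_num)).mp h5
  obtain ⟨b0, b1, hb01, hrel⟩ := hSUBTR 1 S (fun _ => s ^ 3) 1 3 M1 (fun j => (x j : ℝ))
    Y (fun j _ => b j ^ 3) hS (fun _ => hsalg.pow 3) one_pos (by norm_num) hM1 (by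
      intro B
      refine (Set.finite_le_nat ⌊B⌋₊).subset fun j hjj => ?_
      exact Nat.le_floor ((hj j hjj.1).trans hjj.2)) (by
      intro j hjM
      obtain ⟨h1, h2, h3⟩ := hpt j hjM
      have hx2j := hx2 j hjM
      have hx1j : (1 : ℝ) ≤ x j := by linarith
      have hxr : (x j : ℝ) ^ (3 : ℝ) = (x j : ℝ) ^ 3 := by
        exact_mod_cast Real.rpow_natCast (x j : ℝ) 3
      have hbR : (0 : ℝ) < b j := by exact_mod_cast (hb j hjM).1
      have hYR : (0 : ℝ) ≤ Y j := by exact_mod_cast hY j hjM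
      refine ⟨hx1j, ?_, fun _ => ?_, ?_⟩
      · rw [hxr, abs_of_nonneg hYR]
        exact h3
      · rw [hxr]
        push_cast
        rw [abs_of_pos (by positivity)]
        exact h2
      · simp only [Fin.sum_univ_one, Fin.prod_univ_one]
        have hP := padic_prod hS (hb j hjM).2
        rw [abs_of_pos hbR] at hP
        have h4 : ∏ p ∈ S, (av (some p) (Y j : ℚ) * av (some p) ((b j ^ 3 : ℤ) : ℚ)) ≤
            (∏ p ∈ S, av (some p) (b j : ℚ)) ^ 3 := by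
          rw [← Finset.prod_pow]
          apply Finset.prod_le_prod
          · intro p _
            exact mul_nonneg (avs_nonneg _ _) (avs_nonneg _ _)
          · intro p hp
            have h5 : av (some p) ((b j ^ 3 : ℤ) : ℚ) = av (some p) (b j : ℚ) ^ 3 := by
              push_cast
              exact avp_pow hS hp _ 2
            rw [h5]
            calc av (some p) (Y j : ℚ) * av (some p) (b j : ℚ) ^ 3
                ≤ 1 * av (some p) (b j : ℚ) ^ 3 :=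
                  mul_le_mul_of_nonneg_right (avp_int hS hp _) (pow_nonneg (avs_nonneg _ _) _)
              _ = _ := one_mul _
        push_cast at h1 h4 ⊢
        rw [abs_of_pos (show (0 : ℝ) < (b j : ℝ) ^ 3 by positivity)]
        have h6 : 0 ≤ |(Y j : ℝ) - s ^ 3 * (b j : ℝ) ^ 3| * (b j : ℝ) ^ 3 := by positivity
        calc |(Y j : ℝ) - s ^ 3 * (b j : ℝ) ^ 3| * (b j : ℝ) ^ 3 *
              ∏ p ∈ S, (av (some p) (Y j : ℚ) * av (some p) ((b j : ℚ) ^ 3))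
            ≤ |(Y j : ℝ) - s ^ 3 * (b j : ℝ) ^ 3| * (b j : ℝ) ^ 3 *
              (∏ p ∈ S, av (some p) (b j : ℚ)) ^ 3 := mul_le_mul_of_nonneg_left h4 h6
          _ = |(Y j : ℝ) - s ^ 3 * (b j : ℝ) ^ 3| *
              ((b j : ℝ) * ∏ p ∈ S, av (some p) (b j : ℚ)) ^ 3 := by ring
          _ = |(Y j : ℝ) - s ^ 3 * (b j : ℝ) ^ 3| := by rw [hP]; ring
          _ ≤ ((x j : ℝ))⁻¹ := h1
          _ = (x j : ℝ) ^ (-(1 : ℝ)) := by rw [Real.rpow_neg (by linarith), Real.rpow_one])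
  simp only [Fin.sum_univ_one] at hrel
  set M2 : Set ℕ := {j | j ∈ M1 ∧ b0 * (Y j : ℚ) + b1 0 * ((b j ^ 3 : ℤ) : ℚ) = 0} with hM2
  have hb00 : b0 ≠ 0 := by
    rintro rfl
    have hb1 : b1 ≠ 0 := by
      rcases hb01 with h | h
      · exact absurd rfl h
      · exact h
    obtain ⟨j, hjM, hj0⟩ := hrel.nonempty
    have h1 : b1 0 * (((b j ^ 3 : ℤ)) : ℚ) = 0 := by linarith
    rcases mul_eq_zero.mp h1 with h | h
    · apply hb1
      funext i
      have hi : i = 0 := Subsingleton.elim _ _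
      rw [hi]
      exact h
    · have h2 : b j ^ 3 = 0 := by exact_mod_cast h
      have h3 := (hb j hjM).1
      have h4 : b j = 0 := pow_eq_zero_iff (by norm_num) |>.mp h2
      omega
  obtain ⟨β, hβ⟩ : ∃ β : ℚ, β = -(b1 0) / b0 := ⟨_, rfl⟩
  have hYβ : ∀ j ∈ M2, (Y j : ℝ) = β * (b j : ℝ) ^ 3 := by
    intro j hjM
    have h1 : (Y j : ℚ) = β * (b j : ℚ) ^ 3 := by
      have h2 := hjM.2
      push_cast at h2
      rw [hβ]
      field_simp
      linarith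
    exact_mod_cast h1
  have hβs : (β : ℝ) - s ^ 3 = 0 := by
    refine z0 hrel q _ 1 (fun j hjM => by linarith [(hq j hjM.1).2]) (fun j hjM => by
      rw [← (hq j hjM.1).1]; exact hj j hjM.1) fun j hjM => ?_
    have h1 := (hpt j hjM.1).1
    rw [hYβ j hjM, ← sub_mul, abs_mul] at h1
    have hb1 : (1 : ℝ) ≤ b j := by exact_mod_cast (hb j hjM.1).1
    have h2 : |(β : ℝ) - s ^ 3| ≤ ((x j : ℝ))⁻¹ := by
      refine le_trans ?_ h1
      rw [abs_of_pos (show (0 : ℝ) < (b j : ℝ) ^ 3 by positivity)]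
      have h3 : (1 : ℝ) ≤ (b j : ℝ) ^ 3 := one_le_pow₀ hb1
      nlinarith [abs_nonneg ((β : ℝ) - s ^ 3)]
    obtain ⟨hx, hq1⟩ := hq j hjM.1
    have hq4 : q j ≤ q j ^ 4 := le_self_pow₀ hq1 (by norm_num)
    calc |(β : ℝ) - s ^ 3| * q j ≤ ((x j : ℝ))⁻¹ * q j :=
          mul_le_mul_of_nonneg_right h2 (by linarith)
      _ ≤ ((x j : ℝ))⁻¹ * x j := by
          rw [hx]
          apply mul_le_mul_of_nonneg_left hq4 (by positivity)
      _ = 1 := inv_mul_cancel₀ (by have := hx2 j hjM.1; linarith)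
  obtain ⟨j, hjM⟩ := hrel.nonempty
  apply hne j hjM.1
  have h1 : ((Y j : ℝ)) ^ 2 = (x j : ℝ) ^ 3 := by
    have h2 : (x j : ℝ) = s ^ 2 * (b j : ℝ) ^ 2 := by
      rw [hs2]
      exact_mod_cast hxb j hjM.1
    rw [hYβ j hjM, h2, show (β : ℝ) = s ^ 3 by linarith]
    ring
  exact_mod_cast h1

/-- a rational multiple of the square root of a squarefree number -/
theorem sqf_one {e : ℕ} (he : Squarefree e) {s : ℝ} (hs : s ^ 2 = e) (c : ℚ) (hc : (c : ℝ) = s) :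
    e = 1 := by
  have h1 : c ^ 2 = (e : ℚ) := by
    have h2 : ((c ^ 2 : ℚ) : ℝ) = ((e : ℚ) : ℝ) := by
      push_cast
      rw [hc, hs]
    exact_mod_cast h2
  have h3 : IsSquare (e : ℚ) := ⟨c, by rw [← h1]; ring⟩
  rw [Rat.isSquare_natCast_iff] at h3
  obtain ⟨k, hk⟩ := h3
  have h4 : IsUnit k := he k (by rw [← hk])
  rw [Nat.isUnit_iff] at h4
  rw [hk, h4]

/-- the point is not an `S`-unit -/
theorem caseB (hSUBTR : ST_SUBTR) {S : Finset ℕ} (hS : ∀ p ∈ S, p.Prime) {M1 : Set ℕ}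
    (hM1 : M1.Infinite) (x b a Y : ℕ → ℤ) (q r : ℕ → ℝ) (η : ℝ) (hη : 0 < η) (e : ℕ) (he : 0 < e)
    (hsq : Squarefree e)
    (hq : ∀ j ∈ M1, (x j : ℝ) = q j ^ 4 ∧ 1 ≤ q j) (hx2 : ∀ j ∈ M1, (2 : ℝ) ≤ x j)
    (hj : ∀ j ∈ M1, (j : ℝ) ≤ x j)
    (hr : ∀ j ∈ M1, 0 < r j ∧ r j ≤ 1 / 4 ∧ 1 ≤ q j * r j ^ 3 ∧ (x j : ℝ) ^ (-η) = r j)
    (hb : ∀ j ∈ M1, 0 < b j ∧ SU S (b j)) (hxb : ∀ j ∈ M1, x j = e * b j ^ 2 + a j)
    (ha0 : ∀ j ∈ M1, a j ≠ 0) (ha : ∀ j ∈ M1, |(a j : ℝ)| ≤ q j * r j)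
    (hY : ∀ j ∈ M1, 0 ≤ Y j)
    (hd : ∀ j ∈ M1, |((Y j ^ 2 - x j ^ 3 : ℤ) : ℝ)| ≤ q j ^ 2) : False := by
  obtain ⟨s, hs⟩ : ∃ s : ℝ, s = √(e : ℝ) := ⟨_, rfl⟩
  have heR : (1 : ℝ) ≤ e := by exact_mod_cast he
  have hs0 : 0 < s := by rw [hs]; positivity
  have hs2 : s ^ 2 = e := by rw [hs, Real.sq_sqrt (by positivity)]
  have hs1 : 1 ≤ s := by
    rw [hs, Real.one_le_sqrt]
    exact heR
  have hsalg : IsAlgebraic ℚ s := by
    refine IsAlgebraic.of_pow (n := 2) (by norm_num) ?_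
    rw [hs2]
    exact isAlgebraic_natCast e
  -- pointwise
  have hpt : ∀ j ∈ M1, q j ^ 4 / 2 ≤ (s * b j) ^ 2 ∧ (s * b j) ≤ 2 * q j ^ 2 ∧
      |(Y j : ℝ) - ((s * b j) ^ 3 + 3 / 2 * ((s * b j) * a j) + 3 / 8 * ((a j : ℝ) ^ 2 / (s * b j)))| *
        q j ^ 3 ≤ 48 * r j ^ 3 := by
    intro j hjM
    obtain ⟨hx, hq1⟩ := hq j hjM
    obtain ⟨hr0, hr1, hr3, -⟩ := hr j hjM
    have hbR : (0 : ℝ) < b j := by exact_mod_cast (hb j hjM).1
    have hYR : (0 : ℝ) ≤ Y j := by exact_mod_cast hY j hjM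
    have hxbR : (x j : ℝ) = (s * b j) ^ 2 + a j := by
      rw [mul_pow, hs2]
      exact_mod_cast hxb j hjM
    have hdj := hd j hjM
    push_cast at hdj
    exact ptN hx hq1 hr0 hr1 hr3 (ha j hjM) (by positivity) hxbR hYR rfl hdj
  have hF : ∀ j ∈ M1, (b j : ℝ) * ((s * b j) ^ 3 + 3 / 2 * ((s * b j) * a j) +
      3 / 8 * ((a j : ℝ) ^ 2 / (s * b j))) =
      s ^ 3 * (b j : ℝ) ^ 4 + 3 / 2 * s * ((b j : ℝ) ^ 2 * a j) + 3 / 8 * s⁻¹ * (a j : ℝ) ^ 2 := by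
    intro j hjM
    have hbR : (0 : ℝ) < b j := by exact_mod_cast (hb j hjM).1
    field_simp
  have hbq : ∀ j ∈ M1, (b j : ℝ) ≤ 2 * q j ^ 2 := by
    intro j hjM
    have hbR : (0 : ℝ) < b j := by exact_mod_cast (hb j hjM).1
    have h1 := (hpt j hjM).2.1
    nlinarith
  have haq : ∀ j ∈ M1, |(a j : ℝ)| ≤ q j / 4 := by
    intro j hjM
    obtain ⟨hr0, hr1, hr3, -⟩ := hr j hjM
    have h1 := ha j hjM
    have h2 := (hq j hjM).2
    nlinarith
  obtain ⟨Dj, hDj⟩ : ∃ Dj : ℕ → ℝ, ∀ j, Dj j = (b j : ℝ) * Y j -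
      (s ^ 3 * (b j : ℝ) ^ 4 + 3 / 2 * s * ((b j : ℝ) ^ 2 * a j) + 3 / 8 * s⁻¹ * (a j : ℝ) ^ 2) :=
    ⟨_, fun _ => rfl⟩
  have hD1 : ∀ j ∈ M1, |Dj j| * q j ^ 3 ≤ b j * (48 * r j ^ 3) := by
    intro j hjM
    have hbR : (0 : ℝ) < b j := by exact_mod_cast (hb j hjM).1
    rw [hDj, ← hF j hjM, ← mul_sub, abs_mul, abs_of_pos hbR, mul_assoc]
    exact mul_le_mul_of_nonneg_left (hpt j hjM).2.2 hbR.le
  -- bounds
  have hY4 : ∀ j ∈ M1, (Y j : ℝ) ≤ (x j : ℝ) ^ 2 := by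
    intro j hjM
    obtain ⟨hx, hq1⟩ := hq j hjM
    have hYR : (0 : ℝ) ≤ Y j := by exact_mod_cast hY j hjM
    have hdj := hd j hjM
    push_cast at hdj
    have h1 := (abs_le.mp hdj).2
    have hx1 := hx2 j hjM
    have h2 : q j ^ 2 ≤ x j := by
      rw [hx]
      exact pow_le_pow_right₀ hq1 (by norm_num)
    have h3 : (x j : ℝ) ≤ (x j : ℝ) ^ 3 := le_self_pow₀ (by linarith) (by norm_num)
    have h4 : (Y j : ℝ) ^ 2 ≤ ((x j : ℝ) ^ 2) ^ 2 := by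
      have h5 : 2 * (x j : ℝ) ^ 3 ≤ ((x j : ℝ) ^ 2) ^ 2 := by
        have : ((x j : ℝ) ^ 2) ^ 2 = x j * (x j : ℝ) ^ 3 := by ring
        rw [this]
        apply mul_le_mul_of_nonneg_right hx1 (by positivity)
      linarith
    exact (pow_le_pow_iff_left₀ hYR (by positivity) (by norm_num)).mp h4
  have hbx : ∀ j ∈ M1, (b j : ℝ) ≤ 2 * x j := by
    intro j hjM
    obtain ⟨hx, hq1⟩ := hq j hjM
    refine (hbq j hjM).trans ?_
    rw [hx]
    have : q j ^ 2 ≤ q j ^ 4 := pow_le_pow_right₀ hq1 (by norm_num)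
    linarith
  have hb2x : ∀ j ∈ M1, (b j : ℝ) ≤ (x j : ℝ) ^ 2 := by
    intro j hjM
    have h1 := hbx j hjM
    have h2 := hx2 j hjM
    nlinarith
  have hax : ∀ j ∈ M1, |(a j : ℝ)| ≤ x j := by
    intro j hjM
    obtain ⟨hx, hq1⟩ := hq j hjM
    have h1 := haq j hjM
    have : q j ≤ q j ^ 4 := le_self_pow₀ hq1 (by norm_num)
    rw [hx]
    linarith
  obtain ⟨b0, b1, hb01, hrel⟩ := hSUBTR 3 S ![s ^ 3, 3 / 2 * s, 3 / 8 * s⁻¹] η 8 M1
    (fun j => (x j : ℝ)) (fun j => b j * Y j) (fun j => ![b j ^ 4, b j ^ 2 * a j, a j ^ 2]) hS (by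
      have h1 : ∀ c : ℚ, IsAlgebraic ℚ ((c : ℝ)) := fun c => isAlgebraic_algebraMap c
      intro i
      fin_cases i
      · exact hsalg.pow 3
      · have := (h1 (3 / 2)).mul hsalg
        simpa using this
      · have := (h1 (3 / 8)).mul hsalg.inv
        simpa using this) hη (by norm_num) hM1 (by
      intro B
      refine (Set.finite_le_nat ⌊B⌋₊).subset fun j hjj => ?_
      exact Nat.le_floor ((hj j hjj.1).trans hjj.2)) (by
      intro j hjM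
      obtain ⟨hx, hq1⟩ := hq j hjM
      obtain ⟨hr0, hr1, hr3, hre⟩ := hr j hjM
      have hx2j := hx2 j hjM
      have hx1j : (1 : ℝ) ≤ x j := by linarith
      have hxr : (x j : ℝ) ^ (8 : ℝ) = (x j : ℝ) ^ 8 := by
        exact_mod_cast Real.rpow_natCast (x j : ℝ) 8
      have hbR : (0 : ℝ) < b j := by exact_mod_cast (hb j hjM).1
      have hYR : (0 : ℝ) ≤ Y j := by exact_mod_cast hY j hjM
      have hb2 := hb2x j hjM
      have hY2 := hY4 j hjM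
      have ha2 := hax j hjM
      refine ⟨hx1j, ?_, fun i => ?_, ?_⟩
      · rw [hxr]
        push_cast
        rw [abs_of_nonneg (by positivity)]
        calc (b j : ℝ) * Y j ≤ (x j : ℝ) ^ 2 * (x j : ℝ) ^ 2 :=
              mul_le_mul hb2 hY2 hYR (by positivity)
          _ = (x j : ℝ) ^ 4 := by ring
          _ ≤ (x j : ℝ) ^ 8 := pow_le_pow_right₀ hx1j (by norm_num)
      · rw [hxr]
        fin_cases i
        · simp only [Fin.zero_eta, Matrix.cons_val_zero]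
          push_cast
          rw [abs_of_nonneg (by positivity)]
          calc (b j : ℝ) ^ 4 ≤ ((x j : ℝ) ^ 2) ^ 4 := pow_le_pow_left₀ hbR.le hb2 4
            _ = (x j : ℝ) ^ 8 := by ring
        · simp only [Fin.mk_one, Matrix.cons_val_one, Matrix.cons_val_zero]
          push_cast
          rw [abs_mul, abs_of_nonneg (by positivity)]
          calc (b j : ℝ) ^ 2 * |(a j : ℝ)| ≤ ((x j : ℝ) ^ 2) ^ 2 * x j :=
                mul_le_mul (pow_le_pow_left₀ hbR.le hb2 2) ha2 (abs_nonneg _) (by positivity)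
            _ = (x j : ℝ) ^ 5 := by ring
            _ ≤ (x j : ℝ) ^ 8 := pow_le_pow_right₀ hx1j (by norm_num)
        · simp only [Fin.reduceFinMk, Matrix.cons_val]
          push_cast
          rw [abs_of_nonneg (by positivity), ← sq_abs]
          calc |(a j : ℝ)| ^ 2 ≤ (x j : ℝ) ^ 2 := pow_le_pow_left₀ (abs_nonneg _) ha2 2
            _ ≤ (x j : ℝ) ^ 8 := pow_le_pow_right₀ hx1j (by norm_num)
      · simp only [Fin.sum_univ_three, Fin.prod_univ_three, Matrix.cons_val_zero, Matrix.cons_val_one,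
          Matrix.cons_val]
        have hP := padic_prod hS (hb j hjM).2
        rw [abs_of_pos hbR] at hP
        have h4 : ∏ p ∈ S, (av (some p) ((b j * Y j : ℤ) : ℚ) * (av (some p) ((b j ^ 4 : ℤ) : ℚ) *
            av (some p) ((b j ^ 2 * a j : ℤ) : ℚ) * av (some p) ((a j ^ 2 : ℤ) : ℚ))) ≤
            (∏ p ∈ S, av (some p) (b j : ℚ)) ^ 7 := by
          rw [← Finset.prod_pow]
          apply Finset.prod_le_prod
          · intro p _
            exact mul_nonneg (avs_nonneg _ _) (mul_nonneg (mul_nonneg (avs_nonneg _ _)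
              (avs_nonneg _ _)) (avs_nonneg _ _))
          · intro p hp
            have n0 : 0 ≤ av (some p) (b j : ℚ) := avs_nonneg _ _
            have e1 : av (some p) ((b j * Y j : ℤ) : ℚ) ≤ av (some p) (b j : ℚ) := by
              push_cast
              rw [avp_mul hS hp]
              calc av (some p) (b j : ℚ) * av (some p) (Y j : ℚ) ≤ av (some p) (b j : ℚ) * 1 :=
                    mul_le_mul_of_nonneg_left (avp_int hS hp _) n0
                _ = _ := mul_one _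
            have e2 : av (some p) ((b j ^ 4 : ℤ) : ℚ) = av (some p) (b j : ℚ) ^ 4 := by
              push_cast
              exact avp_pow hS hp _ 3
            have e3 : av (some p) ((b j ^ 2 * a j : ℤ) : ℚ) ≤ av (some p) (b j : ℚ) ^ 2 := by
              push_cast
              rw [avp_mul hS hp, avp_pow hS hp _ 1]
              calc av (some p) (b j : ℚ) ^ (1 + 1) * av (some p) (a j : ℚ) ≤
                    av (some p) (b j : ℚ) ^ (1 + 1) * 1 :=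
                    mul_le_mul_of_nonneg_left (avp_int hS hp _) (pow_nonneg n0 _)
                _ = _ := mul_one _
            have e4 : av (some p) ((a j ^ 2 : ℤ) : ℚ) ≤ 1 := avp_int hS hp _
            rw [e2]
            calc av (some p) ((b j * Y j : ℤ) : ℚ) * (av (some p) (b j : ℚ) ^ 4 *
                  av (some p) ((b j ^ 2 * a j : ℤ) : ℚ) * av (some p) ((a j ^ 2 : ℤ) : ℚ))
                ≤ av (some p) (b j : ℚ) * (av (some p) (b j : ℚ) ^ 4 *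
                  av (some p) (b j : ℚ) ^ 2 * 1) := by
                  apply mul_le_mul e1 _ _ n0
                  · apply mul_le_mul _ e4 (avs_nonneg _ _) (by positivity)
                    exact mul_le_mul_of_nonneg_left e3 (by positivity)
                  · exact mul_nonneg (mul_nonneg (by positivity) (avs_nonneg _ _)) (avs_nonneg _ _)
              _ = av (some p) (b j : ℚ) ^ 7 := by ring
        have h6 : |((b j * Y j : ℤ) : ℝ) - (s ^ 3 * ((b j ^ 4 : ℤ) : ℝ) +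
            3 / 2 * s * ((b j ^ 2 * a j : ℤ) : ℝ) + 3 / 8 * s⁻¹ * ((a j ^ 2 : ℤ) : ℝ))| = |Dj j| := by
          rw [hDj]
          push_cast
          rfl
        rw [h6]
        have h7 : |((b j ^ 4 : ℤ) : ℝ)| * |((b j ^ 2 * a j : ℤ) : ℝ)| * |((a j ^ 2 : ℤ) : ℝ)| =
            (b j : ℝ) ^ 6 * |(a j : ℝ)| ^ 3 := by
          push_cast
          rw [abs_mul, abs_pow, abs_pow, abs_pow, abs_of_pos hbR]
          ring
        rw [h7]
        have n1 : 0 ≤ |Dj j| * ((b j : ℝ) ^ 6 * |(a j : ℝ)| ^ 3) := by positivity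
        have h8 : (0 : ℝ) ≤ ∏ p ∈ S, av (some p) (b j : ℚ) := by
          apply Finset.prod_nonneg
          intro p _
          exact avs_nonneg _ _
        refine (mul_le_mul_of_nonneg_left h4 n1).trans ?_
        rw [hre]
        -- clear the power of q
        have hq3 : 0 < q j ^ 3 := by positivity
        have h9 : |(a j : ℝ)| ^ 3 ≤ (q j * r j) ^ 3 := pow_le_pow_left₀ (abs_nonneg _) (ha j hjM) 3
        have h10 : (|Dj j| * q j ^ 3) * (r j ^ 3) ≤ (b j * (48 * r j ^ 3)) * (r j ^ 3) :=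
          mul_le_mul_of_nonneg_right (hD1 j hjM) (by positivity)
        calc |Dj j| * ((b j : ℝ) ^ 6 * |(a j : ℝ)| ^ 3) * (∏ p ∈ S, av (some p) (b j : ℚ)) ^ 7
            = |(a j : ℝ)| ^ 3 * (|Dj j| * ((b j : ℝ) ^ 6 * (∏ p ∈ S, av (some p) (b j : ℚ)) ^ 7)) := by
              ring
          _ ≤ (q j * r j) ^ 3 * (|Dj j| * ((b j : ℝ) ^ 6 *
              (∏ p ∈ S, av (some p) (b j : ℚ)) ^ 7)) := by
              apply mul_le_mul_of_nonneg_right h9 (by positivity)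
          _ = ((|Dj j| * q j ^ 3) * (r j ^ 3)) * ((b j : ℝ) ^ 6 *
              (∏ p ∈ S, av (some p) (b j : ℚ)) ^ 7) := by ring
          _ ≤ ((b j * (48 * r j ^ 3)) * (r j ^ 3)) * ((b j : ℝ) ^ 6 *
              (∏ p ∈ S, av (some p) (b j : ℚ)) ^ 7) :=
              mul_le_mul_of_nonneg_right h10 (by positivity)
          _ = 48 * r j ^ 6 * ((b j : ℝ) * (∏ p ∈ S, av (some p) (b j : ℚ))) ^ 7 := by ring
          _ = 48 * r j ^ 6 := by rw [hP]; ring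
          _ ≤ r j := by
              have h11 : r j ^ 5 ≤ (1 / 4) ^ 5 := pow_le_pow_left₀ hr0.le hr1 5
              have h12 : 48 * r j ^ 6 = r j * (48 * r j ^ 5) := by ring
              rw [h12]
              have h13 : 48 * r j ^ 5 ≤ 1 := by
                have : (48 : ℝ) * (1 / 4) ^ 5 ≤ 1 := by norm_num
                linarith
              calc r j * (48 * r j ^ 5) ≤ r j * 1 := mul_le_mul_of_nonneg_left h13 hr0.le
                _ = r j := mul_one _)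
  simp only [Fin.sum_univ_three, Matrix.cons_val_zero, Matrix.cons_val_one, Matrix.cons_val] at hrel
  set M2 : Set ℕ := {j | j ∈ M1 ∧ b0 * ((b j * Y j : ℤ) : ℚ) + (b1 0 * ((b j ^ 4 : ℤ) : ℚ) +
    b1 1 * ((b j ^ 2 * a j : ℤ) : ℚ) + b1 2 * ((a j ^ 2 : ℤ) : ℚ)) = 0} with hM2
  have hrelR : ∀ j ∈ M2, (b0 : ℝ) * (b j * Y j) + ((b1 0 : ℝ) * (b j : ℝ) ^ 4 +
      (b1 1 : ℝ) * ((b j : ℝ) ^ 2 * a j) + (b1 2 : ℝ) * (a j : ℝ) ^ 2) = 0 := by
    intro j hjM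
    have h2 := hjM.2
    exact_mod_cast h2
  have q1 : ∀ j ∈ M2, 1 ≤ q j := fun j h => (hq j h.1).2
  have qj : ∀ j ∈ M2, (j : ℝ) ≤ q j ^ 4 := fun j h => by rw [← (hq j h.1).1]; exact hj j h.1
  have cW : ∀ j ∈ M2, 1 / (2 * (e : ℝ)) * q j ^ 4 ≤ (b j : ℝ) ^ 2 := by
    intro j h
    have h1 := (hpt j h.1).1
    rw [mul_pow, hs2] at h1
    rw [div_mul_eq_mul_div, one_mul, div_le_iff₀ (by positivity)]
    linarith
  have a1 : ∀ j ∈ M2, 1 ≤ |(a j : ℝ)| := by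
    intro j h
    exact_mod_cast Int.one_le_abs (ha0 j h.1)
  have aq : ∀ j ∈ M2, |(a j : ℝ)| ≤ q j := by
    intro j h
    have h1 := haq j h.1
    have h2 := q1 j h
    linarith
  have hb00 : b0 ≠ 0 := by
    rintro rfl
    have h3 := three_zero hrel q (fun j => (b j : ℝ)) (fun j => (a j : ℝ)) (fun _ => 0)
      (1 / (2 * (e : ℝ))) 0 (b1 0 : ℝ) (b1 1 : ℝ) (b1 2 : ℝ) (by positivity) le_rfl q1 qj cW a1 aq
      (fun j _ => by simp) (fun j h => by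
        have := hrelR j h
        push_cast at this
        linarith)
    rcases hb01 with h | h
    · exact h rfl
    · apply h
      funext i
      fin_cases i
      · exact_mod_cast h3.1
      · exact_mod_cast h3.2.1
      · exact_mod_cast h3.2.2
  have hb0R : (b0 : ℝ) ≠ 0 := by exact_mod_cast hb00
  have hrelD : ∀ j ∈ M2, (-(b1 0 : ℝ) / b0 - s ^ 3) * (b j : ℝ) ^ 4 +
      (-(b1 1 : ℝ) / b0 - 3 / 2 * s) * ((b j : ℝ) ^ 2 * a j) +
      (-(b1 2 : ℝ) / b0 - 3 / 8 * s⁻¹) * (a j : ℝ) ^ 2 = Dj j := by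
    intro j h
    have h1 := hrelR j h
    have h2 : (b j : ℝ) * Y j = -(b1 0 : ℝ) / b0 * (b j : ℝ) ^ 4 +
        -(b1 1 : ℝ) / b0 * ((b j : ℝ) ^ 2 * a j) + -(b1 2 : ℝ) / b0 * (a j : ℝ) ^ 2 := by
      field_simp
      linarith
    rw [hDj, h2]
    ring
  have hDq : ∀ j ∈ M2, |Dj j| * q j ≤ 96 := by
    intro j h
    obtain ⟨hr0, hr1, -, -⟩ := hr j h.1
    have h1 := hD1 j h.1
    have h2 := hbq j h.1
    have hq1 := q1 j h
    have h3 : (|Dj j| * q j) * q j ^ 2 ≤ 96 * q j ^ 2 := by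
      calc (|Dj j| * q j) * q j ^ 2 = |Dj j| * q j ^ 3 := by ring
        _ ≤ b j * (48 * r j ^ 3) := h1
        _ ≤ (2 * q j ^ 2) * (48 * 1) := by
            have h4 : r j ^ 3 ≤ 1 := pow_le_one₀ hr0.le (by linarith)
            apply mul_le_mul h2 _ (by positivity) (by positivity)
            linarith
        _ = 96 * q j ^ 2 := by ring
    exact le_of_mul_le_mul_right h3 (by positivity)
  obtain ⟨g1, g2, g3⟩ := three_zero hrel q (fun j => (b j : ℝ)) (fun j => (a j : ℝ)) Dj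
    (1 / (2 * (e : ℝ))) 96 _ _ _ (by positivity) (by norm_num) q1 qj cW a1 aq hDq hrelD
  -- e = 1
  have he1 : e = 1 := by
    refine sqf_one hsq hs2 (-(b1 1) / b0 * (2 / 3)) ?_
    push_cast
    linarith
  have hs1' : s = 1 := by
    rw [he1] at hs2
    push_cast at hs2
    exact (pow_eq_one_iff_of_nonneg hs0.le (by norm_num)).mp hs2
  obtain ⟨j, hjM⟩ := hrel.nonempty
  have hD0 : Dj j = 0 := by
    rw [← hrelD j hjM, g1, g2, g3]
    ring
  have h1 : (b j : ℝ) * Y j = (b j : ℝ) ^ 4 + 3 / 2 * ((b j : ℝ) ^ 2 * a j) + 3 / 8 * (a j : ℝ) ^ 2 := by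
    have h2 := hDj j
    rw [hD0, hs1'] at h2
    norm_num at h2
    linarith
  have h2 : 3 * a j ^ 2 = b j * (8 * Y j - 8 * b j ^ 3 - 12 * b j * a j) := by
    have h3 : (3 : ℝ) * (a j : ℝ) ^ 2 = b j * (8 * Y j - 8 * (b j : ℝ) ^ 3 - 12 * b j * a j) := by
      linarith
    exact_mod_cast h3
  have h3 : b j ≤ 3 * a j ^ 2 := by
    apply Int.le_of_dvd
    · have := ha0 j hjM.1
      positivity
    · exact ⟨_, h2⟩
  have h4 : (b j : ℝ) ≤ 3 * |(a j : ℝ)| ^ 2 := by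
    rw [sq_abs]
    exact_mod_cast h3
  obtain ⟨hr0, hr1, -, -⟩ := hr j hjM.1
  have h5 := ha j hjM.1
  have h6 := (hpt j hjM.1).1
  have hq1 := q1 j hjM
  rw [hs1', one_mul] at h6
  have hbR : (0 : ℝ) < b j := by exact_mod_cast (hb j hjM.1).1
  have h7 : (b j : ℝ) ≤ 3 * (q j * (1 / 4)) ^ 2 := by
    refine h4.trans ?_
    have h8 : |(a j : ℝ)| ≤ q j * (1 / 4) :=
      h5.trans (mul_le_mul_of_nonneg_left hr1 (by linarith))
    have := pow_le_pow_left₀ (abs_nonneg _) h8 2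
    linarith
  have h8 : (b j : ℝ) ^ 2 ≤ (3 * (q j * (1 / 4)) ^ 2) ^ 2 := pow_le_pow_left₀ hbR.le h7 2
  have h9 : (3 * (q j * (1 / 4)) ^ 2) ^ 2 = 9 / 256 * q j ^ 4 := by ring
  have h10 : 0 < q j ^ 4 := by positivity
  linarith

/-- **Row NEARX.** -/
theorem NEARX (hSUBTR : ST_SUBTR) : ST_NEARX := by
  classical
  intro S ε η0 hS hε hη0
  by_contra hne
  let τ : Type := {t : ℤ × ℤ × ℤ // SU S t.2.2 ∧
    |((t.1 - t.2.2 : ℤ) : ℝ)| ≤ |(t.1 : ℝ)| ^ (1 / 4 - η0) ∧ t.2.1 ^ 2 ≠ t.1 ^ 3}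
  obtain ⟨f, hf1, hf2⟩ := Pool.Agent.Helper72.SUB.EXTR τ (fun s => s.1.1) (fun s => s.1.2.1) ε hε
    (fun s => s.2.2.2) (by
      rintro ⟨C, hC⟩
      exact hne ⟨C, fun x y u h1 h2 h3 => hC ⟨(x, y, u), h1, h2, h3⟩⟩)
  obtain ⟨x, hx⟩ : ∃ x : ℕ → ℤ, x = fun j => (f j).1.1 := ⟨_, rfl⟩
  obtain ⟨y, hy⟩ : ∃ y : ℕ → ℤ, y = fun j => (f j).1.2.1 := ⟨_, rfl⟩
  obtain ⟨u, hu⟩ : ∃ u : ℕ → ℤ, u = fun j => (f j).1.2.2 := ⟨_, rfl⟩
  have hxj : ∀ j : ℕ, (j : ℝ) ≤ |(x j : ℝ)| := by rw [hx]; exact hf1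
  have hdj : ∀ j, |((y j ^ 2 - x j ^ 3 : ℤ) : ℝ)| ≤ |(x j : ℝ)| ^ (1 / (2 + ε)) := by
    rw [hx, hy]; exact hf2
  have huS : ∀ j, SU S (u j) := by rw [hu]; exact fun j => (f j).2.1
  have hxu : ∀ j, |((x j - u j : ℤ) : ℝ)| ≤ |(x j : ℝ)| ^ (1 / 4 - η0) := by
    rw [hx, hu]; exact fun j => (f j).2.2.1
  have hne3 : ∀ j, y j ^ 2 ≠ x j ^ 3 := by
    rw [hx, hy]; exact fun j => (f j).2.2.2
  clear hx hy hu hf1 hf2 f
  obtain ⟨η, hη⟩ : ∃ η : ℝ, η = min η0 (1 / 12) := ⟨_, rfl⟩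
  have hη1 : 0 < η := by rw [hη]; exact lt_min hη0 (by norm_num)
  have hη2 : η ≤ η0 := by rw [hη]; exact min_le_left _ _
  have hη3 : η ≤ 1 / 12 := by rw [hη]; exact min_le_right _ _
  obtain ⟨T, hT⟩ : ∃ T : ℕ, ∀ t : ℝ, (T : ℝ) ≤ t → 2 ≤ t ∧ t ^ (-η) ≤ 1 / 4 := by
    have h1 : ∀ᶠ t : ℝ in Filter.atTop, t ^ (-η) < 1 / 4 :=
      (tendsto_rpow_neg_atTop hη1).eventually (gt_mem_nhds (by norm_num))
    obtain ⟨T0, hT0⟩ := Filter.eventually_atTop.mp (h1.and (Filter.eventually_ge_atTop (2 : ℝ)))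
    obtain ⟨T, hT⟩ := exists_nat_ge T0
    exact ⟨T, fun t ht => ⟨(hT0 t (hT.trans ht)).2, (hT0 t (hT.trans ht)).1.le⟩⟩
  have hMi : (Set.Ici T).Infinite := Set.Ici_infinite T
  -- the sign of x
  have hxpos : ∀ j ∈ Set.Ici T, (0 : ℝ) < x j ∧ (2 : ℝ) ≤ x j ∧ (x j : ℝ) ^ (-η) ≤ 1 / 4 ∧
      (j : ℝ) ≤ x j := by
    intro j hjT
    have h0 : (T : ℝ) ≤ |(x j : ℝ)| := by
      refine le_trans ?_ (hxj j)
      exact_mod_cast hjT
    obtain ⟨h1, h2⟩ := hT _ h0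
    have h3 : (0 : ℝ) < x j := by
      by_contra hc
      have hc' : (x j : ℝ) ≤ 0 := not_lt.mp hc
      rw [abs_of_nonpos hc'] at h1
      have h4 := hdj j
      push_cast at h4
      have h5 : |(x j : ℝ)| ^ (1 / (2 + ε)) ≤ |(x j : ℝ)| := by
        conv_rhs => rw [← Real.rpow_one |(x j : ℝ)|]
        apply Real.rpow_le_rpow_of_exponent_le
        · rw [abs_of_nonpos hc']; linarith
        · rw [div_le_one (by linarith)]; linarith
      have h6 := (le_abs_self _).trans (h4.trans h5)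
      rw [abs_of_nonpos hc'] at h6
      obtain ⟨t, ht⟩ : ∃ t : ℝ, t = -(x j : ℝ) := ⟨_, rfl⟩
      have hxt : (x j : ℝ) = -t := by rw [ht]; ring
      rw [hxt] at h6 h1
      have h7 : (0 : ℝ) ≤ (y j : ℝ) ^ 2 := sq_nonneg _
      have h8 : 2 ≤ t := by linarith
      nlinarith [sq_nonneg t, sq_nonneg (t - 1)]
    rw [abs_of_pos h3] at h1 h2
    refine ⟨h3, h1, h2, ?_⟩
    have := hxj j
    rwa [abs_of_pos h3] at this
  obtain ⟨q, hq⟩ : ∃ q : ℕ → ℝ, ∀ j, q j = (x j : ℝ) ^ (1 / 4 : ℝ) := ⟨_, fun _ => rfl⟩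
  obtain ⟨r, hr⟩ : ∃ r : ℕ → ℝ, ∀ j, r j = (x j : ℝ) ^ (-η) := ⟨_, fun _ => rfl⟩
  have hq4 : ∀ j ∈ Set.Ici T, (x j : ℝ) = q j ^ 4 ∧ 1 ≤ q j := by
    intro j hjT
    obtain ⟨h1, h2, h3, h4⟩ := hxpos j hjT
    constructor
    · rw [hq, ← Real.rpow_natCast, ← Real.rpow_mul h1.le]
      norm_num
    · rw [hq]
      exact Real.one_le_rpow (by linarith) (by norm_num)
  have hrr : ∀ j ∈ Set.Ici T, 0 < r j ∧ r j ≤ 1 / 4 ∧ 1 ≤ q j * r j ^ 3 ∧
      (x j : ℝ) ^ (-η) = r j := by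
    intro j hjT
    obtain ⟨h1, h2, h3, h4⟩ := hxpos j hjT
    refine ⟨by rw [hr]; positivity, by rw [hr]; exact h3, ?_, (hr j).symm⟩
    rw [hq, hr, ← Real.rpow_natCast, ← Real.rpow_mul h1.le, ← Real.rpow_add h1]
    apply Real.one_le_rpow (by linarith)
    push_cast
    linarith
  have ha : ∀ j ∈ Set.Ici T, |((x j - u j : ℤ) : ℝ)| ≤ q j * r j := by
    intro j hjT
    obtain ⟨h1, h2, h3, h4⟩ := hxpos j hjT
    refine (hxu j).trans ?_
    rw [abs_of_pos h1, hq, hr, ← Real.rpow_add h1]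
    apply Real.rpow_le_rpow_of_exponent_le (by linarith)
    linarith
  have hd2 : ∀ j ∈ Set.Ici T, |(((|y j|) ^ 2 - x j ^ 3 : ℤ) : ℝ)| ≤ q j ^ 2 := by
    intro j hjT
    obtain ⟨h1, h2, h3, h4⟩ := hxpos j hjT
    rw [sq_abs]
    refine (hdj j).trans ?_
    rw [abs_of_pos h1, hq, ← Real.rpow_natCast, ← Real.rpow_mul h1.le]
    apply Real.rpow_le_rpow_of_exponent_le (by linarith)
    push_cast
    rw [div_le_iff₀ (by linarith)]
    linarith
  choose e b hbe hesq heN he0 hb0 hbS using fun j => sqf hS (u j) (huS j)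
  have hu0 : ∀ j ∈ Set.Ici T, u j = e j * (b j : ℤ) ^ 2 := by
    intro j hjT
    obtain ⟨h1, h2, h3, h4⟩ := hxpos j hjT
    obtain ⟨h5, h6⟩ := hq4 j hjT
    obtain ⟨h7, h8, h9, -⟩ := hrr j hjT
    have h10 := ha j hjT
    have hqx : q j ≤ x j := by
      rw [h5]
      exact le_self_pow₀ h6 (by norm_num)
    have h11 : q j * r j ≤ x j / 4 := by nlinarith
    have h12 := (abs_le.mp (h10.trans h11)).2
    push_cast at h12
    have h13 : (0 : ℝ) < u j := by linarith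
    have h14 : 0 < u j := by exact_mod_cast h13
    have h15 := hbe j
    have h16 : ((u j).natAbs : ℤ) = u j := Int.natAbs_of_nonneg h14.le
    rw [← h16, ← h15]
    push_cast
    ring
  -- constant squarefree part
  obtain ⟨e0, he0i⟩ := Pool.Agent.Helper94.SUB.pig hMi
    (fun j => (⟨e j, Nat.lt_succ_of_le (heN j)⟩ : Fin ((∏ p ∈ S, p) + 1)))
  obtain ⟨c0, hc0i⟩ := Pool.Agent.Helper94.SUB.pig he0i (fun j => decide (x j - u j = 0))
  have hsub : ∀ j, j ∈ {j | j ∈ {j | j ∈ Set.Ici T ∧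
      (⟨e j, Nat.lt_succ_of_le (heN j)⟩ : Fin ((∏ p ∈ S, p) + 1)) = e0} ∧
      decide (x j - u j = 0) = c0} → j ∈ Set.Ici T ∧ e j = (e0 : ℕ) ∧
      decide (x j - u j = 0) = c0 := by
    intro j hjM
    refine ⟨hjM.1.1, ?_, hjM.2⟩
    have h1 : (⟨e j, Nat.lt_succ_of_le (heN j)⟩ : Fin ((∏ p ∈ S, p) + 1)) = e0 := hjM.1.2
    rw [← h1]
  obtain ⟨M1, hM1⟩ : ∃ M1 : Set ℕ, M1 = {j | j ∈ {j | j ∈ Set.Ici T ∧
      (⟨e j, Nat.lt_succ_of_le (heN j)⟩ : Fin ((∏ p ∈ S, p) + 1)) = e0} ∧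
      decide (x j - u j = 0) = c0} := ⟨_, rfl⟩
  rw [← hM1] at hc0i
  simp only [← hM1] at hsub
  obtain ⟨j0, hj0⟩ := hc0i.nonempty
  have hE0 : 0 < (e0 : ℕ) := by
    rw [← (hsub j0 hj0).2.1]
    exact he0 j0
  have hEsq : Squarefree (e0 : ℕ) := by
    rw [← (hsub j0 hj0).2.1]
    exact hesq j0
  cases c0 with
  | true =>
    refine caseA hSUBTR hS hc0i x (fun j => (b j : ℤ)) (fun j => |y j|) q (e0 : ℕ) hE0
      (fun j h => hq4 j (hsub j h).1) (fun j h => (hxpos j (hsub j h).1).2.1)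
      (fun j h => (hxpos j (hsub j h).1).2.2.2)
      (fun j _ => ⟨by exact_mod_cast hb0 j, hbS j⟩) ?_ (fun j _ => abs_nonneg _) ?_
      (fun j h => hd2 j (hsub j h).1)
    · intro j h
      obtain ⟨h1, h2, h3⟩ := hsub j h
      have h4 : x j - u j = 0 := of_decide_eq_true h3
      have h5 := hu0 j h1
      rw [h2] at h5
      rw [← h5]
      omega
    · intro j _
      simp only [sq_abs]
      exact hne3 j
  | false =>
    refine caseB hSUBTR hS hc0i x (fun j => (b j : ℤ)) (fun j => x j - u j) (fun j => |y j|) q r η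
      hη1 (e0 : ℕ) hE0 hEsq
      (fun j h => hq4 j (hsub j h).1) (fun j h => (hxpos j (hsub j h).1).2.1)
      (fun j h => (hxpos j (hsub j h).1).2.2.2) (fun j h => hrr j (hsub j h).1)
      (fun j _ => ⟨by exact_mod_cast hb0 j, hbS j⟩) ?_ ?_ (fun j h => ha j (hsub j h).1)
      (fun j _ => abs_nonneg _) (fun j h => hd2 j (hsub j h).1)
    · intro j h
      obtain ⟨h1, h2, h3⟩ := hsub j h
      have h5 := hu0 j h1
      rw [h2] at h5
      rw [← h5]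
      omega
    · intro j h
      exact of_decide_eq_false (hsub j h).2.2

end Pool.Agent.Helper94.SUBK
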