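import Pool.Agent.Helper77.SUBK.SheetF
import Pool.Agent.Helper94.SUBK.NEARX

/-!
Project SUBK, sheet F, row NXL.
-/

set_option autoImplicit false

namespace Pool.Agent.Helper94.SUBK

open Finset Matrix Pool.Agent.Helper70.SUB Pool.Agent.Helper77.SUBK

/-- the data on an infinite set of indices -/
structure DatX (S : Finset ℕ) (x b Y : ℕ → ℤ) (q r : ℕ → ℝ) (μ κ : ℝ) (M : Set ℕ) : Prop where
  inf : M.Infinite
  hq : ∀ j ∈ M, (x j : ℝ) = q j ^ 4 ∧ 1 ≤ q j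
  hj : ∀ j ∈ M, (j : ℝ) ≤ q j ^ 4
  hb : ∀ j ∈ M, 0 < b j ∧ SU S (b j)
  hY : ∀ j ∈ M, 0 ≤ Y j
  hne : ∀ j ∈ M, Y j ^ 2 ≠ x j ^ 3
  hd : ∀ j ∈ M, |((Y j ^ 2 - x j ^ 3 : ℤ) : ℝ)| ≤ q j ^ 2
  hr : ∀ j ∈ M, 0 < r j ∧ r j ≤ 1 / 4 ∧ 1 ≤ q j * r j ^ 3 ∧ q j ^ (-κ) = r j
  ha : ∀ j ∈ M, |(x j : ℝ) - μ * (b j : ℝ) ^ 2| ≤ q j * r j

theorem DatX.mono {S : Finset ℕ} {x b Y : ℕ → ℤ} {q r : ℕ → ℝ} {μ κ : ℝ} {M M' : Set ℕ}
    (D : DatX S x b Y q r μ κ M) (h : M' ⊆ M) (hi : M'.Infinite) : DatX S x b Y q r μ κ M' :=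
  ⟨hi, fun j hj => D.hq j (h hj), fun j hj => D.hj j (h hj), fun j hj => D.hb j (h hj),
    fun j hj => D.hY j (h hj), fun j hj => D.hne j (h hj), fun j hj => D.hd j (h hj),
    fun j hj => D.hr j (h hj), fun j hj => D.ha j (h hj)⟩

/-- restriction to large indices -/
theorem inf_q {M : Set ℕ} (hM : M.Infinite) (q : ℕ → ℝ) (hq : ∀ j ∈ M, 1 ≤ q j)
    (hj : ∀ j ∈ M, (j : ℝ) ≤ q j ^ 4) (K : ℝ) : {j | j ∈ M ∧ K ≤ q j}.Infinite := by
  intro hfin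
  apply hM
  have h1 : {j | j ∈ M ∧ q j < K}.Finite := by
    refine (Set.finite_le_nat ⌊K ^ 4⌋₊).subset fun j hjj => ?_
    have h2 : q j ^ 4 ≤ K ^ 4 :=
      pow_le_pow_left₀ (by linarith [hq j hjj.1]) hjj.2.le 4
    exact Nat.le_floor ((hj j hjj.1).trans h2)
  refine (hfin.union h1).subset fun j hjM => ?_
  by_cases h : K ≤ q j
  · exact Or.inl ⟨hjM, h⟩
  · exact Or.inr ⟨hjM, not_le.mp h⟩

/-- the Subspace theorem with scale `q` -/
theorem subq (hSUBTQ : ST_SUBTQ) {n : ℕ} (hn : 1 ≤ n) {S : Finset ℕ} (hS : ∀ p ∈ S, p.Prime)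
    (A : Matrix (Fin n) (Fin n) ℝ) (hA : ∀ i k, IsAlgebraic ℚ (A i k)) (hdet : A.det ≠ 0)
    {ε B : ℝ} (hε : 0 < ε) (hB : 0 < B) {M : Set ℕ} (hM : M.Infinite) (q : ℕ → ℝ)
    (hq : ∀ j ∈ M, 1 ≤ q j) (hj : ∀ j ∈ M, (j : ℝ) ≤ q j ^ 4) (x : ℕ → Fin n → ℤ)
    (h1 : ∀ j ∈ M, ∀ i, |(x j i : ℝ)| ≤ q j ^ B)
    (h2 : ∀ j ∈ M, (∏ i, |∑ k, A i k * (x j k : ℝ)|) * ∏ p ∈ S, ∏ i, av (some p) (x j i) ≤
      q j ^ (-ε)) :
    ∃ b : Fin n → ℚ, b ≠ 0 ∧ {j | j ∈ M ∧ ∑ i, b i * (x j i : ℚ) = 0}.Infinite := by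
  refine hSUBTQ n S A ε B M q x hS hn hA hdet hε hB hM ?_ fun j hjM => ⟨hq j hjM, h1 j hjM, h2 j hjM⟩
  intro K
  refine (Set.finite_le_nat ⌊K ^ 4⌋₊).subset fun j hjj => ?_
  have h3 : q j ^ 4 ≤ K ^ 4 := pow_le_pow_left₀ (by linarith [hq j hjj.1]) hjj.2 4
  exact Nat.le_floor ((hj j hjj.1).trans h3)

/-- basic bounds -/
theorem DatX.bd {S : Finset ℕ} {x b Y : ℕ → ℤ} {q r : ℕ → ℝ} {μ κ : ℝ} {M : Set ℕ}
    (D : DatX S x b Y q r μ κ M) (hμ : 0 < μ) {j : ℕ} (hjM : j ∈ M) (hK1 : 2 ≤ q j)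
    (hK2 : 2 / μ ≤ q j) : q j ^ 4 / 2 ≤ μ * (b j : ℝ) ^ 2 ∧ μ * (b j : ℝ) ^ 2 ≤ 2 * q j ^ 4 ∧
      (b j : ℝ) ≤ q j ^ 3 ∧ (Y j : ℝ) ≤ q j ^ 7 ∧ |(x j : ℝ) - μ * (b j : ℝ) ^ 2| ≤ q j := by
  obtain ⟨hx, hq1⟩ := D.hq j hjM
  obtain ⟨hr0, hr1, -, -⟩ := D.hr j hjM
  have ha := D.ha j hjM
  have hbR : (0 : ℝ) < b j := by exact_mod_cast (D.hb j hjM).1
  have hYR : (0 : ℝ) ≤ Y j := by exact_mod_cast D.hY j hjM
  have ha1 : |(x j : ℝ) - μ * (b j : ℝ) ^ 2| ≤ q j / 4 := by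
    refine ha.trans ?_
    nlinarith
  obtain ⟨ha2, ha3⟩ := abs_le.mp ha1
  have hq4 : q j ≤ q j ^ 4 := le_self_pow₀ hq1 (by norm_num)
  rw [hx] at ha2 ha3
  have h1 : q j ^ 4 / 2 ≤ μ * (b j : ℝ) ^ 2 := by linarith
  have h2 : μ * (b j : ℝ) ^ 2 ≤ 2 * q j ^ 4 := by linarith
  refine ⟨h1, h2, ?_, ?_, by linarith⟩
  · have h3 : (b j : ℝ) ^ 2 ≤ (q j ^ 3) ^ 2 := by
      have h4 : 2 ≤ q j * μ := by
        rw [div_le_iff₀ hμ] at hK2
        exact hK2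
      have h5 : μ * (b j : ℝ) ^ 2 ≤ μ * q j ^ 5 := by
        calc μ * (b j : ℝ) ^ 2 ≤ 2 * q j ^ 4 := h2
          _ ≤ (q j * μ) * q j ^ 4 := mul_le_mul_of_nonneg_right h4 (by positivity)
          _ = μ * q j ^ 5 := by ring
      have h6 : (b j : ℝ) ^ 2 ≤ q j ^ 5 := le_of_mul_le_mul_left h5 hμ
      have h7 : q j ^ 5 ≤ q j ^ 6 := pow_le_pow_right₀ hq1 (by norm_num)
      calc (b j : ℝ) ^ 2 ≤ q j ^ 5 := h6
        _ ≤ q j ^ 6 := h7
        _ = (q j ^ 3) ^ 2 := by ring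
    exact (pow_le_pow_iff_left₀ hbR.le (by positivity) (by norm_num)).mp h3
  · have hd := D.hd j hjM
    push_cast at hd
    rw [hx] at hd
    have h3 := (abs_le.mp hd).2
    have h4 : (Y j : ℝ) ^ 2 ≤ (q j ^ 7) ^ 2 := by
      have h5 : q j ^ 2 ≤ q j ^ 12 := pow_le_pow_right₀ hq1 (by norm_num)
      have h6 : (q j ^ 7) ^ 2 = q j ^ 2 * q j ^ 12 := by ring
      have h7 : (4 : ℝ) ≤ q j ^ 2 := by nlinarith
      have h8 : 4 * q j ^ 12 ≤ q j ^ 2 * q j ^ 12 := mul_le_mul_of_nonneg_right h7 (by positivity)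
      have h9 : (q j ^ 4) ^ 3 = q j ^ 12 := by ring
      have h10 : 0 < q j ^ 12 := by positivity
      rw [h9] at h3
      linarith
    exact (pow_le_pow_iff_left₀ hYR (by positivity) (by norm_num)).mp h4

/-- the point is a multiple of an `S`-unit -/
theorem caseA2 (hSUBTQ : ST_SUBTQ) {S : Finset ℕ} (hS : ∀ p ∈ S, p.Prime) {x b Y : ℕ → ℤ}
    {q r : ℕ → ℝ} {μ κ : ℝ} {M : Set ℕ} (D0 : DatX S x b Y q r μ κ M) (hμ : 0 < μ)
    (halg : IsAlgebraic ℚ μ) (h0 : ∀ j ∈ M, (x j : ℝ) = μ * (b j : ℝ) ^ 2) : False := by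
  obtain ⟨s, hs⟩ : ∃ s : ℝ, s = √μ := ⟨_, rfl⟩
  have hs0 : 0 < s := by rw [hs]; positivity
  have hs2 : s ^ 2 = μ := by rw [hs, Real.sq_sqrt hμ.le]
  have hsalg : IsAlgebraic ℚ s := by
    refine IsAlgebraic.of_pow (n := 2) (by norm_num) ?_
    rw [hs2]
    exact halg
  obtain ⟨M1, hM1⟩ : ∃ M1 : Set ℕ, M1 = {j | j ∈ M ∧ max 2 (2 / μ) ≤ q j} := ⟨_, rfl⟩
  have hM1i : M1.Infinite := by
    rw [hM1]
    exact inf_q D0.inf q (fun j h => (D0.hq j h).2) D0.hj _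
  have hM1s : M1 ⊆ M := by rw [hM1]; exact fun j h => h.1
  have D := D0.mono hM1s hM1i
  have hK : ∀ j ∈ M1, 2 ≤ q j ∧ 2 / μ ≤ q j := by
    intro j hjM
    rw [hM1] at hjM
    exact ⟨(le_max_left _ _).trans hjM.2, (le_max_right _ _).trans hjM.2⟩
  have hpt : ∀ j ∈ M1, |(Y j : ℝ) - s ^ 3 * (b j : ℝ) ^ 3| * q j ^ 4 ≤ 1 := by
    intro j hjM
    obtain ⟨hx, hq1⟩ := D.hq j hjM
    have hbR : (0 : ℝ) < b j := by exact_mod_cast (D.hb j hjM).1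
    have hYR : (0 : ℝ) ≤ Y j := by exact_mod_cast D.hY j hjM
    have hxbR : (x j : ℝ) = (s * b j) ^ 2 := by
      rw [mul_pow, hs2]
      exact h0 j (hM1s hjM)
    obtain ⟨p, hp⟩ : ∃ p : ℝ, p = s * b j := ⟨_, rfl⟩
    rw [← hp] at hxbR
    have hp0 : 0 < p := by rw [hp]; positivity
    have hpq : p = q j ^ 2 := by
      have h1 : p ^ 2 = (q j ^ 2) ^ 2 := by rw [← hxbR, hx]; ring
      exact (pow_left_inj₀ hp0.le (by positivity) (by norm_num)).mp h1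
    have hdj := D.hd j hjM
    rw [← hpq] at hdj
    push_cast at hdj
    have h1 : (Y j : ℝ) ^ 2 - (x j : ℝ) ^ 3 = (Y j - p ^ 3) * (Y j + p ^ 3) := by
      rw [hxbR]; ring
    rw [h1, abs_mul, abs_of_pos (show 0 < (Y j : ℝ) + p ^ 3 by positivity)] at hdj
    have h2 : |(Y j : ℝ) - p ^ 3| * p ^ 3 ≤ p := by
      refine le_trans ?_ hdj
      apply mul_le_mul_of_nonneg_left (by linarith) (abs_nonneg _)
    have h3 : s ^ 3 * (b j : ℝ) ^ 3 = p ^ 3 := by rw [hp]; ring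
    have h5 : q j ^ 4 = p ^ 2 := by rw [hpq]; ring
    rw [h3, h5]
    have h4 : (|(Y j : ℝ) - p ^ 3| * p ^ 2) * p ≤ 1 * p := by
      calc (|(Y j : ℝ) - p ^ 3| * p ^ 2) * p = |(Y j : ℝ) - p ^ 3| * p ^ 3 := by ring
        _ ≤ p := h2
        _ = 1 * p := (one_mul p).symm
    exact le_of_mul_le_mul_right h4 hp0
  obtain ⟨c, hc, hrel⟩ := subq hSUBTQ (n := 2) (by norm_num) hS !![1, -s ^ 3; 0, 1] (by
      have a0 : IsAlgebraic ℚ (0 : ℝ) := isAlgebraic_zero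
      have a1 : IsAlgebraic ℚ (1 : ℝ) := isAlgebraic_one
      intro i k
      fin_cases i <;> fin_cases k
      · exact a1
      · exact (hsalg.pow 3).neg
      · exact a0
      · exact a1) (by rw [Matrix.det_fin_two_of]; norm_num) (ε := 1) (B := 9) one_pos (by norm_num)
    D.inf q (fun j h => (D.hq j h).2) D.hj (fun j => ![Y j, b j ^ 3]) (by
      intro j hjM i
      obtain ⟨hx, hq1⟩ := D.hq j hjM
      obtain ⟨k1, k2⟩ := hK j hjM
      obtain ⟨-, -, h3, h4, -⟩ := D.bd hμ hjM k1 k2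
      have hbR : (0 : ℝ) < b j := by exact_mod_cast (D.hb j hjM).1
      have hYR : (0 : ℝ) ≤ Y j := by exact_mod_cast D.hY j hjM
      have hqr : q j ^ (9 : ℝ) = q j ^ 9 := by exact_mod_cast Real.rpow_natCast (q j) 9
      rw [hqr]
      fin_cases i
      · simp only [Fin.zero_eta, Matrix.cons_val_zero]
        rw [abs_of_nonneg hYR]
        exact h4.trans (pow_le_pow_right₀ hq1 (by norm_num))
      · simp only [Fin.mk_one, Matrix.cons_val_one, Matrix.cons_val_zero]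
        push_cast
        rw [abs_of_pos (by positivity)]
        calc (b j : ℝ) ^ 3 ≤ (q j ^ 3) ^ 3 := pow_le_pow_left₀ hbR.le h3 3
          _ = q j ^ 9 := by ring) (by
      intro j hjM
      obtain ⟨hx, hq1⟩ := D.hq j hjM
      have hbR : (0 : ℝ) < b j := by exact_mod_cast (D.hb j hjM).1
      have h1 := hpt j hjM
      have hP := padic_prod hS (D.hb j hjM).2
      rw [abs_of_pos hbR] at hP
      have h4 : ∏ p ∈ S, (av (some p) (Y j : ℚ) * av (some p) ((b j ^ 3 : ℤ) : ℚ)) ≤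
          (∏ p ∈ S, av (some p) (b j : ℚ)) ^ 3 := by
        rw [← Finset.prod_pow]
        apply Finset.prod_le_prod
        · intro p _
          exact mul_nonneg (avs_nonneg _ _) (avs_nonneg _ _)
        · intro p hp
          have h5 : av (some p) ((b j ^ 3 : ℤ) : ℚ) = av (some p) (b j : ℚ) ^ 3 := by
            push_cast
            exact avp_pow hS hp _ 2
          rw [h5]
          calc av (some p) (Y j : ℚ) * av (some p) (b j : ℚ) ^ 3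
              ≤ 1 * av (some p) (b j : ℚ) ^ 3 :=
                mul_le_mul_of_nonneg_right (avp_int hS hp _) (pow_nonneg (avs_nonneg _ _) _)
            _ = _ := one_mul _
      simp only [Fin.sum_univ_two, Fin.prod_univ_two, Matrix.of_apply, Matrix.cons_val',
        Matrix.cons_val_zero, Matrix.cons_val_one, Matrix.cons_val_fin_one]
      have e1 : |1 * (Y j : ℝ) + -s ^ 3 * ((b j ^ 3 : ℤ) : ℝ)| =
          |(Y j : ℝ) - s ^ 3 * (b j : ℝ) ^ 3| := by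
        congr 1
        push_cast
        ring
      have e2 : |0 * (Y j : ℝ) + 1 * ((b j ^ 3 : ℤ) : ℝ)| = (b j : ℝ) ^ 3 := by
        push_cast
        rw [zero_mul, zero_add, one_mul, abs_of_pos (by positivity)]
      rw [e1, e2]
      have h6 : 0 ≤ |(Y j : ℝ) - s ^ 3 * (b j : ℝ) ^ 3| * (b j : ℝ) ^ 3 := by positivity
      refine (mul_le_mul_of_nonneg_left h4 h6).trans ?_
      have h7 : |(Y j : ℝ) - s ^ 3 * (b j : ℝ) ^ 3| * (b j : ℝ) ^ 3 *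
          (∏ p ∈ S, av (some p) (b j : ℚ)) ^ 3 = |(Y j : ℝ) - s ^ 3 * (b j : ℝ) ^ 3| := by
        calc |(Y j : ℝ) - s ^ 3 * (b j : ℝ) ^ 3| * (b j : ℝ) ^ 3 *
              (∏ p ∈ S, av (some p) (b j : ℚ)) ^ 3 = |(Y j : ℝ) - s ^ 3 * (b j : ℝ) ^ 3| *
              ((b j : ℝ) * ∏ p ∈ S, av (some p) (b j : ℚ)) ^ 3 := by ring
          _ = |(Y j : ℝ) - s ^ 3 * (b j : ℝ) ^ 3| := by rw [hP]; ring
      rw [h7, Real.rpow_neg (by linarith), Real.rpow_one, inv_eq_one_div, le_div_iff₀ (by linarith)]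
      refine le_trans ?_ h1
      apply mul_le_mul_of_nonneg_left _ (abs_nonneg _)
      exact le_self_pow₀ hq1 (by norm_num))
  simp only [Fin.sum_univ_two, Matrix.cons_val_zero, Matrix.cons_val_one] at hrel
  have hc0 : c 0 ≠ 0 := by
    intro hc0
    obtain ⟨j, hjM, hj0⟩ := hrel.nonempty
    rw [hc0, zero_mul, zero_add] at hj0
    rcases mul_eq_zero.mp hj0 with h | h
    · apply hc
      funext i
      fin_cases i
      · exact hc0
      · exact h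
    · have h2 : b j ^ 3 = 0 := by exact_mod_cast h
      have h3 := (D.hb j hjM).1
      have h4 : b j = 0 := pow_eq_zero_iff (by norm_num) |>.mp h2
      omega
  obtain ⟨β, hβ⟩ : ∃ β : ℚ, β = -(c 1) / c 0 := ⟨_, rfl⟩
  have hYβ : ∀ j ∈ {j | j ∈ M1 ∧ c 0 * (Y j : ℚ) + c 1 * ((b j ^ 3 : ℤ) : ℚ) = 0},
      (Y j : ℝ) = β * (b j : ℝ) ^ 3 := by
    intro j hjM
    have h1 : (Y j : ℚ) = β * (b j : ℚ) ^ 3 := by
      have h2 := hjM.2
      push_cast at h2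
      rw [hβ]
      field_simp
      linarith
    exact_mod_cast h1
  have hβs : (β : ℝ) - s ^ 3 = 0 := by
    refine z0 hrel q _ 1 (fun j hjM => by linarith [(D.hq j hjM.1).2]) (fun j hjM => D.hj j hjM.1)
      fun j hjM => ?_
    have h1 := hpt j hjM.1
    obtain ⟨hx, hq1⟩ := D.hq j hjM.1
    rw [hYβ j hjM, ← sub_mul, abs_mul] at h1
    have hb1 : (1 : ℝ) ≤ b j := by exact_mod_cast (D.hb j hjM.1).1
    rw [abs_of_pos (show (0 : ℝ) < (b j : ℝ) ^ 3 by positivity)] at h1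
    refine le_trans ?_ h1
    have h3 : (1 : ℝ) ≤ (b j : ℝ) ^ 3 := one_le_pow₀ hb1
    have h4 : q j ≤ q j ^ 4 := le_self_pow₀ hq1 (by norm_num)
    have h5 : |(β : ℝ) - s ^ 3| ≤ |(β : ℝ) - s ^ 3| * (b j : ℝ) ^ 3 := by
      nlinarith [abs_nonneg ((β : ℝ) - s ^ 3)]
    exact mul_le_mul h5 h4 (by linarith) (by positivity)
  obtain ⟨j, hjM⟩ := hrel.nonempty
  apply D.hne j hjM.1
  have h1 : ((Y j : ℝ)) ^ 2 = (x j : ℝ) ^ 3 := by
    rw [hYβ j hjM, h0 j (hM1s hjM.1), ← hs2, show (β : ℝ) = s ^ 3 by linarith]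
    ring
  exact_mod_cast h1

/-- the first coefficient vanishes -/
theorem first_zero {M : Set ℕ} (hM : M.Infinite) (q W A E : ℕ → ℝ) (c C γ1 γ2 γ3 : ℝ)
    (hc : 0 < c) (hC : 0 ≤ C) (hq : ∀ j ∈ M, 1 ≤ q j) (hj : ∀ j ∈ M, (j : ℝ) ≤ q j ^ 4)
    (hW : ∀ j ∈ M, c * q j ^ 4 ≤ W j ^ 2)
    (hA : ∀ j ∈ M, |A j| ≤ q j) (hE : ∀ j ∈ M, |E j| * q j ≤ C)
    (hr : ∀ j ∈ M, γ1 * W j ^ 4 + γ2 * (W j ^ 2 * A j) + γ3 * A j ^ 2 = E j) :
    γ1 = 0 := by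
  have hq0 : ∀ j ∈ M, 0 ≤ q j := fun j h => by linarith [hq j h]
  refine z0 hM q γ1 (|γ2| / c + |γ3| / c ^ 2 + C / c ^ 2) hq0 hj fun j hjM => ?_
  have q1 := hq j hjM
  have w1 := hW j hjM
  have a1 := hA j hjM
  have e1 := hE j hjM
  have r1 := hr j hjM
  have hq4 : q j ≤ q j ^ 4 := le_self_pow₀ q1 (by norm_num)
  have hcq : 0 < c * q j ^ 4 := by positivity
  have hW0 : 0 < W j ^ 2 := lt_of_lt_of_le hcq w1
  have h2 : |γ1| * W j ^ 4 ≤ |γ2| * (W j ^ 2 * |A j|) + |γ3| * |A j| ^ 2 + |E j| := by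
    have h3 : γ1 * W j ^ 4 = E j - γ2 * (W j ^ 2 * A j) - γ3 * A j ^ 2 := by linarith
    have h4 : |γ1 * W j ^ 4| ≤ |E j| + |γ2 * (W j ^ 2 * A j)| + |γ3 * A j ^ 2| := by
      rw [h3]
      refine (abs_sub _ _).trans ?_
      have := abs_sub (E j) (γ2 * (W j ^ 2 * A j))
      linarith
    rw [abs_mul, abs_mul, abs_mul, abs_mul, abs_pow, abs_pow, abs_pow, sq_abs] at h4
    have h5 : |W j| ^ 4 = W j ^ 4 := by
      rw [← abs_pow, abs_of_nonneg (by positivity)]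
    rw [h5] at h4
    linarith
  have h6 : W j ^ 4 = (W j ^ 2) ^ 2 := by ring
  have h7 : 0 < (W j ^ 2) ^ 2 := by positivity
  have h8 : |γ1| ≤ (|γ2| * (W j ^ 2 * |A j|) + |γ3| * |A j| ^ 2 + |E j|) / (W j ^ 2) ^ 2 := by
    rw [le_div_iff₀ h7, ← h6]
    exact h2
  have h9 : (|γ2| * (W j ^ 2 * |A j|) + |γ3| * |A j| ^ 2 + |E j|) / (W j ^ 2) ^ 2 =
      |γ2| * (|A j| / W j ^ 2) + |γ3| * (|A j| / W j ^ 2) ^ 2 + |E j| / (W j ^ 2) ^ 2 := by
    field_simp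
  rw [h9] at h8
  have t1 : |A j| / W j ^ 2 ≤ 1 / (c * q j ^ 2) := by
    rw [div_le_div_iff₀ hW0 (by positivity)]
    have h10 : |A j| * (c * q j ^ 2) ≤ c * q j ^ 4 := by
      have : |A j| * (c * q j ^ 2) ≤ q j * (c * q j ^ 2) :=
        mul_le_mul_of_nonneg_right a1 (by positivity)
      have h11 : q j * (c * q j ^ 2) ≤ c * q j ^ 4 := by
        have h12 : q j ^ 3 ≤ q j ^ 4 := pow_le_pow_right₀ q1 (by norm_num)
        calc q j * (c * q j ^ 2) = c * q j ^ 3 := by ring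
          _ ≤ c * q j ^ 4 := mul_le_mul_of_nonneg_left h12 hc.le
      linarith
    linarith
  have t0 : 0 ≤ |A j| / W j ^ 2 := by positivity
  have t2 : (|A j| / W j ^ 2) * q j ≤ 1 / c := by
    have h10 : 1 / (c * q j ^ 2) * q j = 1 / c * (1 / q j) := by
      field_simp
    have h11 : 1 / q j ≤ 1 := by
      rw [div_le_one (by linarith)]
      exact q1
    calc (|A j| / W j ^ 2) * q j ≤ 1 / (c * q j ^ 2) * q j :=
          mul_le_mul_of_nonneg_right t1 (hq0 j hjM)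
      _ = 1 / c * (1 / q j) := h10
      _ ≤ 1 / c * 1 := mul_le_mul_of_nonneg_left h11 (by positivity)
      _ = 1 / c := mul_one _
  have t3 : (|A j| / W j ^ 2) ^ 2 * q j ≤ 1 / c ^ 2 := by
    have h10 : (|A j| / W j ^ 2) ^ 2 * q j ≤ ((|A j| / W j ^ 2) * q j) ^ 2 := by
      rw [mul_pow]
      apply mul_le_mul_of_nonneg_left _ (by positivity)
      nlinarith
    have h11 : ((|A j| / W j ^ 2) * q j) ^ 2 ≤ (1 / c) ^ 2 :=
      pow_le_pow_left₀ (by have := hq0 j hjM; positivity) t2 2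
    rw [div_pow, one_pow] at h11
    linarith
  have t4 : |E j| / (W j ^ 2) ^ 2 * q j ≤ C / c ^ 2 := by
    rw [div_mul_eq_mul_div]
    apply div_le_div₀ hC e1 (by positivity)
    have h12 : c ≤ W j ^ 2 := by
      have : (1 : ℝ) ≤ q j ^ 4 := one_le_pow₀ q1
      nlinarith
    exact pow_le_pow_left₀ hc.le h12 2
  calc |γ1| * q j ≤ (|γ2| * (|A j| / W j ^ 2) + |γ3| * (|A j| / W j ^ 2) ^ 2 +
        |E j| / (W j ^ 2) ^ 2) * q j := mul_le_mul_of_nonneg_right h8 (hq0 j hjM)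
    _ = |γ2| * ((|A j| / W j ^ 2) * q j) + |γ3| * ((|A j| / W j ^ 2) ^ 2 * q j) +
        |E j| / (W j ^ 2) ^ 2 * q j := by ring
    _ ≤ |γ2| * (1 / c) + |γ3| * (1 / c ^ 2) + C / c ^ 2 := by
        gcongr
    _ = |γ2| / c + |γ3| / c ^ 2 + C / c ^ 2 := by ring

/-- a relation between `x` and `w ^ 2` is trivial -/
theorem lin_zero {M : Set ℕ} (hM : M.Infinite) (q W A : ℕ → ℝ) (c γ1 γ2 : ℝ)
    (hc : 0 < c) (hq : ∀ j ∈ M, 1 ≤ q j) (hj : ∀ j ∈ M, (j : ℝ) ≤ q j ^ 4)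
    (hW : ∀ j ∈ M, c * q j ^ 4 ≤ W j ^ 2)
    (hA : ∀ j ∈ M, |A j| ≤ q j) (hA0 : ∀ j ∈ M, A j ≠ 0)
    (hr : ∀ j ∈ M, γ1 * W j ^ 2 + γ2 * A j = 0) : γ1 = 0 ∧ γ2 = 0 := by
  have hq0 : ∀ j ∈ M, 0 ≤ q j := fun j h => by linarith [hq j h]
  have h1 : γ1 = 0 := by
    refine z0 hM q γ1 (|γ2| / c) hq0 hj fun j hjM => ?_
    have q1 := hq j hjM
    have w1 := hW j hjM
    have a1 := hA j hjM
    have h2 : |γ1| * W j ^ 2 = |γ2| * |A j| := by
      have h3 : γ1 * W j ^ 2 = -(γ2 * A j) := by linarith [hr j hjM]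
      have h4 : |γ1 * W j ^ 2| = |γ2 * A j| := by rw [h3, abs_neg]
      rw [abs_mul, abs_mul, abs_of_nonneg (sq_nonneg (W j))] at h4
      exact h4
    have h5 : |γ1| * (c * q j ^ 4) ≤ |γ2| * q j := by
      calc |γ1| * (c * q j ^ 4) ≤ |γ1| * W j ^ 2 := mul_le_mul_of_nonneg_left w1 (abs_nonneg _)
        _ = |γ2| * |A j| := h2
        _ ≤ |γ2| * q j := mul_le_mul_of_nonneg_left a1 (abs_nonneg _)
    rw [le_div_iff₀ hc]
    have h6 : (|γ1| * q j * c) * q j ≤ |γ2| * q j := by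
      refine le_trans ?_ h5
      have h7 : q j ^ 2 ≤ q j ^ 4 := pow_le_pow_right₀ q1 (by norm_num)
      calc (|γ1| * q j * c) * q j = |γ1| * (c * q j ^ 2) := by ring
        _ ≤ |γ1| * (c * q j ^ 4) := by
          apply mul_le_mul_of_nonneg_left _ (abs_nonneg _)
          exact mul_le_mul_of_nonneg_left h7 hc.le
    exact le_of_mul_le_mul_right h6 (by linarith)
  refine ⟨h1, ?_⟩
  obtain ⟨j, hjM⟩ := hM.nonempty
  have h2 := hr j hjM
  rw [h1, zero_mul, zero_add] at h2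
  exact (mul_eq_zero.mp h2).resolve_right (hA0 j hjM)

/-- the distance to the multiples of `S`-units is not small -/
theorem smallA (hSUBTQ : ST_SUBTQ) {S : Finset ℕ} (hS : ∀ p ∈ S, p.Prime) {x b Y : ℕ → ℤ}
    {q r : ℕ → ℝ} {μ κ : ℝ} {M : Set ℕ} (D0 : DatX S x b Y q r μ κ M) (hμ : 0 < μ)
    (halg : IsAlgebraic ℚ μ) (h0 : ∀ j ∈ M, (x j : ℝ) - μ * (b j : ℝ) ^ 2 ≠ 0) (K : ℝ)
    (hsm : ∀ j ∈ M, ((x j : ℝ) - μ * (b j : ℝ) ^ 2) ^ 2 * q j ≤ K) : False := by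
  obtain ⟨M1, hM1⟩ : ∃ M1 : Set ℕ, M1 = {j | j ∈ M ∧ max 2 (max (2 / μ) (K ^ 2)) ≤ q j} := ⟨_, rfl⟩
  have hM1i : M1.Infinite := by
    rw [hM1]
    exact inf_q D0.inf q (fun j h => (D0.hq j h).2) D0.hj _
  have hM1s : M1 ⊆ M := by rw [hM1]; exact fun j h => h.1
  have D := D0.mono hM1s hM1i
  have hK : ∀ j ∈ M1, 2 ≤ q j ∧ 2 / μ ≤ q j ∧ K ^ 2 ≤ q j := by
    intro j hjM
    rw [hM1] at hjM
    exact ⟨(le_max_left _ _).trans hjM.2, ((le_max_left _ _).trans (le_max_right _ _)).trans hjM.2,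
      ((le_max_right _ _).trans (le_max_right _ _)).trans hjM.2⟩
  obtain ⟨c, hc, hrel⟩ := subq hSUBTQ (n := 2) (by norm_num) hS !![1, -μ; 0, 1] (by
      have a0 : IsAlgebraic ℚ (0 : ℝ) := isAlgebraic_zero
      have a1 : IsAlgebraic ℚ (1 : ℝ) := isAlgebraic_one
      intro i k
      fin_cases i <;> fin_cases k
      · exact a1
      · exact halg.neg
      · exact a0
      · exact a1) (by rw [Matrix.det_fin_two_of]; norm_num) (ε := 1 / 4) (B := 6) (by norm_num)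
    (by norm_num)
    D.inf q (fun j h => (D.hq j h).2) D.hj (fun j => ![x j, b j ^ 2]) (by
      intro j hjM i
      obtain ⟨hx, hq1⟩ := D.hq j hjM
      obtain ⟨k1, k2, -⟩ := hK j hjM
      obtain ⟨-, -, h3, h4, -⟩ := D.bd hμ hjM k1 k2
      have hbR : (0 : ℝ) < b j := by exact_mod_cast (D.hb j hjM).1
      have hqr : q j ^ (6 : ℝ) = q j ^ 6 := by exact_mod_cast Real.rpow_natCast (q j) 6
      rw [hqr]
      fin_cases i
      · simp only [Fin.zero_eta, Matrix.cons_val_zero]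
        rw [hx, abs_of_nonneg (by positivity)]
        exact pow_le_pow_right₀ hq1 (by norm_num)
      · simp only [Fin.mk_one, Matrix.cons_val_one, Matrix.cons_val_zero]
        push_cast
        rw [abs_of_pos (by positivity)]
        calc (b j : ℝ) ^ 2 ≤ (q j ^ 3) ^ 2 := pow_le_pow_left₀ hbR.le h3 2
          _ = q j ^ 6 := by ring) (by
      intro j hjM
      obtain ⟨hx, hq1⟩ := D.hq j hjM
      obtain ⟨k1, k2, k3⟩ := hK j hjM
      have hbR : (0 : ℝ) < b j := by exact_mod_cast (D.hb j hjM).1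
      have h1 := hsm j (hM1s hjM)
      have hP := padic_prod hS (D.hb j hjM).2
      rw [abs_of_pos hbR] at hP
      have h4 : ∏ p ∈ S, (av (some p) (x j : ℚ) * av (some p) ((b j ^ 2 : ℤ) : ℚ)) ≤
          (∏ p ∈ S, av (some p) (b j : ℚ)) ^ 2 := by
        rw [← Finset.prod_pow]
        apply Finset.prod_le_prod
        · intro p _
          exact mul_nonneg (avs_nonneg _ _) (avs_nonneg _ _)
        · intro p hp
          have h5 : av (some p) ((b j ^ 2 : ℤ) : ℚ) = av (some p) (b j : ℚ) ^ 2 := by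
            push_cast
            exact avp_pow hS hp _ 1
          rw [h5]
          calc av (some p) (x j : ℚ) * av (some p) (b j : ℚ) ^ 2
              ≤ 1 * av (some p) (b j : ℚ) ^ 2 :=
                mul_le_mul_of_nonneg_right (avp_int hS hp _) (pow_nonneg (avs_nonneg _ _) _)
            _ = _ := one_mul _
      simp only [Fin.sum_univ_two, Fin.prod_univ_two, Matrix.of_apply, Matrix.cons_val',
        Matrix.cons_val_zero, Matrix.cons_val_one, Matrix.cons_val_fin_one]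
      have e1 : |1 * (x j : ℝ) + -μ * ((b j ^ 2 : ℤ) : ℝ)| =
          |(x j : ℝ) - μ * (b j : ℝ) ^ 2| := by
        congr 1
        push_cast
        ring
      have e2 : |0 * (x j : ℝ) + 1 * ((b j ^ 2 : ℤ) : ℝ)| = (b j : ℝ) ^ 2 := by
        push_cast
        rw [zero_mul, zero_add, one_mul, abs_of_pos (by positivity)]
      rw [e1, e2]
      have h6 : 0 ≤ |(x j : ℝ) - μ * (b j : ℝ) ^ 2| * (b j : ℝ) ^ 2 := by positivity
      refine (mul_le_mul_of_nonneg_left h4 h6).trans ?_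
      have h7 : |(x j : ℝ) - μ * (b j : ℝ) ^ 2| * (b j : ℝ) ^ 2 *
          (∏ p ∈ S, av (some p) (b j : ℚ)) ^ 2 = |(x j : ℝ) - μ * (b j : ℝ) ^ 2| := by
        calc |(x j : ℝ) - μ * (b j : ℝ) ^ 2| * (b j : ℝ) ^ 2 *
              (∏ p ∈ S, av (some p) (b j : ℚ)) ^ 2 = |(x j : ℝ) - μ * (b j : ℝ) ^ 2| *
              ((b j : ℝ) * ∏ p ∈ S, av (some p) (b j : ℚ)) ^ 2 := by ring
          _ = |(x j : ℝ) - μ * (b j : ℝ) ^ 2| := by rw [hP]; ring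
      rw [h7]
      obtain ⟨A, hA⟩ : ∃ A : ℝ, A = |(x j : ℝ) - μ * (b j : ℝ) ^ 2| := ⟨_, rfl⟩
      have hA0 : 0 ≤ A := by rw [hA]; exact abs_nonneg _
      rw [← sq_abs, ← hA] at h1
      rw [← hA]
      -- `A ^ 2 q ≤ K`, `K ^ 2 ≤ q`
      have hK0 : 0 ≤ K := le_trans (by positivity) h1
      have h8 : (A ^ 2 * q j) ^ 2 ≤ q j := (pow_le_pow_left₀ (by positivity) h1 2).trans k3
      have hq0 : 0 < q j := by linarith
      have h9 : A ^ 4 * q j ≤ 1 := by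
        have h10 : (A ^ 4 * q j) * q j ≤ 1 * q j := by
          calc (A ^ 4 * q j) * q j = (A ^ 2 * q j) ^ 2 := by ring
            _ ≤ q j := h8
            _ = 1 * q j := (one_mul _).symm
        exact le_of_mul_le_mul_right h10 hq0
      have h10 : A ^ 4 ≤ (q j ^ (-(1 / 4 : ℝ))) ^ 4 := by
        rw [← Real.rpow_natCast (q j ^ (-(1 / 4 : ℝ))), ← Real.rpow_mul hq0.le]
        have : -(1 / 4 : ℝ) * ((4 : ℕ) : ℝ) = -1 := by norm_num
        rw [this, Real.rpow_neg hq0.le, Real.rpow_one, inv_eq_one_div, le_div_iff₀ hq0]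
        exact h9
      exact (pow_le_pow_iff_left₀ hA0 (by positivity) (by norm_num)).mp h10)
  simp only [Fin.sum_univ_two, Matrix.cons_val_zero, Matrix.cons_val_one] at hrel
  obtain ⟨g1, g2⟩ := lin_zero hrel q (fun j => (b j : ℝ)) (fun j => (x j : ℝ) - μ * (b j : ℝ) ^ 2)
    (1 / (2 * μ)) ((c 0 : ℝ) * μ + c 1) (c 0 : ℝ) (by positivity)
    (fun j h => (D.hq j h.1).2) (fun j h => D.hj j h.1) (fun j h => by
      obtain ⟨k1, k2, -⟩ := hK j h.1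
      have h1 := (D.bd hμ h.1 k1 k2).1
      rw [div_mul_eq_mul_div, one_mul, div_le_iff₀ (by positivity)]
      linarith) (fun j h => by
      obtain ⟨k1, k2, -⟩ := hK j h.1
      exact (D.bd hμ h.1 k1 k2).2.2.2.2) (fun j h => h0 j (hM1s h.1)) (fun j h => by
      have h1 : (c 0 : ℝ) * (x j : ℝ) + c 1 * (b j : ℝ) ^ 2 = 0 := by
        have h2 := h.2
        exact_mod_cast h2
      linear_combination h1)
  apply hc
  funext i
  fin_cases i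
  · exact_mod_cast g2
  · rw [g2, zero_mul, zero_add] at g1
    exact_mod_cast g1

/-- the point is not a multiple of an `S`-unit -/
theorem caseB2 (hSUBTQ : ST_SUBTQ) {S : Finset ℕ} (hS : ∀ p ∈ S, p.Prime) {x b Y : ℕ → ℤ}
    {q r : ℕ → ℝ} {μ κ : ℝ} {M : Set ℕ} (D0 : DatX S x b Y q r μ κ M) (hμ : 0 < μ) (hκ : 0 < κ)
    (halg : IsAlgebraic ℚ μ) (h0 : ∀ j ∈ M, (x j : ℝ) - μ * (b j : ℝ) ^ 2 ≠ 0) : False := by
  obtain ⟨s, hs⟩ : ∃ s : ℝ, s = √μ := ⟨_, rfl⟩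
  have hs0 : 0 < s := by rw [hs]; positivity
  have hs2 : s ^ 2 = μ := by rw [hs, Real.sq_sqrt hμ.le]
  have hsalg : IsAlgebraic ℚ s := by
    refine IsAlgebraic.of_pow (n := 2) (by norm_num) ?_
    rw [hs2]
    exact halg
  obtain ⟨M1, hM1⟩ : ∃ M1 : Set ℕ, M1 = {j | j ∈ M ∧ max 2 (2 / μ) ≤ q j} := ⟨_, rfl⟩
  have hM1i : M1.Infinite := by
    rw [hM1]
    exact inf_q D0.inf q (fun j h => (D0.hq j h).2) D0.hj _
  have hM1s : M1 ⊆ M := by rw [hM1]; exact fun j h => h.1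
  have D := D0.mono hM1s hM1i
  have hK : ∀ j ∈ M1, 2 ≤ q j ∧ 2 / μ ≤ q j := by
    intro j hjM
    rw [hM1] at hjM
    exact ⟨(le_max_left _ _).trans hjM.2, (le_max_right _ _).trans hjM.2⟩
  obtain ⟨a, ha⟩ : ∃ a : ℕ → ℝ, ∀ j, a j = (x j : ℝ) - μ * (b j : ℝ) ^ 2 := ⟨_, fun _ => rfl⟩
  have ha0 : ∀ j ∈ M1, a j ≠ 0 := fun j h => by rw [ha]; exact h0 j (hM1s h)
  -- pointwise
  have hpt : ∀ j ∈ M1, (s * b j) ≤ 2 * q j ^ 2 ∧
      |(Y j : ℝ) - ((s * b j) ^ 3 + 3 / 2 * ((s * b j) * a j) + 3 / 8 * (a j ^ 2 / (s * b j)))| *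
        q j ^ 3 ≤ 48 * r j ^ 3 := by
    intro j hjM
    obtain ⟨hx, hq1⟩ := D.hq j hjM
    obtain ⟨hr0, hr1, hr3, -⟩ := D.hr j hjM
    have hbR : (0 : ℝ) < b j := by exact_mod_cast (D.hb j hjM).1
    have hYR : (0 : ℝ) ≤ Y j := by exact_mod_cast D.hY j hjM
    have hxbR : (x j : ℝ) = (s * b j) ^ 2 + a j := by
      rw [mul_pow, hs2, ha]
      ring
    have hdj := D.hd j hjM
    push_cast at hdj
    have hajq : |a j| ≤ q j * r j := by rw [ha]; exact D.ha j hjM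
    exact (ptN hx hq1 hr0 hr1 hr3 hajq (by positivity) hxbR hYR rfl hdj).2
  have hF : ∀ j ∈ M1, (b j : ℝ) * ((s * b j) ^ 3 + 3 / 2 * ((s * b j) * a j) +
      3 / 8 * (a j ^ 2 / (s * b j))) =
      s ^ 3 * (b j : ℝ) ^ 4 + 3 / 2 * s * ((b j : ℝ) ^ 2 * a j) + 3 / 8 * s⁻¹ * a j ^ 2 := by
    intro j hjM
    have hbR : (0 : ℝ) < b j := by exact_mod_cast (D.hb j hjM).1
    field_simp
  obtain ⟨E, hE⟩ : ∃ E : ℕ → ℝ, ∀ j, E j = (b j : ℝ) * Y j -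
      (s ^ 3 * (b j : ℝ) ^ 4 + 3 / 2 * s * ((b j : ℝ) ^ 2 * a j) + 3 / 8 * s⁻¹ * a j ^ 2) :=
    ⟨_, fun _ => rfl⟩
  have hE1 : ∀ j ∈ M1, |E j| * q j ^ 3 ≤ b j * (48 * r j ^ 3) := by
    intro j hjM
    have hbR : (0 : ℝ) < b j := by exact_mod_cast (D.hb j hjM).1
    rw [hE, ← hF j hjM, ← mul_sub, abs_mul, abs_of_pos hbR, mul_assoc]
    exact mul_le_mul_of_nonneg_left (hpt j hjM).2 hbR.le
  -- the matrix
  obtain ⟨A, hA⟩ : ∃ A : Matrix (Fin 4) (Fin 4) ℝ, A =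
      !![1, -(3 / 8 * s⁻¹), -(3 / 2 * s) + 2 * μ * (3 / 8 * s⁻¹),
          -s ^ 3 + 3 / 2 * s * μ - 3 / 8 * s⁻¹ * μ ^ 2;
        0, 1, -2 * μ, μ ^ 2; 0, 0, 1, -μ; 0, 0, 0, 1] := ⟨_, rfl⟩
  have hAalg : ∀ i k, IsAlgebraic ℚ (A i k) := by
    have hc : ∀ c : ℚ, IsAlgebraic ℚ ((c : ℝ)) := fun c => isAlgebraic_algebraMap c
    have a0 : IsAlgebraic ℚ (0 : ℝ) := isAlgebraic_zero
    have a1 : IsAlgebraic ℚ (1 : ℝ) := isAlgebraic_one
    have a38 : IsAlgebraic ℚ (3 / 8 : ℝ) := by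
      have := hc (3 / 8)
      push_cast at this
      exact this
    have a32 : IsAlgebraic ℚ (3 / 2 : ℝ) := by
      have := hc (3 / 2)
      push_cast at this
      exact this
    have a2 : IsAlgebraic ℚ (2 : ℝ) := by
      have := hc 2
      push_cast at this
      exact this
    have am2 : IsAlgebraic ℚ (-2 : ℝ) := a2.neg
    have si := hsalg.inv
    intro i k
    rw [hA]
    fin_cases i <;> fin_cases k
    · exact a1
    · exact (a38.mul si).neg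
    · exact ((a32.mul hsalg).neg).add ((a2.mul halg).mul (a38.mul si))
    · exact (((hsalg.pow 3).neg).add ((a32.mul hsalg).mul halg)).sub ((a38.mul si).mul (halg.pow 2))
    · exact a0
    · exact a1
    · exact am2.mul halg
    · exact halg.pow 2
    · exact a0
    · exact a0
    · exact a1
    · exact halg.neg
    · exact a0
    · exact a0
    · exact a0
    · exact a1
  have hAdet : A.det ≠ 0 := by
    have h1 : A.BlockTriangular id := by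
      intro i k hik
      rw [hA]
      fin_cases i <;> fin_cases k <;> first | rfl | (exfalso; revert hik; decide)
    rw [Matrix.det_of_upperTriangular h1, Fin.prod_univ_four, hA]
    simp
  obtain ⟨c, hc, hrel⟩ := subq hSUBTQ (n := 4) (by norm_num) hS A hAalg hAdet (ε := κ) (B := 12) hκ
    (by norm_num) D.inf q (fun j h => (D.hq j h).2) D.hj
    (fun j => ![b j * Y j, x j ^ 2, b j ^ 2 * x j, b j ^ 4]) (by
      intro j hjM i
      obtain ⟨hx, hq1⟩ := D.hq j hjM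
      obtain ⟨k1, k2⟩ := hK j hjM
      obtain ⟨-, -, h3, h4, -⟩ := D.bd hμ hjM k1 k2
      have hbR : (0 : ℝ) < b j := by exact_mod_cast (D.hb j hjM).1
      have hYR : (0 : ℝ) ≤ Y j := by exact_mod_cast D.hY j hjM
      have hqr : q j ^ (12 : ℝ) = q j ^ 12 := by exact_mod_cast Real.rpow_natCast (q j) 12
      rw [hqr]
      fin_cases i
      · simp only [Fin.zero_eta, Matrix.cons_val_zero]
        push_cast
        rw [abs_of_nonneg (by positivity)]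
        calc (b j : ℝ) * Y j ≤ q j ^ 3 * q j ^ 7 := mul_le_mul h3 h4 hYR (by positivity)
          _ = q j ^ 10 := by ring
          _ ≤ q j ^ 12 := pow_le_pow_right₀ hq1 (by norm_num)
      · simp only [Fin.mk_one, Matrix.cons_val_one, Matrix.cons_val_zero]
        push_cast
        rw [hx, abs_of_nonneg (by positivity)]
        calc (q j ^ 4) ^ 2 = q j ^ 8 := by ring
          _ ≤ q j ^ 12 := pow_le_pow_right₀ hq1 (by norm_num)
      · simp only [Fin.reduceFinMk, Matrix.cons_val]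
        push_cast
        rw [hx, abs_of_nonneg (by positivity)]
        calc (b j : ℝ) ^ 2 * q j ^ 4 ≤ (q j ^ 3) ^ 2 * q j ^ 4 :=
              mul_le_mul_of_nonneg_right (pow_le_pow_left₀ hbR.le h3 2) (by positivity)
          _ = q j ^ 10 := by ring
          _ ≤ q j ^ 12 := pow_le_pow_right₀ hq1 (by norm_num)
      · simp only [Fin.reduceFinMk, Matrix.cons_val]
        push_cast
        rw [abs_of_nonneg (by positivity)]
        calc (b j : ℝ) ^ 4 ≤ (q j ^ 3) ^ 4 := pow_le_pow_left₀ hbR.le h3 4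
          _ = q j ^ 12 := by ring) (by
      intro j hjM
      obtain ⟨hx, hq1⟩ := D.hq j hjM
      obtain ⟨hr0, hr1, hr3, hre⟩ := D.hr j hjM
      have hbR : (0 : ℝ) < b j := by exact_mod_cast (D.hb j hjM).1
      have hP := padic_prod hS (D.hb j hjM).2
      rw [abs_of_pos hbR] at hP
      have h4 : ∏ p ∈ S, (av (some p) ((b j * Y j : ℤ) : ℚ) * av (some p) ((x j ^ 2 : ℤ) : ℚ) *
          av (some p) ((b j ^ 2 * x j : ℤ) : ℚ) * av (some p) ((b j ^ 4 : ℤ) : ℚ)) ≤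
          (∏ p ∈ S, av (some p) (b j : ℚ)) ^ 7 := by
        rw [← Finset.prod_pow]
        apply Finset.prod_le_prod
        · intro p _
          exact mul_nonneg (mul_nonneg (mul_nonneg (avs_nonneg _ _) (avs_nonneg _ _))
            (avs_nonneg _ _)) (avs_nonneg _ _)
        · intro p hp
          have n0 : 0 ≤ av (some p) (b j : ℚ) := avs_nonneg _ _
          have e1 : av (some p) ((b j * Y j : ℤ) : ℚ) ≤ av (some p) (b j : ℚ) := by
            push_cast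
            rw [avp_mul hS hp]
            calc av (some p) (b j : ℚ) * av (some p) (Y j : ℚ) ≤ av (some p) (b j : ℚ) * 1 :=
                  mul_le_mul_of_nonneg_left (avp_int hS hp _) n0
              _ = _ := mul_one _
          have e2 : av (some p) ((b j ^ 4 : ℤ) : ℚ) = av (some p) (b j : ℚ) ^ 4 := by
            push_cast
            exact avp_pow hS hp _ 3
          have e3 : av (some p) ((b j ^ 2 * x j : ℤ) : ℚ) ≤ av (some p) (b j : ℚ) ^ 2 := by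
            push_cast
            rw [avp_mul hS hp, avp_pow hS hp _ 1]
            calc av (some p) (b j : ℚ) ^ (1 + 1) * av (some p) (x j : ℚ) ≤
                  av (some p) (b j : ℚ) ^ (1 + 1) * 1 :=
                  mul_le_mul_of_nonneg_left (avp_int hS hp _) (pow_nonneg n0 _)
              _ = _ := mul_one _
          have e4 : av (some p) ((x j ^ 2 : ℤ) : ℚ) ≤ 1 := avp_int hS hp _
          rw [e2]
          calc av (some p) ((b j * Y j : ℤ) : ℚ) * av (some p) ((x j ^ 2 : ℤ) : ℚ) *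
                av (some p) ((b j ^ 2 * x j : ℤ) : ℚ) * av (some p) (b j : ℚ) ^ 4
              ≤ av (some p) (b j : ℚ) * 1 * av (some p) (b j : ℚ) ^ 2 *
                av (some p) (b j : ℚ) ^ 4 := by
                apply mul_le_mul_of_nonneg_right _ (by positivity)
                apply mul_le_mul _ e3 (avs_nonneg _ _) (by positivity)
                exact mul_le_mul e1 e4 (avs_nonneg _ _) n0
            _ = av (some p) (b j : ℚ) ^ 7 := by ring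
      have h3 : (∏ i, |∑ k, A i k * ((![b j * Y j, x j ^ 2, b j ^ 2 * x j, b j ^ 4] k : ℤ) : ℝ)|) =
          |E j| * a j ^ 2 * ((b j : ℝ) ^ 2 * |a j|) * (b j : ℝ) ^ 4 := by
        rw [hA, Fin.prod_univ_four]
        simp only [Fin.sum_univ_four, Matrix.of_apply, Matrix.cons_val', Matrix.cons_val_zero,
          Matrix.cons_val_one, Matrix.cons_val, Matrix.cons_val_fin_one]
        push_cast
        have f1 : (1 : ℝ) * ((b j : ℝ) * Y j) + -(3 / 8 * s⁻¹) * (x j : ℝ) ^ 2 +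
            (-(3 / 2 * s) + 2 * μ * (3 / 8 * s⁻¹)) * ((b j : ℝ) ^ 2 * x j) +
            (-s ^ 3 + 3 / 2 * s * μ - 3 / 8 * s⁻¹ * μ ^ 2) * (b j : ℝ) ^ 4 = E j := by
          rw [hE, ha]
          ring
        have f2 : (0 : ℝ) * ((b j : ℝ) * Y j) + 1 * (x j : ℝ) ^ 2 + -2 * μ * ((b j : ℝ) ^ 2 * x j) +
            μ ^ 2 * (b j : ℝ) ^ 4 = a j ^ 2 := by
          rw [ha]
          ring
        have f3 : (0 : ℝ) * ((b j : ℝ) * Y j) + 0 * (x j : ℝ) ^ 2 + 1 * ((b j : ℝ) ^ 2 * x j) +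
            -μ * (b j : ℝ) ^ 4 = (b j : ℝ) ^ 2 * a j := by
          rw [ha]
          ring
        have f4 : (0 : ℝ) * ((b j : ℝ) * Y j) + 0 * (x j : ℝ) ^ 2 + 0 * ((b j : ℝ) ^ 2 * x j) +
            1 * (b j : ℝ) ^ 4 = (b j : ℝ) ^ 4 := by
          ring
        rw [f1, f2, f3, f4, abs_of_nonneg (show (0 : ℝ) ≤ a j ^ 2 by positivity), abs_mul,
          abs_of_nonneg (show (0 : ℝ) ≤ (b j : ℝ) ^ 2 by positivity),
          abs_of_nonneg (show (0 : ℝ) ≤ (b j : ℝ) ^ 4 by positivity)]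
      have h5 : ∏ p ∈ S, ∏ i, av (some p) ((![b j * Y j, x j ^ 2, b j ^ 2 * x j, b j ^ 4] i : ℤ) : ℚ)
          = ∏ p ∈ S, (av (some p) ((b j * Y j : ℤ) : ℚ) * av (some p) ((x j ^ 2 : ℤ) : ℚ) *
          av (some p) ((b j ^ 2 * x j : ℤ) : ℚ) * av (some p) ((b j ^ 4 : ℤ) : ℚ)) := by
        refine Finset.prod_congr rfl fun p _ => ?_
        rw [Fin.prod_univ_four]
        rfl
      rw [h3, h5, hre]
      have n1 : 0 ≤ |E j| * a j ^ 2 * ((b j : ℝ) ^ 2 * |a j|) * (b j : ℝ) ^ 4 := by positivity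
      have h8 : (0 : ℝ) ≤ ∏ p ∈ S, av (some p) (b j : ℚ) := by
        apply Finset.prod_nonneg
        intro p _
        exact avs_nonneg _ _
      refine (mul_le_mul_of_nonneg_left h4 n1).trans ?_
      have hajq : |a j| ≤ q j * r j := by rw [ha]; exact D.ha j hjM
      have h9 : |a j| ^ 3 ≤ (q j * r j) ^ 3 := pow_le_pow_left₀ (abs_nonneg _) hajq 3
      have h10 : (|E j| * q j ^ 3) * (r j ^ 3) ≤ (b j * (48 * r j ^ 3)) * (r j ^ 3) :=
        mul_le_mul_of_nonneg_right (hE1 j hjM) (by positivity)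
      calc |E j| * a j ^ 2 * ((b j : ℝ) ^ 2 * |a j|) * (b j : ℝ) ^ 4 *
            (∏ p ∈ S, av (some p) (b j : ℚ)) ^ 7
          = |a j| ^ 3 * (|E j| * ((b j : ℝ) ^ 6 * (∏ p ∈ S, av (some p) (b j : ℚ)) ^ 7)) := by
            rw [← sq_abs (a j)]
            ring
        _ ≤ (q j * r j) ^ 3 * (|E j| * ((b j : ℝ) ^ 6 *
            (∏ p ∈ S, av (some p) (b j : ℚ)) ^ 7)) := by
            apply mul_le_mul_of_nonneg_right h9 (by positivity)
        _ = ((|E j| * q j ^ 3) * (r j ^ 3)) * ((b j : ℝ) ^ 6 *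
            (∏ p ∈ S, av (some p) (b j : ℚ)) ^ 7) := by ring
        _ ≤ ((b j * (48 * r j ^ 3)) * (r j ^ 3)) * ((b j : ℝ) ^ 6 *
            (∏ p ∈ S, av (some p) (b j : ℚ)) ^ 7) :=
            mul_le_mul_of_nonneg_right h10 (by positivity)
        _ = 48 * r j ^ 6 * ((b j : ℝ) * (∏ p ∈ S, av (some p) (b j : ℚ))) ^ 7 := by ring
        _ = 48 * r j ^ 6 := by rw [hP]; ring
        _ ≤ r j := by
            have h11 : r j ^ 5 ≤ (1 / 4) ^ 5 := pow_le_pow_left₀ hr0.le hr1 5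
            have h12 : 48 * r j ^ 6 = r j * (48 * r j ^ 5) := by ring
            rw [h12]
            have h13 : 48 * r j ^ 5 ≤ 1 := by
              have : (48 : ℝ) * (1 / 4) ^ 5 ≤ 1 := by norm_num
              linarith
            calc r j * (48 * r j ^ 5) ≤ r j * 1 := mul_le_mul_of_nonneg_left h13 hr0.le
              _ = r j := mul_one _)
  simp only [Fin.sum_univ_four, Matrix.cons_val_zero, Matrix.cons_val_one, Matrix.cons_val] at hrel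
  obtain ⟨M2, hM2⟩ : ∃ M2 : Set ℕ, M2 = {j | j ∈ M1 ∧ c 0 * ((b j * Y j : ℤ) : ℚ) +
    c 1 * ((x j ^ 2 : ℤ) : ℚ) + c 2 * ((b j ^ 2 * x j : ℤ) : ℚ) +
    c 3 * ((b j ^ 4 : ℤ) : ℚ) = 0} := ⟨_, rfl⟩
  rw [← hM2] at hrel
  have hM2s : M2 ⊆ M1 := by rw [hM2]; exact fun j h => h.1
  have D2 := D.mono hM2s hrel
  obtain ⟨γ1, hγ1⟩ : ∃ γ1 : ℝ, γ1 = (c 1 : ℝ) * μ ^ 2 + c 2 * μ + c 3 := ⟨_, rfl⟩
  obtain ⟨γ2, hγ2⟩ : ∃ γ2 : ℝ, γ2 = 2 * (c 1 : ℝ) * μ + c 2 := ⟨_, rfl⟩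
  have hrelR : ∀ j ∈ M2, (c 0 : ℝ) * (b j * Y j) + (γ1 * (b j : ℝ) ^ 4 +
      γ2 * ((b j : ℝ) ^ 2 * a j) + (c 1 : ℝ) * a j ^ 2) = 0 := by
    intro j hjM
    rw [hM2] at hjM
    have h2 : (c 0 : ℝ) * ((b j : ℝ) * Y j) + c 1 * (x j : ℝ) ^ 2 + c 2 * ((b j : ℝ) ^ 2 * x j) +
        c 3 * (b j : ℝ) ^ 4 = 0 := by
      have h3 := hjM.2
      exact_mod_cast h3
    rw [hγ1, hγ2, ha]
    linear_combination h2
  have q1 : ∀ j ∈ M2, 1 ≤ q j := fun j h => (D2.hq j h).2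
  have qj : ∀ j ∈ M2, (j : ℝ) ≤ q j ^ 4 := D2.hj
  have cW : ∀ j ∈ M2, 1 / (2 * μ) * q j ^ 4 ≤ (b j : ℝ) ^ 2 := by
    intro j h
    obtain ⟨k1, k2⟩ := hK j (hM2s h)
    have h1 := (D2.bd hμ h k1 k2).1
    rw [div_mul_eq_mul_div, one_mul, div_le_iff₀ (by positivity)]
    linarith
  have aq : ∀ j ∈ M2, |a j| ≤ q j := by
    intro j h
    obtain ⟨k1, k2⟩ := hK j (hM2s h)
    rw [ha]
    exact (D2.bd hμ h k1 k2).2.2.2.2
  have hμc : (0 : ℝ) < 1 / (2 * μ) := by positivity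
  have hc0 : c 0 ≠ 0 := by
    intro hc0
    have hr0 : ∀ j ∈ M2, γ1 * (b j : ℝ) ^ 4 + γ2 * ((b j : ℝ) ^ 2 * a j) + (c 1 : ℝ) * a j ^ 2 = 0 := by
      intro j h
      have := hrelR j h
      rw [hc0] at this
      push_cast at this
      linarith
    have g1 := first_zero hrel q (fun j => (b j : ℝ)) a (fun _ => 0) (1 / (2 * μ)) 0 γ1 γ2 (c 1 : ℝ)
      hμc le_rfl q1 qj cW aq (fun j _ => by simp) hr0
    obtain ⟨g2, g3⟩ := lin_zero hrel q (fun j => (b j : ℝ)) a (1 / (2 * μ)) γ2 (c 1 : ℝ)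
      hμc q1 qj cW aq (fun j h => ha0 j (hM2s h)) (fun j h => by
        have h1 := hr0 j h
        rw [g1] at h1
        have h2 : a j * (γ2 * (b j : ℝ) ^ 2 + (c 1 : ℝ) * a j) = 0 := by linarith
        exact (mul_eq_zero.mp h2).resolve_left (ha0 j (hM2s h)))
    rw [hγ2, g3, mul_zero, zero_mul, zero_add] at g2
    rw [hγ1, g3, g2, zero_mul, zero_mul, zero_add, zero_add] at g1
    apply hc
    funext i
    fin_cases i
    · exact hc0
    · exact_mod_cast g3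
    · exact_mod_cast g2
    · exact_mod_cast g1
  have hc0R : (c 0 : ℝ) ≠ 0 := by exact_mod_cast hc0
  obtain ⟨δ1, hδ1⟩ : ∃ δ1 : ℝ, δ1 = -γ1 / c 0 - s ^ 3 := ⟨_, rfl⟩
  obtain ⟨δ2, hδ2⟩ : ∃ δ2 : ℝ, δ2 = -γ2 / c 0 - 3 / 2 * s := ⟨_, rfl⟩
  obtain ⟨δ3, hδ3⟩ : ∃ δ3 : ℝ, δ3 = -(c 1 : ℝ) / c 0 - 3 / 8 * s⁻¹ := ⟨_, rfl⟩
  have hrelE : ∀ j ∈ M2, δ1 * (b j : ℝ) ^ 4 + δ2 * ((b j : ℝ) ^ 2 * a j) + δ3 * a j ^ 2 = E j := by
    intro j h
    have h1 := hrelR j h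
    have h2 : (b j : ℝ) * Y j = -γ1 / c 0 * (b j : ℝ) ^ 4 +
        -γ2 / c 0 * ((b j : ℝ) ^ 2 * a j) + -(c 1 : ℝ) / c 0 * a j ^ 2 := by
      field_simp
      linarith
    rw [hE, h2, hδ1, hδ2, hδ3]
    ring
  have hEq : ∀ j ∈ M2, |E j| * q j ≤ 96 / s := by
    intro j h
    obtain ⟨hr0, hr1, -, -⟩ := D2.hr j h
    have h1 := hE1 j (hM2s h)
    have h2 := (hpt j (hM2s h)).1
    have hq1 := q1 j h
    have hbR : (0 : ℝ) < b j := by exact_mod_cast (D2.hb j h).1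
    rw [le_div_iff₀ hs0]
    have h3 : (|E j| * q j * s) * q j ^ 2 ≤ 96 * q j ^ 2 := by
      calc (|E j| * q j * s) * q j ^ 2 = s * (|E j| * q j ^ 3) := by ring
        _ ≤ s * (b j * (48 * r j ^ 3)) := mul_le_mul_of_nonneg_left h1 hs0.le
        _ = (s * b j) * (48 * r j ^ 3) := by ring
        _ ≤ (2 * q j ^ 2) * (48 * 1) := by
            have h4 : r j ^ 3 ≤ 1 := pow_le_one₀ hr0.le (by linarith)
            apply mul_le_mul h2 _ (by positivity) (by positivity)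
            linarith
        _ = 96 * q j ^ 2 := by ring
    exact le_of_mul_le_mul_right h3 (by positivity)
  have hC96 : 0 ≤ 96 / s := by positivity
  have g1 : δ1 = 0 := first_zero hrel q (fun j => (b j : ℝ)) a E (1 / (2 * μ)) (96 / s) δ1 δ2 δ3
    hμc hC96 q1 qj cW aq hEq hrelE
  have hE23 : ∀ j ∈ M2, δ2 * ((b j : ℝ) ^ 2 * a j) + δ3 * a j ^ 2 = E j := by
    intro j h
    have := hrelE j h
    rw [g1] at this
    linarith
  have g2 : δ2 = 0 := by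
    by_contra hne2
    have hd2 : 0 < |δ2| := abs_pos.mpr hne2
    -- restrict to large `q`
    obtain ⟨L, hL⟩ : ∃ L : ℝ, L = |δ3| * (4 * μ) / |δ2| := ⟨_, rfl⟩
    have hMi := inf_q hrel q q1 qj L
    refine smallA hSUBTQ hS (D2.mono (fun j h => h.1) hMi) hμ halg
      (fun j h => h0 j (hM1s (hM2s h.1))) ((96 / s * (4 * μ) / |δ2|) ^ 2) ?_
    intro j hj
    obtain ⟨hjM, hjL⟩ := hj
    have hq1 := q1 j hjM
    have hw := cW j hjM
    have haj := aq j hjM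
    have hEj := hEq j hjM
    have hrj := hE23 j hjM
    rw [← ha]
    have hb2 : (0 : ℝ) < (b j : ℝ) ^ 2 := lt_of_lt_of_le (by positivity) hw
    -- `|δ3| |a| ≤ |δ2| w ^ 2 / 2`
    have h1 : |δ3| * |a j| ≤ |δ2| * (b j : ℝ) ^ 2 / 2 := by
      have h2 : |δ3| * (4 * μ) ≤ |δ2| * q j := by
        rw [hL, div_le_iff₀ hd2] at hjL
        linarith
      have h3 : |δ3| * |a j| * (4 * μ) ≤ (|δ2| * (b j : ℝ) ^ 2 / 2) * (4 * μ) := by
        have h4 : q j ^ 2 ≤ q j ^ 4 := pow_le_pow_right₀ hq1 (by norm_num)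
        have h5 : q j ^ 4 ≤ 2 * μ * (b j : ℝ) ^ 2 := by
          rw [div_mul_eq_mul_div, one_mul, div_le_iff₀ (by positivity)] at hw
          linarith
        calc |δ3| * |a j| * (4 * μ) = (|δ3| * (4 * μ)) * |a j| := by ring
          _ ≤ (|δ2| * q j) * q j := mul_le_mul h2 haj (abs_nonneg _) (by positivity)
          _ = |δ2| * q j ^ 2 := by ring
          _ ≤ |δ2| * q j ^ 4 := mul_le_mul_of_nonneg_left h4 hd2.le
          _ ≤ |δ2| * (2 * μ * (b j : ℝ) ^ 2) := mul_le_mul_of_nonneg_left h5 hd2.le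
          _ = (|δ2| * (b j : ℝ) ^ 2 / 2) * (4 * μ) := by ring
      exact le_of_mul_le_mul_right h3 (by positivity)
    have h6 : |δ2| * (b j : ℝ) ^ 2 * |a j| ≤ |δ3| * |a j| * |a j| + |E j| := by
      have h7 : δ2 * ((b j : ℝ) ^ 2 * a j) = E j - δ3 * a j ^ 2 := by linarith
      have h8 : |δ2 * ((b j : ℝ) ^ 2 * a j)| ≤ |E j| + |δ3 * a j ^ 2| := by
        rw [h7]; exact abs_sub _ _
      rw [abs_mul, abs_mul, abs_mul, abs_of_nonneg hb2.le, abs_pow] at h8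
      nlinarith
    have h9 : |δ2| * (b j : ℝ) ^ 2 * |a j| / 2 ≤ |E j| := by
      have h10 : |δ3| * |a j| * |a j| ≤ |δ2| * (b j : ℝ) ^ 2 / 2 * |a j| :=
        mul_le_mul_of_nonneg_right h1 (abs_nonneg _)
      linarith
    -- `|a| q ≤ 96 / s * 4 μ / |δ2|`
    have h11 : |a j| * q j ≤ 96 / s * (4 * μ) / |δ2| := by
      rw [le_div_iff₀ hd2]
      have h12 : (|δ2| * (b j : ℝ) ^ 2 * |a j| / 2) * q j ≤ 96 / s :=
        (mul_le_mul_of_nonneg_right h9 (by linarith)).trans hEj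
      have h13 : 1 ≤ 2 * μ * (b j : ℝ) ^ 2 := by
        rw [div_mul_eq_mul_div, one_mul, div_le_iff₀ (by positivity)] at hw
        have : (1 : ℝ) ≤ q j ^ 4 := one_le_pow₀ hq1
        linarith
      have h14 : 0 ≤ |a j| * q j * |δ2| := by positivity
      calc |a j| * q j * |δ2| = (|a j| * q j * |δ2|) * 1 := (mul_one _).symm
        _ ≤ (|a j| * q j * |δ2|) * (2 * μ * (b j : ℝ) ^ 2) := mul_le_mul_of_nonneg_left h13 h14
        _ = ((|δ2| * (b j : ℝ) ^ 2 * |a j| / 2) * q j) * (4 * μ) := by ring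
        _ ≤ 96 / s * (4 * μ) := mul_le_mul_of_nonneg_right h12 (by positivity)
    have h15 : (|a j| * q j) ^ 2 ≤ (96 / s * (4 * μ) / |δ2|) ^ 2 :=
      pow_le_pow_left₀ (by positivity) h11 2
    refine le_trans ?_ h15
    rw [mul_pow, sq_abs]
    apply mul_le_mul_of_nonneg_left _ (sq_nonneg _)
    exact le_self_pow₀ hq1 (by norm_num)
  have hE3 : ∀ j ∈ M2, δ3 * a j ^ 2 = E j := by
    intro j h
    have := hE23 j h
    rw [g2] at this
    linarith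
  have g3 : δ3 = 0 := by
    by_contra hne3
    have hd3 : 0 < |δ3| := abs_pos.mpr hne3
    refine smallA hSUBTQ hS D2 hμ halg (fun j h => h0 j (hM1s (hM2s h))) (96 / s / |δ3|) ?_
    intro j hjM
    have h1 := hEq j hjM
    rw [← hE3 j hjM, abs_mul, abs_of_nonneg (sq_nonneg (a j))] at h1
    rw [← ha, le_div_iff₀ hd3]
    linarith
  -- `s` is rational
  have hc1 : (c 1 : ℝ) ≠ 0 := by
    intro h
    rw [hδ3, h, neg_zero, zero_div] at g3
    have : 0 < 3 / 8 * s⁻¹ := by positivity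
    linarith
  obtain ⟨θ, hθ⟩ : ∃ θ : ℚ, θ = -3 * c 0 / (8 * c 1) := ⟨_, rfl⟩
  have hsθ : s = (θ : ℝ) := by
    rw [hθ]
    push_cast
    rw [hδ3] at g3
    have h1 : -(c 1 : ℝ) / c 0 = 3 / 8 * s⁻¹ := by linarith
    field_simp at h1 ⊢
    linarith
  have hθ0 : 0 < θ := by
    have : (0 : ℝ) < θ := by rw [← hsθ]; exact hs0
    exact_mod_cast this
  obtain ⟨h, hh⟩ : ∃ h : ℤ, h = θ.num := ⟨_, rfl⟩
  obtain ⟨k, hk⟩ : ∃ k : ℤ, k = (θ.den : ℤ) := ⟨_, rfl⟩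
  have hk0 : 0 < k := by rw [hk]; exact_mod_cast θ.den_pos
  have hkR : (0 : ℝ) < k := by exact_mod_cast hk0
  have hk1 : (1 : ℝ) ≤ k := by exact_mod_cast hk0
  have hshk : s = (h : ℝ) / k := by
    rw [hsθ, hh, hk]
    have := Rat.num_div_den θ
    conv_lhs => rw [← this]
    push_cast
    rfl
  -- a large index with small `r`
  obtain ⟨ρ, hρ⟩ : ∃ ρ : ℝ, ρ = 1 / (18 * μ * (k : ℝ) ^ 8) := ⟨_, rfl⟩
  have hρ0 : 0 < ρ := by rw [hρ]; positivity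
  obtain ⟨j, hjM, hjr⟩ : ∃ j ∈ M2, r j < min ρ 1 := by
    have h1 : ∀ᶠ t : ℝ in Filter.atTop, t ^ (-κ) < min ρ 1 :=
      (tendsto_rpow_neg_atTop hκ).eventually (gt_mem_nhds (lt_min hρ0 one_pos))
    obtain ⟨T, hT⟩ := Filter.eventually_atTop.mp h1
    obtain ⟨j, hj1, hj2⟩ := (inf_q hrel q q1 qj T).nonempty
    refine ⟨j, hj1, ?_⟩
    rw [← (D2.hr j hj1).2.2.2]
    exact hT _ hj2
  have hj1 := hM2s hjM
  obtain ⟨hr0, hr1, -, -⟩ := D2.hr j hjM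
  obtain ⟨hx, hq1⟩ := D2.hq j hjM
  have hbR : (0 : ℝ) < b j := by exact_mod_cast (D2.hb j hjM).1
  have hE0 : E j = 0 := by rw [← hE3 j hjM, g3, zero_mul]
  obtain ⟨a', ha'⟩ : ∃ a' : ℤ, a' = k ^ 2 * x j - h ^ 2 * b j ^ 2 := ⟨_, rfl⟩
  have haa : (a' : ℝ) = (k : ℝ) ^ 2 * a j := by
    rw [ha', ha, ← hs2, hshk]
    push_cast
    field_simp
  have ha'0 : a' ≠ 0 := by
    intro h1
    rw [h1] at haa
    push_cast at haa
    have h2 : (k : ℝ) ^ 2 * a j = 0 := haa.symm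
    rcases mul_eq_zero.mp h2 with h3 | h3
    · have : (k : ℝ) ^ 2 ≠ 0 := by positivity
      exact this h3
    · exact ha0 j hj1 h3
  have h1 : (b j : ℝ) * Y j =
      s ^ 3 * (b j : ℝ) ^ 4 + 3 / 2 * s * ((b j : ℝ) ^ 2 * a j) + 3 / 8 * s⁻¹ * a j ^ 2 := by
    have h2 := hE j
    rw [hE0] at h2
    linarith
  have hhR : (0 : ℝ) < h := by
    have : (0 : ℝ) < (h : ℝ) / k := by rw [← hshk]; exact hs0
    exact (div_pos_iff_of_pos_right hkR).mp this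
  have h2 : 3 * a' ^ 2 = b j * (8 * h * k ^ 3 * Y j - 8 * h ^ 4 * b j ^ 3 - 12 * h ^ 2 * b j * a') := by
    have h3 : 3 * (a' : ℝ) ^ 2 = b j * (8 * h * (k : ℝ) ^ 3 * Y j - 8 * (h : ℝ) ^ 4 * (b j : ℝ) ^ 3 -
        12 * (h : ℝ) ^ 2 * b j * a') := by
      have h4 : a j = a' / (k : ℝ) ^ 2 := by rw [haa]; field_simp
      rw [h4, hshk] at h1
      have h5 : (b j : ℝ) * Y j * (8 * h * (k : ℝ) ^ 3) = 8 * (h : ℝ) ^ 4 * (b j : ℝ) ^ 4 +
          12 * (h : ℝ) ^ 2 * ((b j : ℝ) ^ 2 * a') + 3 * (a' : ℝ) ^ 2 := by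
        rw [h1]
        field_simp
        ring
      linarith
    exact_mod_cast h3
  have h3 : b j ≤ 3 * a' ^ 2 := by
    apply Int.le_of_dvd
    · positivity
    · exact ⟨_, h2⟩
  have h4 : (b j : ℝ) ≤ 3 * (a' : ℝ) ^ 2 := by exact_mod_cast h3
  have hajq : |a j| ≤ q j * r j := by rw [ha]; exact D2.ha j hjM
  have h5 : a j ^ 2 ≤ (q j * r j) ^ 2 := by
    rw [← sq_abs]
    exact pow_le_pow_left₀ (abs_nonneg _) hajq 2
  have h6 : (b j : ℝ) ≤ 3 * (k : ℝ) ^ 4 * (q j * r j) ^ 2 := by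
    calc (b j : ℝ) ≤ 3 * (a' : ℝ) ^ 2 := h4
      _ = 3 * (k : ℝ) ^ 4 * a j ^ 2 := by rw [haa]; ring
      _ ≤ 3 * (k : ℝ) ^ 4 * (q j * r j) ^ 2 := mul_le_mul_of_nonneg_left h5 (by positivity)
  have h7 : (b j : ℝ) ^ 2 ≤ (3 * (k : ℝ) ^ 4 * (q j * r j) ^ 2) ^ 2 := pow_le_pow_left₀ hbR.le h6 2
  have h8 := cW j hjM
  have h9 : 1 / (2 * μ) * q j ^ 4 ≤ 9 * (k : ℝ) ^ 8 * r j ^ 4 * q j ^ 4 := by
    calc 1 / (2 * μ) * q j ^ 4 ≤ (b j : ℝ) ^ 2 := h8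
      _ ≤ (3 * (k : ℝ) ^ 4 * (q j * r j) ^ 2) ^ 2 := h7
      _ = 9 * (k : ℝ) ^ 8 * r j ^ 4 * q j ^ 4 := by ring
  have h10 : 1 / (2 * μ) ≤ 9 * (k : ℝ) ^ 8 * r j ^ 4 := le_of_mul_le_mul_right h9 (by positivity)
  have h11 : r j ^ 4 ≤ r j := pow_le_of_le_one hr0.le (by linarith) (by norm_num)
  have h12 : r j < ρ := lt_of_lt_of_le hjr (min_le_left _ _)
  have h13 : 9 * (k : ℝ) ^ 8 * r j ^ 4 < 1 / (2 * μ) := by
    calc 9 * (k : ℝ) ^ 8 * r j ^ 4 ≤ 9 * (k : ℝ) ^ 8 * r j :=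
          mul_le_mul_of_nonneg_left h11 (by positivity)
      _ < 9 * (k : ℝ) ^ 8 * ρ := mul_lt_mul_of_pos_left h12 (by positivity)
      _ = 1 / (2 * μ) := by rw [hρ]; field_simp; norm_num
  linarith

/-- **Row NXL.** -/
theorem NXL (hSUBTQ : ST_SUBTQ) : ST_NXL := by
  classical
  intro S lam ε η0 hS hlam hε hη0
  by_contra hne
  let τ : Type := {t : ℤ × ℤ × ℤ // SU S t.2.2 ∧
    |(t.1 : ℝ) - lam * t.2.2| ≤ |(t.1 : ℝ)| ^ (1 / 4 - η0) ∧ t.2.1 ^ 2 ≠ t.1 ^ 3}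
  obtain ⟨f, hf1, hf2⟩ := Pool.Agent.Helper72.SUB.EXTR τ (fun s => s.1.1) (fun s => s.1.2.1) ε hε
    (fun s => s.2.2.2) (by
      rintro ⟨C, hC⟩
      exact hne ⟨C, fun x y u h1 h2 h3 => hC ⟨(x, y, u), h1, h2, h3⟩⟩)
  obtain ⟨x, hx⟩ : ∃ x : ℕ → ℤ, x = fun j => (f j).1.1 := ⟨_, rfl⟩
  obtain ⟨y, hy⟩ : ∃ y : ℕ → ℤ, y = fun j => (f j).1.2.1 := ⟨_, rfl⟩
  obtain ⟨u, hu⟩ : ∃ u : ℕ → ℤ, u = fun j => (f j).1.2.2 := ⟨_, rfl⟩
  have hxj : ∀ j : ℕ, (j : ℝ) ≤ |(x j : ℝ)| := by rw [hx]; exact hf1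
  have hdj : ∀ j, |((y j ^ 2 - x j ^ 3 : ℤ) : ℝ)| ≤ |(x j : ℝ)| ^ (1 / (2 + ε)) := by
    rw [hx, hy]; exact hf2
  have huS : ∀ j, SU S (u j) := by rw [hu]; exact fun j => (f j).2.1
  have hxu : ∀ j, |(x j : ℝ) - lam * u j| ≤ |(x j : ℝ)| ^ (1 / 4 - η0) := by
    rw [hx, hu]; exact fun j => (f j).2.2.1
  have hne3 : ∀ j, y j ^ 2 ≠ x j ^ 3 := by
    rw [hx, hy]; exact fun j => (f j).2.2.2
  clear hx hy hu hf1 hf2 f
  obtain ⟨η, hη⟩ : ∃ η : ℝ, η = min η0 (1 / 12) := ⟨_, rfl⟩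
  have hη1 : 0 < η := by rw [hη]; exact lt_min hη0 (by norm_num)
  have hη2 : η ≤ η0 := by rw [hη]; exact min_le_left _ _
  have hη3 : η ≤ 1 / 12 := by rw [hη]; exact min_le_right _ _
  obtain ⟨T, hT⟩ : ∃ T : ℕ, ∀ t : ℝ, (T : ℝ) ≤ t → 2 ≤ t ∧ t ^ (-η) ≤ 1 / 4 := by
    have h1 : ∀ᶠ t : ℝ in Filter.atTop, t ^ (-η) < 1 / 4 :=
      (tendsto_rpow_neg_atTop hη1).eventually (gt_mem_nhds (by norm_num))
    obtain ⟨T0, hT0⟩ := Filter.eventually_atTop.mp (h1.and (Filter.eventually_ge_atTop (2 : ℝ)))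
    obtain ⟨T, hT⟩ := exists_nat_ge T0
    exact ⟨T, fun t ht => ⟨(hT0 t (hT.trans ht)).2, (hT0 t (hT.trans ht)).1.le⟩⟩
  have hMi : (Set.Ici T).Infinite := Set.Ici_infinite T
  -- the sign of x
  have hxpos : ∀ j ∈ Set.Ici T, (0 : ℝ) < x j ∧ (2 : ℝ) ≤ x j ∧ (x j : ℝ) ^ (-η) ≤ 1 / 4 ∧
      (j : ℝ) ≤ x j := by
    intro j hjT
    have h0 : (T : ℝ) ≤ |(x j : ℝ)| := by
      refine le_trans ?_ (hxj j)
      exact_mod_cast hjT
    obtain ⟨h1, h2⟩ := hT _ h0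
    have h3 : (0 : ℝ) < x j := by
      by_contra hc
      have hc' : (x j : ℝ) ≤ 0 := not_lt.mp hc
      rw [abs_of_nonpos hc'] at h1
      have h4 := hdj j
      push_cast at h4
      have h5 : |(x j : ℝ)| ^ (1 / (2 + ε)) ≤ |(x j : ℝ)| := by
        conv_rhs => rw [← Real.rpow_one |(x j : ℝ)|]
        apply Real.rpow_le_rpow_of_exponent_le
        · rw [abs_of_nonpos hc']; linarith
        · rw [div_le_one (by linarith)]; linarith
      have h6 := (le_abs_self _).trans (h4.trans h5)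
      rw [abs_of_nonpos hc'] at h6
      obtain ⟨t, ht⟩ : ∃ t : ℝ, t = -(x j : ℝ) := ⟨_, rfl⟩
      have hxt : (x j : ℝ) = -t := by rw [ht]; ring
      rw [hxt] at h6 h1
      have h7 : (0 : ℝ) ≤ (y j : ℝ) ^ 2 := sq_nonneg _
      have h8 : 2 ≤ t := by linarith
      nlinarith [sq_nonneg t, sq_nonneg (t - 1)]
    rw [abs_of_pos h3] at h1 h2
    refine ⟨h3, h1, h2, ?_⟩
    have := hxj j
    rwa [abs_of_pos h3] at this
  obtain ⟨q, hq⟩ : ∃ q : ℕ → ℝ, ∀ j, q j = (x j : ℝ) ^ (1 / 4 : ℝ) := ⟨_, fun _ => rfl⟩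
  obtain ⟨r, hr⟩ : ∃ r : ℕ → ℝ, ∀ j, r j = (x j : ℝ) ^ (-η) := ⟨_, fun _ => rfl⟩
  have hq4 : ∀ j ∈ Set.Ici T, (x j : ℝ) = q j ^ 4 ∧ 1 ≤ q j := by
    intro j hjT
    obtain ⟨h1, h2, h3, h4⟩ := hxpos j hjT
    constructor
    · rw [hq, ← Real.rpow_natCast, ← Real.rpow_mul h1.le]
      norm_num
    · rw [hq]
      exact Real.one_le_rpow (by linarith) (by norm_num)
  have hrr : ∀ j ∈ Set.Ici T, 0 < r j ∧ r j ≤ 1 / 4 ∧ 1 ≤ q j * r j ^ 3 ∧
      q j ^ (-(4 * η)) = r j := by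
    intro j hjT
    obtain ⟨h1, h2, h3, h4⟩ := hxpos j hjT
    refine ⟨by rw [hr]; positivity, by rw [hr]; exact h3, ?_, ?_⟩
    · rw [hq, hr, ← Real.rpow_natCast, ← Real.rpow_mul h1.le, ← Real.rpow_add h1]
      apply Real.one_le_rpow (by linarith)
      push_cast
      linarith
    · rw [hq, hr, ← Real.rpow_mul h1.le]
      congr 1
      ring
  have ha : ∀ j ∈ Set.Ici T, |(x j : ℝ) - lam * u j| ≤ q j * r j := by
    intro j hjT
    obtain ⟨h1, h2, h3, h4⟩ := hxpos j hjT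
    refine (hxu j).trans ?_
    rw [abs_of_pos h1, hq, hr, ← Real.rpow_add h1]
    apply Real.rpow_le_rpow_of_exponent_le (by linarith)
    linarith
  have hd2 : ∀ j ∈ Set.Ici T, |(((|y j|) ^ 2 - x j ^ 3 : ℤ) : ℝ)| ≤ q j ^ 2 := by
    intro j hjT
    obtain ⟨h1, h2, h3, h4⟩ := hxpos j hjT
    rw [sq_abs]
    refine (hdj j).trans ?_
    rw [abs_of_pos h1, hq, ← Real.rpow_natCast, ← Real.rpow_mul h1.le]
    apply Real.rpow_le_rpow_of_exponent_le (by linarith)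
    push_cast
    rw [div_le_iff₀ (by linarith)]
    linarith
  choose e b hbe hesq heN he0 hb0 hbS using fun j => sqf hS (u j) (huS j)
  have hlu : ∀ j ∈ Set.Ici T, 0 < lam * u j ∧ lam * u j = |lam| * e j * (b j : ℝ) ^ 2 := by
    intro j hjT
    obtain ⟨h1, h2, h3, h4⟩ := hxpos j hjT
    obtain ⟨h5, h6⟩ := hq4 j hjT
    obtain ⟨h7, h8, h9, -⟩ := hrr j hjT
    have h10 := ha j hjT
    have hqx : q j ≤ x j := by
      rw [h5]
      exact le_self_pow₀ h6 (by norm_num)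
    have h11 : q j * r j ≤ x j / 4 := by nlinarith
    have h12 := (abs_le.mp (h10.trans h11)).2
    have h13 : (0 : ℝ) < lam * u j := by linarith
    refine ⟨h13, ?_⟩
    have h14 : |(u j : ℝ)| = e j * (b j : ℝ) ^ 2 := by
      have h15 := hbe j
      have h16 : (((u j).natAbs : ℕ) : ℝ) = |(u j : ℝ)| := by
        rw [Nat.cast_natAbs, Int.cast_abs]
      rw [← h16, ← h15]
      push_cast
      ring
    rw [← abs_of_pos h13, abs_mul, h14]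
    ring
  have hlam0 : 0 < |lam| := by
    apply abs_pos.mpr
    intro h
    have h1 := (hlu T (Set.mem_Ici.mpr le_rfl)).1
    rw [h, zero_mul] at h1
    exact lt_irrefl _ h1
  have hlamA : IsAlgebraic ℚ |lam| := by
    rcases abs_choice lam with h | h
    · rw [h]; exact hlam
    · rw [h]; exact hlam.neg
  -- constant squarefree part
  obtain ⟨e0, he0i⟩ := Pool.Agent.Helper94.SUB.pig hMi
    (fun j => (⟨e j, Nat.lt_succ_of_le (heN j)⟩ : Fin ((∏ p ∈ S, p) + 1)))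
  have hsub0 : ∀ j, j ∈ {j | j ∈ Set.Ici T ∧
      (⟨e j, Nat.lt_succ_of_le (heN j)⟩ : Fin ((∏ p ∈ S, p) + 1)) = e0} → j ∈ Set.Ici T ∧
      e j = (e0 : ℕ) := by
    intro j hjM
    refine ⟨hjM.1, ?_⟩
    have h1 : (⟨e j, Nat.lt_succ_of_le (heN j)⟩ : Fin ((∏ p ∈ S, p) + 1)) = e0 := hjM.2
    rw [← h1]
  obtain ⟨M1, hM1⟩ : ∃ M1 : Set ℕ, M1 = {j | j ∈ Set.Ici T ∧
      (⟨e j, Nat.lt_succ_of_le (heN j)⟩ : Fin ((∏ p ∈ S, p) + 1)) = e0} := ⟨_, rfl⟩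
  rw [← hM1] at he0i
  simp only [← hM1] at hsub0
  obtain ⟨μ, hμ⟩ : ∃ μ : ℝ, μ = |lam| * (e0 : ℕ) := ⟨_, rfl⟩
  obtain ⟨j0, hj0⟩ := he0i.nonempty
  have hE0 : 0 < (e0 : ℕ) := by
    rw [← (hsub0 j0 hj0).2]
    exact he0 j0
  have hμ0 : 0 < μ := by
    rw [hμ]
    have : (0 : ℝ) < ((e0 : ℕ) : ℝ) := by exact_mod_cast hE0
    positivity
  have hμA : IsAlgebraic ℚ μ := by
    rw [hμ]
    exact hlamA.mul (isAlgebraic_natCast _)
  have D : DatX S x (fun j => (b j : ℤ)) (fun j => |y j|) q r μ (4 * η) M1 := by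
    refine ⟨he0i, fun j h => hq4 j (hsub0 j h).1, fun j h => ?_,
      fun j _ => ⟨by exact_mod_cast hb0 j, hbS j⟩, fun j _ => abs_nonneg _, fun j _ => ?_,
      fun j h => hd2 j (hsub0 j h).1, fun j h => hrr j (hsub0 j h).1, fun j h => ?_⟩
    · rw [← (hq4 j (hsub0 j h).1).1]
      exact (hxpos j (hsub0 j h).1).2.2.2
    · simp only [sq_abs]
      exact hne3 j
    · have h1 := ha j (hsub0 j h).1
      rw [(hlu j (hsub0 j h).1).2, (hsub0 j h).2] at h1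
      rw [hμ]
      push_cast
      exact h1
  obtain ⟨c0, hc0i⟩ := Pool.Agent.Helper94.SUB.pig he0i
    (fun j => decide ((x j : ℝ) - μ * ((b j : ℤ) : ℝ) ^ 2 = 0))
  have D' := D.mono (M' := {j | j ∈ M1 ∧
    decide ((x j : ℝ) - μ * ((b j : ℤ) : ℝ) ^ 2 = 0) = c0}) (fun j h => h.1) hc0i
  cases c0 with
  | true =>
    refine caseA2 hSUBTQ hS D' hμ0 hμA fun j h => ?_
    have h1 := of_decide_eq_true h.2
    linarith
  | false =>
    exact caseB2 hSUBTQ hS D' hμ0 (by positivity) hμA fun j h => of_decide_eq_false h.2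

end Pool.Agent.Helper94.SUBK
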