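import Pool.Agent.Helper77.SUBK.SheetG
import Pool.Agent.Helper94.SUBK.NXL

/-!
Project SUBK, sheet G, row NXR.
-/

set_option autoImplicit false

namespace Pool.Agent.Helper94.SUBK

open Finset Matrix Pool.Agent.Helper70.SUB Pool.Agent.Helper77.SUBK

/-- the data on an infinite set of indices, `w = m / n` -/
structure DatR (S : Finset ℕ) (x m n Y : ℕ → ℤ) (w q r : ℕ → ℝ) (μ κ B : ℝ) (M : Set ℕ) :
    Prop where
  inf : M.Infinite
  hq : ∀ j ∈ M, (x j : ℝ) = q j ^ 4 ∧ 1 ≤ q j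
  hj : ∀ j ∈ M, (j : ℝ) ≤ q j ^ 4
  hm : ∀ j ∈ M, 0 < m j ∧ SU S (m j)
  hn : ∀ j ∈ M, 0 < n j ∧ SU S (n j)
  hc : ∀ j ∈ M, IsCoprime (m j) (n j)
  hw : ∀ j ∈ M, w j * n j = m j
  hB : 0 ≤ B ∧ ∀ j ∈ M, (n j : ℝ) ≤ q j ^ B
  hY : ∀ j ∈ M, 0 ≤ Y j
  hne : ∀ j ∈ M, Y j ^ 2 ≠ x j ^ 3
  hd : ∀ j ∈ M, |((Y j ^ 2 - x j ^ 3 : ℤ) : ℝ)| ≤ q j ^ 2
  hr : ∀ j ∈ M, 0 < r j ∧ r j ≤ 1 / 4 ∧ 1 ≤ q j * r j ^ 3 ∧ q j ^ (-κ) = r j
  ha : ∀ j ∈ M, |(x j : ℝ) - μ * w j ^ 2| ≤ q j * r j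

theorem DatR.mono {S : Finset ℕ} {x m n Y : ℕ → ℤ} {w q r : ℕ → ℝ} {μ κ B : ℝ} {M M' : Set ℕ}
    (D : DatR S x m n Y w q r μ κ B M) (h : M' ⊆ M) (hi : M'.Infinite) :
    DatR S x m n Y w q r μ κ B M' :=
  ⟨hi, fun j hj => D.hq j (h hj), fun j hj => D.hj j (h hj), fun j hj => D.hm j (h hj),
    fun j hj => D.hn j (h hj), fun j hj => D.hc j (h hj), fun j hj => D.hw j (h hj),
    ⟨D.hB.1, fun j hj => D.hB.2 j (h hj)⟩,
    fun j hj => D.hY j (h hj), fun j hj => D.hne j (h hj), fun j hj => D.hd j (h hj),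
    fun j hj => D.hr j (h hj), fun j hj => D.ha j (h hj)⟩

theorem DatR.w0 {S : Finset ℕ} {x m n Y : ℕ → ℤ} {w q r : ℕ → ℝ} {μ κ B : ℝ} {M : Set ℕ}
    (D : DatR S x m n Y w q r μ κ B M) {j : ℕ} (hjM : j ∈ M) : 0 < w j := by
  have hmR : (0 : ℝ) < m j := by exact_mod_cast (D.hm j hjM).1
  have hnR : (0 : ℝ) < n j := by exact_mod_cast (D.hn j hjM).1
  have h := D.hw j hjM
  rw [← h] at hmR
  exact (mul_pos_iff_of_pos_right hnR).mp hmR

/-- basic bounds -/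
theorem DatR.bd {S : Finset ℕ} {x m n Y : ℕ → ℤ} {w q r : ℕ → ℝ} {μ κ B : ℝ} {M : Set ℕ}
    (D : DatR S x m n Y w q r μ κ B M) (hμ : 0 < μ) {j : ℕ} (hjM : j ∈ M) (hK1 : 2 ≤ q j)
    (hK2 : 2 / μ ≤ q j) : q j ^ 4 / 2 ≤ μ * w j ^ 2 ∧ μ * w j ^ 2 ≤ 2 * q j ^ 4 ∧
      w j ≤ q j ^ 3 ∧ (Y j : ℝ) ≤ q j ^ 7 ∧ |(x j : ℝ) - μ * w j ^ 2| ≤ q j := by
  obtain ⟨hx, hq1⟩ := D.hq j hjM
  obtain ⟨hr0, hr1, -, -⟩ := D.hr j hjM
  have ha := D.ha j hjM
  have hbR : 0 < w j := D.w0 hjM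
  have hYR : (0 : ℝ) ≤ Y j := by exact_mod_cast D.hY j hjM
  have ha1 : |(x j : ℝ) - μ * w j ^ 2| ≤ q j / 4 := by
    refine ha.trans ?_
    nlinarith
  obtain ⟨ha2, ha3⟩ := abs_le.mp ha1
  have hq4 : q j ≤ q j ^ 4 := le_self_pow₀ hq1 (by norm_num)
  rw [hx] at ha2 ha3
  have h1 : q j ^ 4 / 2 ≤ μ * w j ^ 2 := by linarith
  have h2 : μ * w j ^ 2 ≤ 2 * q j ^ 4 := by linarith
  refine ⟨h1, h2, ?_, ?_, by linarith⟩
  · have h3 : w j ^ 2 ≤ (q j ^ 3) ^ 2 := by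
      have h4 : 2 ≤ q j * μ := by
        rw [div_le_iff₀ hμ] at hK2
        exact hK2
      have h5 : μ * w j ^ 2 ≤ μ * q j ^ 5 := by
        calc μ * w j ^ 2 ≤ 2 * q j ^ 4 := h2
          _ ≤ (q j * μ) * q j ^ 4 := mul_le_mul_of_nonneg_right h4 (by positivity)
          _ = μ * q j ^ 5 := by ring
      have h6 : w j ^ 2 ≤ q j ^ 5 := le_of_mul_le_mul_left h5 hμ
      have h7 : q j ^ 5 ≤ q j ^ 6 := pow_le_pow_right₀ hq1 (by norm_num)
      calc w j ^ 2 ≤ q j ^ 5 := h6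
        _ ≤ q j ^ 6 := h7
        _ = (q j ^ 3) ^ 2 := by ring
    exact (pow_le_pow_iff_left₀ hbR.le (by positivity) (by norm_num)).mp h3
  · have hd := D.hd j hjM
    push_cast at hd
    rw [hx] at hd
    have h3 := (abs_le.mp hd).2
    have h4 : (Y j : ℝ) ^ 2 ≤ (q j ^ 7) ^ 2 := by
      have h5 : q j ^ 2 ≤ q j ^ 12 := pow_le_pow_right₀ hq1 (by norm_num)
      have h6 : (q j ^ 7) ^ 2 = q j ^ 2 * q j ^ 12 := by ring
      have h7 : (4 : ℝ) ≤ q j ^ 2 := by nlinarith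
      have h8 : 4 * q j ^ 12 ≤ q j ^ 2 * q j ^ 12 := mul_le_mul_of_nonneg_right h7 (by positivity)
      have h9 : (q j ^ 4) ^ 3 = q j ^ 12 := by ring
      have h10 : 0 < q j ^ 12 := by positivity
      rw [h9] at h3
      linarith
    exact (pow_le_pow_iff_left₀ hYR (by positivity) (by norm_num)).mp h4

/-- `n ^ k t` is bounded by a power of `q` if `t` is -/
theorem DatR.size {S : Finset ℕ} {x m n Y : ℕ → ℤ} {w q r : ℕ → ℝ} {μ κ B : ℝ} {M : Set ℕ}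
    (D : DatR S x m n Y w q r μ κ B M) {j : ℕ} (hjM : j ∈ M) {k l : ℕ} (hk : k ≤ 4) (hl : l ≤ 12)
    {t : ℝ} (ht0 : 0 ≤ t) (ht : t ≤ q j ^ l) : |(n j : ℝ) ^ k * t| ≤ q j ^ (4 * B + 12) := by
  obtain ⟨hx, hq1⟩ := D.hq j hjM
  have hnR : (0 : ℝ) < n j := by exact_mod_cast (D.hn j hjM).1
  have hq0 : 0 < q j := by linarith
  have hB := D.hB.2 j hjM
  rw [abs_of_nonneg (by positivity)]
  have h1 : (n j : ℝ) ^ k ≤ q j ^ (4 * B) := by
    calc (n j : ℝ) ^ k ≤ (q j ^ B) ^ k := pow_le_pow_left₀ hnR.le hB k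
      _ = q j ^ (B * k) := by rw [← Real.rpow_natCast (q j ^ B), ← Real.rpow_mul hq0.le]
      _ ≤ q j ^ (4 * B) := by
          apply Real.rpow_le_rpow_of_exponent_le hq1
          have : (k : ℝ) ≤ 4 := by exact_mod_cast hk
          nlinarith [D.hB.1]
  have h2 : t ≤ q j ^ (12 : ℝ) := by
    refine ht.trans ?_
    have : q j ^ (12 : ℝ) = q j ^ 12 := by exact_mod_cast Real.rpow_natCast (q j) 12
    rw [this]
    exact pow_le_pow_right₀ hq1 hl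
  rw [Real.rpow_add hq0]
  exact mul_le_mul h1 h2 ht0 (by positivity)

/-- the point is a multiple of an `S`-unit -/
theorem caseA3 (hSUBTQ : ST_SUBTQ) {S : Finset ℕ} (hS : ∀ p ∈ S, p.Prime) {x m n Y : ℕ → ℤ}
    {w q r : ℕ → ℝ} {μ κ B : ℝ} {M : Set ℕ} (D0 : DatR S x m n Y w q r μ κ B M) (hμ : 0 < μ)
    (halg : IsAlgebraic ℚ μ) (h0 : ∀ j ∈ M, (x j : ℝ) = μ * w j ^ 2) : False := by
  obtain ⟨s, hs⟩ : ∃ s : ℝ, s = √μ := ⟨_, rfl⟩
  have hs0 : 0 < s := by rw [hs]; positivity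
  have hs2 : s ^ 2 = μ := by rw [hs, Real.sq_sqrt hμ.le]
  have hsalg : IsAlgebraic ℚ s := by
    refine IsAlgebraic.of_pow (n := 2) (by norm_num) ?_
    rw [hs2]
    exact halg
  obtain ⟨M1, hM1⟩ : ∃ M1 : Set ℕ, M1 = {j | j ∈ M ∧ max 2 (2 / μ) ≤ q j} := ⟨_, rfl⟩
  have hM1i : M1.Infinite := by
    rw [hM1]
    exact inf_q D0.inf q (fun j h => (D0.hq j h).2) D0.hj _
  have hM1s : M1 ⊆ M := by rw [hM1]; exact fun j h => h.1
  have D := D0.mono hM1s hM1i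
  have hK : ∀ j ∈ M1, 2 ≤ q j ∧ 2 / μ ≤ q j := by
    intro j hjM
    rw [hM1] at hjM
    exact ⟨(le_max_left _ _).trans hjM.2, (le_max_right _ _).trans hjM.2⟩
  have hpt : ∀ j ∈ M1, |(Y j : ℝ) - s ^ 3 * w j ^ 3| * q j ^ 4 ≤ 1 := by
    intro j hjM
    obtain ⟨hx, hq1⟩ := D.hq j hjM
    have hbR : 0 < w j := D.w0 hjM
    have hYR : (0 : ℝ) ≤ Y j := by exact_mod_cast D.hY j hjM
    have hxbR : (x j : ℝ) = (s * w j) ^ 2 := by
      rw [mul_pow, hs2]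
      exact h0 j (hM1s hjM)
    obtain ⟨p, hp⟩ : ∃ p : ℝ, p = s * w j := ⟨_, rfl⟩
    rw [← hp] at hxbR
    have hp0 : 0 < p := by rw [hp]; positivity
    have hpq : p = q j ^ 2 := by
      have h1 : p ^ 2 = (q j ^ 2) ^ 2 := by rw [← hxbR, hx]; ring
      exact (pow_left_inj₀ hp0.le (by positivity) (by norm_num)).mp h1
    have hdj := D.hd j hjM
    rw [← hpq] at hdj
    push_cast at hdj
    have h1 : (Y j : ℝ) ^ 2 - (x j : ℝ) ^ 3 = (Y j - p ^ 3) * (Y j + p ^ 3) := by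
      rw [hxbR]; ring
    rw [h1, abs_mul, abs_of_pos (show 0 < (Y j : ℝ) + p ^ 3 by positivity)] at hdj
    have h2 : |(Y j : ℝ) - p ^ 3| * p ^ 3 ≤ p := by
      refine le_trans ?_ hdj
      apply mul_le_mul_of_nonneg_left (by linarith) (abs_nonneg _)
    have h3 : s ^ 3 * w j ^ 3 = p ^ 3 := by rw [hp]; ring
    have h5 : q j ^ 4 = p ^ 2 := by rw [hpq]; ring
    rw [h3, h5]
    have h4 : (|(Y j : ℝ) - p ^ 3| * p ^ 2) * p ≤ 1 * p := by
      calc (|(Y j : ℝ) - p ^ 3| * p ^ 2) * p = |(Y j : ℝ) - p ^ 3| * p ^ 3 := by ring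
        _ ≤ p := h2
        _ = 1 * p := (one_mul p).symm
    exact le_of_mul_le_mul_right h4 hp0
  obtain ⟨c, hc, hrel⟩ := subq hSUBTQ (n := 2) (by norm_num) hS !![1, -s ^ 3; 0, 1] (by
      have a0 : IsAlgebraic ℚ (0 : ℝ) := isAlgebraic_zero
      have a1 : IsAlgebraic ℚ (1 : ℝ) := isAlgebraic_one
      intro i k
      fin_cases i <;> fin_cases k
      · exact a1
      · exact (hsalg.pow 3).neg
      · exact a0
      · exact a1) (by rw [Matrix.det_fin_two_of]; norm_num) (ε := 1) (B := 4 * B + 12) one_pos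
    (by have := D.hB.1; positivity)
    D.inf q (fun j h => (D.hq j h).2) D.hj (fun j => ![n j ^ 3 * Y j, m j ^ 3]) (by
      intro j hjM i
      obtain ⟨k1, k2⟩ := hK j hjM
      obtain ⟨-, -, h3, h4, -⟩ := D.bd hμ hjM k1 k2
      have hbR : 0 < w j := D.w0 hjM
      have hYR : (0 : ℝ) ≤ Y j := by exact_mod_cast D.hY j hjM
      fin_cases i
      · simp only [Fin.zero_eta, Matrix.cons_val_zero]
        push_cast
        exact D.size hjM (k := 3) (l := 7) (by norm_num) (by norm_num) hYR h4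
      · simp only [Fin.mk_one, Matrix.cons_val_one, Matrix.cons_val_zero]
        push_cast
        have e1 : (m j : ℝ) ^ 3 = (n j : ℝ) ^ 3 * w j ^ 3 := by rw [← D.hw j hjM]; ring
        rw [e1]
        refine D.size hjM (k := 3) (l := 9) (by norm_num) (by norm_num) (by positivity) ?_
        calc w j ^ 3 ≤ (q j ^ 3) ^ 3 := pow_le_pow_left₀ hbR.le h3 3
          _ = q j ^ 9 := by ring) (by
      intro j hjM
      obtain ⟨hx, hq1⟩ := D.hq j hjM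
      have hbR : 0 < w j := D.w0 hjM
      have hmR : (0 : ℝ) < m j := by exact_mod_cast (D.hm j hjM).1
      have hnR : (0 : ℝ) < n j := by exact_mod_cast (D.hn j hjM).1
      have h1 := hpt j hjM
      have hPm := padic_prod hS (D.hm j hjM).2
      have hPn := padic_prod hS (D.hn j hjM).2
      rw [abs_of_pos hmR] at hPm
      rw [abs_of_pos hnR] at hPn
      have h4 : ∏ p ∈ S, (av (some p) ((n j ^ 3 * Y j : ℤ) : ℚ) * av (some p) ((m j ^ 3 : ℤ) : ℚ)) ≤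
          (∏ p ∈ S, av (some p) (n j : ℚ)) ^ 3 * (∏ p ∈ S, av (some p) (m j : ℚ)) ^ 3 := by
        rw [← Finset.prod_pow, ← Finset.prod_pow, ← Finset.prod_mul_distrib]
        apply Finset.prod_le_prod
        · intro p _
          exact mul_nonneg (avs_nonneg _ _) (avs_nonneg _ _)
        · intro p hp
          have e1 : av (some p) ((n j ^ 3 * Y j : ℤ) : ℚ) ≤ av (some p) (n j : ℚ) ^ 3 := by
            push_cast
            rw [avp_mul hS hp, avp_pow hS hp _ 2]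
            calc av (some p) (n j : ℚ) ^ (2 + 1) * av (some p) (Y j : ℚ) ≤
                  av (some p) (n j : ℚ) ^ (2 + 1) * 1 :=
                  mul_le_mul_of_nonneg_left (avp_int hS hp _) (pow_nonneg (avs_nonneg _ _) _)
              _ = _ := mul_one _
          have e2 : av (some p) ((m j ^ 3 : ℤ) : ℚ) = av (some p) (m j : ℚ) ^ 3 := by
            push_cast
            exact avp_pow hS hp _ 2
          rw [e2]
          exact mul_le_mul_of_nonneg_right e1 (pow_nonneg (avs_nonneg _ _) _)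
      simp only [Fin.sum_univ_two, Fin.prod_univ_two, Matrix.of_apply, Matrix.cons_val',
        Matrix.cons_val_zero, Matrix.cons_val_one, Matrix.cons_val_fin_one]
      have hmw : (m j : ℝ) = w j * n j := (D.hw j hjM).symm
      have e1 : |1 * ((n j ^ 3 * Y j : ℤ) : ℝ) + -s ^ 3 * ((m j ^ 3 : ℤ) : ℝ)| =
          (n j : ℝ) ^ 3 * |(Y j : ℝ) - s ^ 3 * w j ^ 3| := by
        have e0 : 1 * ((n j ^ 3 * Y j : ℤ) : ℝ) + -s ^ 3 * ((m j ^ 3 : ℤ) : ℝ) =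
            (n j : ℝ) ^ 3 * ((Y j : ℝ) - s ^ 3 * w j ^ 3) := by
          push_cast
          rw [hmw]
          ring
        rw [e0, abs_mul, abs_of_pos (show (0 : ℝ) < (n j : ℝ) ^ 3 by positivity)]
      have e2 : |0 * ((n j ^ 3 * Y j : ℤ) : ℝ) + 1 * ((m j ^ 3 : ℤ) : ℝ)| = (m j : ℝ) ^ 3 := by
        push_cast
        rw [zero_mul, zero_add, one_mul, abs_of_pos (by positivity)]
      rw [e1, e2]
      have h6 : 0 ≤ (n j : ℝ) ^ 3 * |(Y j : ℝ) - s ^ 3 * w j ^ 3| * (m j : ℝ) ^ 3 := by positivity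
      refine (mul_le_mul_of_nonneg_left h4 h6).trans ?_
      have h7 : (n j : ℝ) ^ 3 * |(Y j : ℝ) - s ^ 3 * w j ^ 3| * (m j : ℝ) ^ 3 *
          ((∏ p ∈ S, av (some p) (n j : ℚ)) ^ 3 * (∏ p ∈ S, av (some p) (m j : ℚ)) ^ 3) =
          |(Y j : ℝ) - s ^ 3 * w j ^ 3| := by
        calc (n j : ℝ) ^ 3 * |(Y j : ℝ) - s ^ 3 * w j ^ 3| * (m j : ℝ) ^ 3 *
              ((∏ p ∈ S, av (some p) (n j : ℚ)) ^ 3 * (∏ p ∈ S, av (some p) (m j : ℚ)) ^ 3) =
              |(Y j : ℝ) - s ^ 3 * w j ^ 3| * ((n j : ℝ) * ∏ p ∈ S, av (some p) (n j : ℚ)) ^ 3 *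
              ((m j : ℝ) * ∏ p ∈ S, av (some p) (m j : ℚ)) ^ 3 := by ring
          _ = |(Y j : ℝ) - s ^ 3 * w j ^ 3| := by rw [hPn, hPm]; ring
      rw [h7, Real.rpow_neg (by linarith), Real.rpow_one, inv_eq_one_div, le_div_iff₀ (by linarith)]
      refine le_trans ?_ h1
      apply mul_le_mul_of_nonneg_left _ (abs_nonneg _)
      exact le_self_pow₀ hq1 (by norm_num))
  simp only [Fin.sum_univ_two, Matrix.cons_val_zero, Matrix.cons_val_one] at hrel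
  obtain ⟨M2, hM2⟩ : ∃ M2 : Set ℕ, M2 = {j | j ∈ M1 ∧ c 0 * ((n j ^ 3 * Y j : ℤ) : ℚ) +
    c 1 * ((m j ^ 3 : ℤ) : ℚ) = 0} := ⟨_, rfl⟩
  rw [← hM2] at hrel
  have hM2s : M2 ⊆ M1 := by rw [hM2]; exact fun j h => h.1
  -- the relation divided by `n ^ 3`
  have hrelw : ∀ j ∈ M2, (c 0 : ℝ) * (Y j : ℝ) + c 1 * w j ^ 3 = 0 := by
    intro j hjM
    have hjM' := hM2s hjM
    have hnR : (0 : ℝ) < n j := by exact_mod_cast (D.hn j hjM').1
    rw [hM2] at hjM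
    have h1 : (c 0 : ℝ) * ((n j : ℝ) ^ 3 * (Y j : ℝ)) + c 1 * (m j : ℝ) ^ 3 = 0 := by
      have h2 := hjM.2
      exact_mod_cast h2
    have h2 : (n j : ℝ) ^ 3 * ((c 0 : ℝ) * (Y j : ℝ) + c 1 * w j ^ 3) = 0 := by
      rw [← D.hw j hjM'] at h1
      linear_combination h1
    exact (mul_eq_zero.mp h2).resolve_left (by positivity)
  have hc0 : c 0 ≠ 0 := by
    intro hc0
    obtain ⟨j, hjM⟩ := hrel.nonempty
    have h1 := hrelw j hjM
    have hbR : 0 < w j := D.w0 (hM2s hjM)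
    rw [hc0] at h1
    push_cast at h1
    rw [zero_mul, zero_add] at h1
    rcases mul_eq_zero.mp h1 with h | h
    · apply hc
      funext i
      fin_cases i
      · exact hc0
      · exact_mod_cast h
    · exact absurd h (by positivity)
  have hc0R : (c 0 : ℝ) ≠ 0 := by exact_mod_cast hc0
  obtain ⟨β, hβ⟩ : ∃ β : ℝ, β = -(c 1 : ℝ) / c 0 := ⟨_, rfl⟩
  have hYβ : ∀ j ∈ M2, (Y j : ℝ) = β * w j ^ 3 := by
    intro j hjM
    have h2 := hrelw j hjM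
    rw [hβ]
    field_simp
    linarith
  have hβs : β - s ^ 3 = 0 := by
    refine z0 hrel q _ (2 * μ * (2 * μ)) (fun j hjM => by linarith [(D.hq j (hM2s hjM)).2])
      (fun j hjM => D.hj j (hM2s hjM)) fun j hjM => ?_
    have hjM1 := hM2s hjM
    have h1 := hpt j hjM1
    obtain ⟨hx, hq1⟩ := D.hq j hjM1
    obtain ⟨k1, k2⟩ := hK j hjM1
    have hw1 := (D.bd hμ hjM1 k1 k2).1
    have hbR : 0 < w j := D.w0 hjM1
    rw [hYβ j hjM, ← sub_mul, abs_mul, abs_of_pos (show (0 : ℝ) < w j ^ 3 by positivity)] at h1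
    -- `w ^ 3 q ^ 4` is large
    have h3 : 1 ≤ 2 * μ * w j ^ 2 := by
      have : (1 : ℝ) ≤ q j ^ 4 := one_le_pow₀ hq1
      linarith
    have h4 : q j ^ 4 ≤ (2 * μ * w j ^ 2) := by linarith
    have h5 : q j ^ 2 ≤ 2 * μ * w j ^ 3 * q j ^ 4 * (2 * μ) := by
      -- crude: `(2 μ w^2)^2 ≥ q^8`, so `w^4 ≥ q^8/(4 μ^2)`, `w^3 q^4 ≥ w^3 * w ...`
      have h6 : w j ≤ q j ^ 3 := (D.bd hμ hjM1 k1 k2).2.2.1
      have h7 : (q j ^ 4) ^ 2 ≤ (2 * μ * w j ^ 2) ^ 2 := pow_le_pow_left₀ (by positivity) h4 2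
      have h8 : (2 * μ * w j ^ 2) ^ 2 = (2 * μ * w j ^ 3) * (2 * μ) * w j := by ring
      have h9 : (2 * μ * w j ^ 3) * (2 * μ) * w j ≤ (2 * μ * w j ^ 3) * (2 * μ) * q j ^ 3 :=
        mul_le_mul_of_nonneg_left h6 (by positivity)
      have h10 : q j ^ 2 ≤ (q j ^ 4) ^ 2 := by
        rw [← pow_mul]
        exact pow_le_pow_right₀ hq1 (by norm_num)
      have h11 : q j ^ 3 ≤ q j ^ 4 := pow_le_pow_right₀ hq1 (by norm_num)
      calc q j ^ 2 ≤ (2 * μ * w j ^ 3) * (2 * μ) * q j ^ 3 := by linarith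
        _ ≤ (2 * μ * w j ^ 3) * (2 * μ) * q j ^ 4 :=
          mul_le_mul_of_nonneg_left h11 (by positivity)
        _ = 2 * μ * w j ^ 3 * q j ^ 4 * (2 * μ) := by ring
    have hq12 : q j ≤ q j ^ 2 := le_self_pow₀ hq1 (by norm_num)
    calc |β - s ^ 3| * q j ≤ |β - s ^ 3| * (2 * μ * w j ^ 3 * q j ^ 4 * (2 * μ)) :=
          mul_le_mul_of_nonneg_left (hq12.trans h5) (abs_nonneg _)
      _ = (|β - s ^ 3| * w j ^ 3 * q j ^ 4) * (2 * μ * (2 * μ)) := by ring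
      _ ≤ 1 * (2 * μ * (2 * μ)) := mul_le_mul_of_nonneg_right h1 (by positivity)
      _ = 2 * μ * (2 * μ) := one_mul _
  obtain ⟨j, hjM⟩ := hrel.nonempty
  apply D.hne j (hM2s hjM)
  have h1 : ((Y j : ℝ)) ^ 2 = (x j : ℝ) ^ 3 := by
    rw [hYβ j hjM, h0 j (hM1s (hM2s hjM)), ← hs2, show β = s ^ 3 by linarith]
    ring
  exact_mod_cast h1

/-- the distance to the multiples of `S`-units is not small -/
theorem smallR (hSUBTQ : ST_SUBTQ) {S : Finset ℕ} (hS : ∀ p ∈ S, p.Prime) {x m n Y : ℕ → ℤ}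
    {w q r : ℕ → ℝ} {μ κ B : ℝ} {M : Set ℕ} (D0 : DatR S x m n Y w q r μ κ B M) (hμ : 0 < μ)
    (halg : IsAlgebraic ℚ μ) (h0 : ∀ j ∈ M, (x j : ℝ) - μ * w j ^ 2 ≠ 0) (K : ℝ)
    (hsm : ∀ j ∈ M, ((x j : ℝ) - μ * w j ^ 2) ^ 2 * q j ≤ K) : False := by
  obtain ⟨M1, hM1⟩ : ∃ M1 : Set ℕ, M1 = {j | j ∈ M ∧ max 2 (max (2 / μ) (K ^ 2)) ≤ q j} := ⟨_, rfl⟩
  have hM1i : M1.Infinite := by
    rw [hM1]
    exact inf_q D0.inf q (fun j h => (D0.hq j h).2) D0.hj _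
  have hM1s : M1 ⊆ M := by rw [hM1]; exact fun j h => h.1
  have D := D0.mono hM1s hM1i
  have hK : ∀ j ∈ M1, 2 ≤ q j ∧ 2 / μ ≤ q j ∧ K ^ 2 ≤ q j := by
    intro j hjM
    rw [hM1] at hjM
    exact ⟨(le_max_left _ _).trans hjM.2, ((le_max_left _ _).trans (le_max_right _ _)).trans hjM.2,
      ((le_max_right _ _).trans (le_max_right _ _)).trans hjM.2⟩
  obtain ⟨c, hc, hrel⟩ := subq hSUBTQ (n := 2) (by norm_num) hS !![1, -μ; 0, 1] (by
      have a0 : IsAlgebraic ℚ (0 : ℝ) := isAlgebraic_zero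
      have a1 : IsAlgebraic ℚ (1 : ℝ) := isAlgebraic_one
      intro i k
      fin_cases i <;> fin_cases k
      · exact a1
      · exact halg.neg
      · exact a0
      · exact a1) (by rw [Matrix.det_fin_two_of]; norm_num) (ε := 1 / 4) (B := 4 * B + 12)
    (by norm_num) (by have := D.hB.1; positivity)
    D.inf q (fun j h => (D.hq j h).2) D.hj (fun j => ![n j ^ 2 * x j, m j ^ 2]) (by
      intro j hjM i
      obtain ⟨hx, hq1⟩ := D.hq j hjM
      obtain ⟨k1, k2, -⟩ := hK j hjM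
      obtain ⟨-, -, h3, h4, -⟩ := D.bd hμ hjM k1 k2
      have hbR : 0 < w j := D.w0 hjM
      fin_cases i
      · simp only [Fin.zero_eta, Matrix.cons_val_zero]
        push_cast
        refine D.size hjM (k := 2) (l := 4) (by norm_num) (by norm_num) ?_ hx.le
        rw [hx]
        positivity
      · simp only [Fin.mk_one, Matrix.cons_val_one, Matrix.cons_val_zero]
        push_cast
        have e1 : (m j : ℝ) ^ 2 = (n j : ℝ) ^ 2 * w j ^ 2 := by rw [← D.hw j hjM]; ring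
        rw [e1]
        refine D.size hjM (k := 2) (l := 6) (by norm_num) (by norm_num) (by positivity) ?_
        calc w j ^ 2 ≤ (q j ^ 3) ^ 2 := pow_le_pow_left₀ hbR.le h3 2
          _ = q j ^ 6 := by ring) (by
      intro j hjM
      obtain ⟨hx, hq1⟩ := D.hq j hjM
      obtain ⟨k1, k2, k3⟩ := hK j hjM
      have hbR : 0 < w j := D.w0 hjM
      have hmR : (0 : ℝ) < m j := by exact_mod_cast (D.hm j hjM).1
      have hnR : (0 : ℝ) < n j := by exact_mod_cast (D.hn j hjM).1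
      have h1 := hsm j (hM1s hjM)
      have hPm := padic_prod hS (D.hm j hjM).2
      have hPn := padic_prod hS (D.hn j hjM).2
      rw [abs_of_pos hmR] at hPm
      rw [abs_of_pos hnR] at hPn
      have h4 : ∏ p ∈ S, (av (some p) ((n j ^ 2 * x j : ℤ) : ℚ) * av (some p) ((m j ^ 2 : ℤ) : ℚ)) ≤
          (∏ p ∈ S, av (some p) (n j : ℚ)) ^ 2 * (∏ p ∈ S, av (some p) (m j : ℚ)) ^ 2 := by
        rw [← Finset.prod_pow, ← Finset.prod_pow, ← Finset.prod_mul_distrib]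
        apply Finset.prod_le_prod
        · intro p _
          exact mul_nonneg (avs_nonneg _ _) (avs_nonneg _ _)
        · intro p hp
          have e1 : av (some p) ((n j ^ 2 * x j : ℤ) : ℚ) ≤ av (some p) (n j : ℚ) ^ 2 := by
            push_cast
            rw [avp_mul hS hp, avp_pow hS hp _ 1]
            calc av (some p) (n j : ℚ) ^ (1 + 1) * av (some p) (x j : ℚ) ≤
                  av (some p) (n j : ℚ) ^ (1 + 1) * 1 :=
                  mul_le_mul_of_nonneg_left (avp_int hS hp _) (pow_nonneg (avs_nonneg _ _) _)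
              _ = _ := mul_one _
          have e2 : av (some p) ((m j ^ 2 : ℤ) : ℚ) = av (some p) (m j : ℚ) ^ 2 := by
            push_cast
            exact avp_pow hS hp _ 1
          rw [e2]
          exact mul_le_mul_of_nonneg_right e1 (pow_nonneg (avs_nonneg _ _) _)
      simp only [Fin.sum_univ_two, Fin.prod_univ_two, Matrix.of_apply, Matrix.cons_val',
        Matrix.cons_val_zero, Matrix.cons_val_one, Matrix.cons_val_fin_one]
      have hmw : (m j : ℝ) = w j * n j := (D.hw j hjM).symm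
      have e1 : |1 * ((n j ^ 2 * x j : ℤ) : ℝ) + -μ * ((m j ^ 2 : ℤ) : ℝ)| =
          (n j : ℝ) ^ 2 * |(x j : ℝ) - μ * w j ^ 2| := by
        have e0 : 1 * ((n j ^ 2 * x j : ℤ) : ℝ) + -μ * ((m j ^ 2 : ℤ) : ℝ) =
            (n j : ℝ) ^ 2 * ((x j : ℝ) - μ * w j ^ 2) := by
          push_cast
          rw [hmw]
          ring
        rw [e0, abs_mul, abs_of_pos (show (0 : ℝ) < (n j : ℝ) ^ 2 by positivity)]
      have e2 : |0 * ((n j ^ 2 * x j : ℤ) : ℝ) + 1 * ((m j ^ 2 : ℤ) : ℝ)| = (m j : ℝ) ^ 2 := by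
        push_cast
        rw [zero_mul, zero_add, one_mul, abs_of_pos (by positivity)]
      rw [e1, e2]
      have h6 : 0 ≤ (n j : ℝ) ^ 2 * |(x j : ℝ) - μ * w j ^ 2| * (m j : ℝ) ^ 2 := by positivity
      refine (mul_le_mul_of_nonneg_left h4 h6).trans ?_
      have h7 : (n j : ℝ) ^ 2 * |(x j : ℝ) - μ * w j ^ 2| * (m j : ℝ) ^ 2 *
          ((∏ p ∈ S, av (some p) (n j : ℚ)) ^ 2 * (∏ p ∈ S, av (some p) (m j : ℚ)) ^ 2) =
          |(x j : ℝ) - μ * w j ^ 2| := by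
        calc (n j : ℝ) ^ 2 * |(x j : ℝ) - μ * w j ^ 2| * (m j : ℝ) ^ 2 *
              ((∏ p ∈ S, av (some p) (n j : ℚ)) ^ 2 * (∏ p ∈ S, av (some p) (m j : ℚ)) ^ 2) =
              |(x j : ℝ) - μ * w j ^ 2| * ((n j : ℝ) * ∏ p ∈ S, av (some p) (n j : ℚ)) ^ 2 *
              ((m j : ℝ) * ∏ p ∈ S, av (some p) (m j : ℚ)) ^ 2 := by ring
          _ = |(x j : ℝ) - μ * w j ^ 2| := by rw [hPn, hPm]; ring
      rw [h7]
      obtain ⟨A, hA⟩ : ∃ A : ℝ, A = |(x j : ℝ) - μ * w j ^ 2| := ⟨_, rfl⟩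
      have hA0 : 0 ≤ A := by rw [hA]; exact abs_nonneg _
      rw [← sq_abs, ← hA] at h1
      rw [← hA]
      have hK0 : 0 ≤ K := le_trans (by positivity) h1
      have h8 : (A ^ 2 * q j) ^ 2 ≤ q j := (pow_le_pow_left₀ (by positivity) h1 2).trans k3
      have hq0 : 0 < q j := by linarith
      have h9 : A ^ 4 * q j ≤ 1 := by
        have h10 : (A ^ 4 * q j) * q j ≤ 1 * q j := by
          calc (A ^ 4 * q j) * q j = (A ^ 2 * q j) ^ 2 := by ring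
            _ ≤ q j := h8
            _ = 1 * q j := (one_mul _).symm
        exact le_of_mul_le_mul_right h10 hq0
      have h10 : A ^ 4 ≤ (q j ^ (-(1 / 4 : ℝ))) ^ 4 := by
        rw [← Real.rpow_natCast (q j ^ (-(1 / 4 : ℝ))), ← Real.rpow_mul hq0.le]
        have : -(1 / 4 : ℝ) * ((4 : ℕ) : ℝ) = -1 := by norm_num
        rw [this, Real.rpow_neg hq0.le, Real.rpow_one, inv_eq_one_div, le_div_iff₀ hq0]
        exact h9
      exact (pow_le_pow_iff_left₀ hA0 (by positivity) (by norm_num)).mp h10)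
  simp only [Fin.sum_univ_two, Matrix.cons_val_zero, Matrix.cons_val_one] at hrel
  obtain ⟨g1, g2⟩ := lin_zero hrel q w (fun j => (x j : ℝ) - μ * w j ^ 2)
    (1 / (2 * μ)) ((c 0 : ℝ) * μ + c 1) (c 0 : ℝ) (by positivity)
    (fun j h => (D.hq j h.1).2) (fun j h => D.hj j h.1) (fun j h => by
      obtain ⟨k1, k2, -⟩ := hK j h.1
      have h1 := (D.bd hμ h.1 k1 k2).1
      rw [div_mul_eq_mul_div, one_mul, div_le_iff₀ (by positivity)]
      linarith) (fun j h => by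
      obtain ⟨k1, k2, -⟩ := hK j h.1
      exact (D.bd hμ h.1 k1 k2).2.2.2.2) (fun j h => h0 j (hM1s h.1)) (fun j h => by
      have hnR : (0 : ℝ) < n j := by exact_mod_cast (D.hn j h.1).1
      have h1 : (c 0 : ℝ) * ((n j : ℝ) ^ 2 * (x j : ℝ)) + c 1 * (m j : ℝ) ^ 2 = 0 := by
        have h2 := h.2
        exact_mod_cast h2
      have h2 : (n j : ℝ) ^ 2 * (((c 0 : ℝ) * μ + c 1) * w j ^ 2 +
          (c 0 : ℝ) * ((x j : ℝ) - μ * w j ^ 2)) = 0 := by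
        rw [← D.hw j h.1] at h1
        linear_combination h1
      exact (mul_eq_zero.mp h2).resolve_left (by positivity))
  apply hc
  funext i
  fin_cases i
  · exact_mod_cast g2
  · rw [g2, zero_mul, zero_add] at g1
    exact_mod_cast g1

/-- the point is not a multiple of an `S`-unit -/
theorem caseB3 (hSUBTQ : ST_SUBTQ) {S : Finset ℕ} (hS : ∀ p ∈ S, p.Prime) {x m n Y : ℕ → ℤ}
    {w q r : ℕ → ℝ} {μ κ B : ℝ} {M : Set ℕ} (D0 : DatR S x m n Y w q r μ κ B M) (hμ : 0 < μ)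
    (hκ : 0 < κ) (halg : IsAlgebraic ℚ μ) (h0 : ∀ j ∈ M, (x j : ℝ) - μ * w j ^ 2 ≠ 0) :
    False := by
  obtain ⟨s, hs⟩ : ∃ s : ℝ, s = √μ := ⟨_, rfl⟩
  have hs0 : 0 < s := by rw [hs]; positivity
  have hs2 : s ^ 2 = μ := by rw [hs, Real.sq_sqrt hμ.le]
  have hsalg : IsAlgebraic ℚ s := by
    refine IsAlgebraic.of_pow (n := 2) (by norm_num) ?_
    rw [hs2]
    exact halg
  obtain ⟨M1, hM1⟩ : ∃ M1 : Set ℕ, M1 = {j | j ∈ M ∧ max 2 (2 / μ) ≤ q j} := ⟨_, rfl⟩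
  have hM1i : M1.Infinite := by
    rw [hM1]
    exact inf_q D0.inf q (fun j h => (D0.hq j h).2) D0.hj _
  have hM1s : M1 ⊆ M := by rw [hM1]; exact fun j h => h.1
  have D := D0.mono hM1s hM1i
  have hK : ∀ j ∈ M1, 2 ≤ q j ∧ 2 / μ ≤ q j := by
    intro j hjM
    rw [hM1] at hjM
    exact ⟨(le_max_left _ _).trans hjM.2, (le_max_right _ _).trans hjM.2⟩
  obtain ⟨a, ha⟩ : ∃ a : ℕ → ℝ, ∀ j, a j = (x j : ℝ) - μ * w j ^ 2 := ⟨_, fun _ => rfl⟩
  have ha0 : ∀ j ∈ M1, a j ≠ 0 := fun j h => by rw [ha]; exact h0 j (hM1s h)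
  -- pointwise
  have hpt : ∀ j ∈ M1, (s * w j) ≤ 2 * q j ^ 2 ∧
      |(Y j : ℝ) - ((s * w j) ^ 3 + 3 / 2 * ((s * w j) * a j) + 3 / 8 * (a j ^ 2 / (s * w j)))| *
        q j ^ 3 ≤ 48 * r j ^ 3 := by
    intro j hjM
    obtain ⟨hx, hq1⟩ := D.hq j hjM
    obtain ⟨hr0, hr1, hr3, -⟩ := D.hr j hjM
    have hbR : 0 < w j := D.w0 hjM
    have hYR : (0 : ℝ) ≤ Y j := by exact_mod_cast D.hY j hjM
    have hxbR : (x j : ℝ) = (s * w j) ^ 2 + a j := by
      rw [mul_pow, hs2, ha]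
      ring
    have hdj := D.hd j hjM
    push_cast at hdj
    have hajq : |a j| ≤ q j * r j := by rw [ha]; exact D.ha j hjM
    exact (ptN hx hq1 hr0 hr1 hr3 hajq (by positivity) hxbR hYR rfl hdj).2
  have hF : ∀ j ∈ M1, w j * ((s * w j) ^ 3 + 3 / 2 * ((s * w j) * a j) +
      3 / 8 * (a j ^ 2 / (s * w j))) =
      s ^ 3 * w j ^ 4 + 3 / 2 * s * (w j ^ 2 * a j) + 3 / 8 * s⁻¹ * a j ^ 2 := by
    intro j hjM
    have hbR : 0 < w j := D.w0 hjM
    field_simp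
  obtain ⟨E, hE⟩ : ∃ E : ℕ → ℝ, ∀ j, E j = w j * Y j -
      (s ^ 3 * w j ^ 4 + 3 / 2 * s * (w j ^ 2 * a j) + 3 / 8 * s⁻¹ * a j ^ 2) :=
    ⟨_, fun _ => rfl⟩
  have hE1 : ∀ j ∈ M1, |E j| * q j ^ 3 ≤ w j * (48 * r j ^ 3) := by
    intro j hjM
    have hbR : 0 < w j := D.w0 hjM
    rw [hE, ← hF j hjM, ← mul_sub, abs_mul, abs_of_pos hbR, mul_assoc]
    exact mul_le_mul_of_nonneg_left (hpt j hjM).2 hbR.le
  -- the matrix
  obtain ⟨A, hA⟩ : ∃ A : Matrix (Fin 4) (Fin 4) ℝ, A =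
      !![1, -(3 / 8 * s⁻¹), -(3 / 2 * s) + 2 * μ * (3 / 8 * s⁻¹),
          -s ^ 3 + 3 / 2 * s * μ - 3 / 8 * s⁻¹ * μ ^ 2;
        0, 1, -2 * μ, μ ^ 2; 0, 0, 1, -μ; 0, 0, 0, 1] := ⟨_, rfl⟩
  have hAalg : ∀ i k, IsAlgebraic ℚ (A i k) := by
    have hc : ∀ c : ℚ, IsAlgebraic ℚ ((c : ℝ)) := fun c => isAlgebraic_algebraMap c
    have a0 : IsAlgebraic ℚ (0 : ℝ) := isAlgebraic_zero
    have a1 : IsAlgebraic ℚ (1 : ℝ) := isAlgebraic_one
    have a38 : IsAlgebraic ℚ (3 / 8 : ℝ) := by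
      have := hc (3 / 8)
      push_cast at this
      exact this
    have a32 : IsAlgebraic ℚ (3 / 2 : ℝ) := by
      have := hc (3 / 2)
      push_cast at this
      exact this
    have a2 : IsAlgebraic ℚ (2 : ℝ) := by
      have := hc 2
      push_cast at this
      exact this
    have am2 : IsAlgebraic ℚ (-2 : ℝ) := a2.neg
    have si := hsalg.inv
    intro i k
    rw [hA]
    fin_cases i <;> fin_cases k
    · exact a1
    · exact (a38.mul si).neg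
    · exact ((a32.mul hsalg).neg).add ((a2.mul halg).mul (a38.mul si))
    · exact (((hsalg.pow 3).neg).add ((a32.mul hsalg).mul halg)).sub ((a38.mul si).mul (halg.pow 2))
    · exact a0
    · exact a1
    · exact am2.mul halg
    · exact halg.pow 2
    · exact a0
    · exact a0
    · exact a1
    · exact halg.neg
    · exact a0
    · exact a0
    · exact a0
    · exact a1
  have hAdet : A.det ≠ 0 := by
    have h1 : A.BlockTriangular id := by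
      intro i k hik
      rw [hA]
      fin_cases i <;> fin_cases k <;> first | rfl | (exfalso; revert hik; decide)
    rw [Matrix.det_of_upperTriangular h1, Fin.prod_univ_four, hA]
    simp
  obtain ⟨c, hc, hrel⟩ := subq hSUBTQ (n := 4) (by norm_num) hS A hAalg hAdet (ε := κ)
    (B := 4 * B + 12) hκ (by have := D.hB.1; positivity) D.inf q (fun j h => (D.hq j h).2) D.hj
    (fun j => ![n j ^ 3 * m j * Y j, n j ^ 4 * x j ^ 2, n j ^ 2 * m j ^ 2 * x j, m j ^ 4]) (by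
      intro j hjM i
      obtain ⟨hx, hq1⟩ := D.hq j hjM
      obtain ⟨k1, k2⟩ := hK j hjM
      obtain ⟨-, -, h3, h4, -⟩ := D.bd hμ hjM k1 k2
      have hbR : 0 < w j := D.w0 hjM
      have hYR : (0 : ℝ) ≤ Y j := by exact_mod_cast D.hY j hjM
      have hmw : (m j : ℝ) = w j * n j := (D.hw j hjM).symm
      fin_cases i
      · simp only [Fin.zero_eta, Matrix.cons_val_zero]
        have e1 : ((n j ^ 3 * m j * Y j : ℤ) : ℝ) = (n j : ℝ) ^ 4 * (w j * Y j) := by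
          push_cast
          rw [hmw]
          ring
        rw [e1]
        refine D.size hjM (k := 4) (l := 10) (by norm_num) (by norm_num) (by positivity) ?_
        calc w j * Y j ≤ q j ^ 3 * q j ^ 7 := mul_le_mul h3 h4 hYR (by positivity)
          _ = q j ^ 10 := by ring
      · simp only [Fin.mk_one, Matrix.cons_val_one, Matrix.cons_val_zero]
        push_cast
        refine D.size hjM (k := 4) (l := 8) (by norm_num) (by norm_num) (by positivity) ?_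
        rw [hx]
        exact le_of_eq (by ring)
      · simp only [Fin.reduceFinMk, Matrix.cons_val]
        have e1 : ((n j ^ 2 * m j ^ 2 * x j : ℤ) : ℝ) = (n j : ℝ) ^ 4 * (w j ^ 2 * x j) := by
          push_cast
          rw [hmw]
          ring
        rw [e1]
        have hx0 : (0 : ℝ) ≤ x j := by rw [hx]; positivity
        refine D.size hjM (k := 4) (l := 10) (by norm_num) (by norm_num) (by positivity) ?_
        rw [hx]
        calc w j ^ 2 * q j ^ 4 ≤ (q j ^ 3) ^ 2 * q j ^ 4 :=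
              mul_le_mul_of_nonneg_right (pow_le_pow_left₀ hbR.le h3 2) (by positivity)
          _ = q j ^ 10 := by ring
      · simp only [Fin.reduceFinMk, Matrix.cons_val]
        have e1 : ((m j ^ 4 : ℤ) : ℝ) = (n j : ℝ) ^ 4 * w j ^ 4 := by
          push_cast
          rw [hmw]
          ring
        rw [e1]
        refine D.size hjM (k := 4) (l := 12) (by norm_num) (by norm_num) (by positivity) ?_
        calc w j ^ 4 ≤ (q j ^ 3) ^ 4 := pow_le_pow_left₀ hbR.le h3 4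
          _ = q j ^ 12 := by ring) (by
      intro j hjM
      obtain ⟨hx, hq1⟩ := D.hq j hjM
      obtain ⟨hr0, hr1, hr3, hre⟩ := D.hr j hjM
      have hbR : 0 < w j := D.w0 hjM
      have hmR : (0 : ℝ) < m j := by exact_mod_cast (D.hm j hjM).1
      have hnR : (0 : ℝ) < n j := by exact_mod_cast (D.hn j hjM).1
      have hmw : (m j : ℝ) = w j * n j := (D.hw j hjM).symm
      have hPm := padic_prod hS (D.hm j hjM).2
      have hPn := padic_prod hS (D.hn j hjM).2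
      rw [abs_of_pos hmR] at hPm
      rw [abs_of_pos hnR] at hPn
      have h4 : ∏ p ∈ S, (av (some p) ((n j ^ 3 * m j * Y j : ℤ) : ℚ) *
          av (some p) ((n j ^ 4 * x j ^ 2 : ℤ) : ℚ) *
          av (some p) ((n j ^ 2 * m j ^ 2 * x j : ℤ) : ℚ) * av (some p) ((m j ^ 4 : ℤ) : ℚ)) ≤
          (∏ p ∈ S, av (some p) (n j : ℚ)) ^ 9 * (∏ p ∈ S, av (some p) (m j : ℚ)) ^ 7 := by
        rw [← Finset.prod_pow, ← Finset.prod_pow, ← Finset.prod_mul_distrib]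
        apply Finset.prod_le_prod
        · intro p _
          exact mul_nonneg (mul_nonneg (mul_nonneg (avs_nonneg _ _) (avs_nonneg _ _))
            (avs_nonneg _ _)) (avs_nonneg _ _)
        · intro p hp
          have n0 : 0 ≤ av (some p) (n j : ℚ) := avs_nonneg _ _
          have m0 : 0 ≤ av (some p) (m j : ℚ) := avs_nonneg _ _
          have e1 : av (some p) ((n j ^ 3 * m j * Y j : ℤ) : ℚ) ≤
              av (some p) (n j : ℚ) ^ 3 * av (some p) (m j : ℚ) := by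
            push_cast
            rw [avp_mul hS hp, avp_mul hS hp, avp_pow hS hp _ 2]
            calc av (some p) (n j : ℚ) ^ (2 + 1) * av (some p) (m j : ℚ) * av (some p) (Y j : ℚ) ≤
                  av (some p) (n j : ℚ) ^ (2 + 1) * av (some p) (m j : ℚ) * 1 :=
                  mul_le_mul_of_nonneg_left (avp_int hS hp _) (by positivity)
              _ = _ := mul_one _
          have e2 : av (some p) ((m j ^ 4 : ℤ) : ℚ) = av (some p) (m j : ℚ) ^ 4 := by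
            push_cast
            exact avp_pow hS hp _ 3
          have e3 : av (some p) ((n j ^ 2 * m j ^ 2 * x j : ℤ) : ℚ) ≤
              av (some p) (n j : ℚ) ^ 2 * av (some p) (m j : ℚ) ^ 2 := by
            push_cast
            rw [avp_mul hS hp, avp_mul hS hp, avp_pow hS hp _ 1, avp_pow hS hp _ 1]
            calc av (some p) (n j : ℚ) ^ (1 + 1) * av (some p) (m j : ℚ) ^ (1 + 1) *
                  av (some p) (x j : ℚ) ≤ av (some p) (n j : ℚ) ^ (1 + 1) *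
                  av (some p) (m j : ℚ) ^ (1 + 1) * 1 :=
                  mul_le_mul_of_nonneg_left (avp_int hS hp _) (by positivity)
              _ = _ := mul_one _
          have e4 : av (some p) ((n j ^ 4 * x j ^ 2 : ℤ) : ℚ) ≤ av (some p) (n j : ℚ) ^ 4 := by
            have e5 : av (some p) ((x j ^ 2 : ℤ) : ℚ) ≤ 1 := avp_int hS hp _
            have e6 : ((n j ^ 4 * x j ^ 2 : ℤ) : ℚ) = (n j : ℚ) ^ 4 * ((x j ^ 2 : ℤ) : ℚ) := by
              push_cast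
              ring
            rw [e6, avp_mul hS hp, avp_pow hS hp _ 3]
            calc av (some p) (n j : ℚ) ^ (3 + 1) * av (some p) ((x j ^ 2 : ℤ) : ℚ) ≤
                  av (some p) (n j : ℚ) ^ (3 + 1) * 1 :=
                  mul_le_mul_of_nonneg_left e5 (by positivity)
              _ = _ := mul_one _
          rw [e2]
          calc av (some p) ((n j ^ 3 * m j * Y j : ℤ) : ℚ) *
                av (some p) ((n j ^ 4 * x j ^ 2 : ℤ) : ℚ) *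
                av (some p) ((n j ^ 2 * m j ^ 2 * x j : ℤ) : ℚ) * av (some p) (m j : ℚ) ^ 4
              ≤ (av (some p) (n j : ℚ) ^ 3 * av (some p) (m j : ℚ)) * av (some p) (n j : ℚ) ^ 4 *
                (av (some p) (n j : ℚ) ^ 2 * av (some p) (m j : ℚ) ^ 2) *
                av (some p) (m j : ℚ) ^ 4 := by
                apply mul_le_mul_of_nonneg_right _ (by positivity)
                apply mul_le_mul _ e3 (avs_nonneg _ _) (by positivity)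
                exact mul_le_mul e1 e4 (avs_nonneg _ _) (by positivity)
            _ = av (some p) (n j : ℚ) ^ 9 * av (some p) (m j : ℚ) ^ 7 := by ring
      have h3 : (∏ i, |∑ k, A i k * ((![n j ^ 3 * m j * Y j, n j ^ 4 * x j ^ 2,
          n j ^ 2 * m j ^ 2 * x j, m j ^ 4] k : ℤ) : ℝ)|) =
          (n j : ℝ) ^ 16 * (|E j| * a j ^ 2 * (w j ^ 2 * |a j|) * w j ^ 4) := by
        rw [hA, Fin.prod_univ_four]
        simp only [Fin.sum_univ_four, Matrix.of_apply, Matrix.cons_val', Matrix.cons_val_zero,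
          Matrix.cons_val_one, Matrix.cons_val, Matrix.cons_val_fin_one]
        push_cast
        have f1 : (1 : ℝ) * ((n j : ℝ) ^ 3 * (m j : ℝ) * Y j) +
            -(3 / 8 * s⁻¹) * ((n j : ℝ) ^ 4 * (x j : ℝ) ^ 2) +
            (-(3 / 2 * s) + 2 * μ * (3 / 8 * s⁻¹)) * ((n j : ℝ) ^ 2 * (m j : ℝ) ^ 2 * x j) +
            (-s ^ 3 + 3 / 2 * s * μ - 3 / 8 * s⁻¹ * μ ^ 2) * (m j : ℝ) ^ 4 =
            (n j : ℝ) ^ 4 * E j := by
          rw [hE, ha, hmw]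
          ring
        have f2 : (0 : ℝ) * ((n j : ℝ) ^ 3 * (m j : ℝ) * Y j) +
            1 * ((n j : ℝ) ^ 4 * (x j : ℝ) ^ 2) +
            -2 * μ * ((n j : ℝ) ^ 2 * (m j : ℝ) ^ 2 * x j) +
            μ ^ 2 * (m j : ℝ) ^ 4 = (n j : ℝ) ^ 4 * a j ^ 2 := by
          rw [ha, hmw]
          ring
        have f3 : (0 : ℝ) * ((n j : ℝ) ^ 3 * (m j : ℝ) * Y j) +
            0 * ((n j : ℝ) ^ 4 * (x j : ℝ) ^ 2) +
            1 * ((n j : ℝ) ^ 2 * (m j : ℝ) ^ 2 * x j) +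
            -μ * (m j : ℝ) ^ 4 = (n j : ℝ) ^ 4 * (w j ^ 2 * a j) := by
          rw [ha, hmw]
          ring
        have f4 : (0 : ℝ) * ((n j : ℝ) ^ 3 * (m j : ℝ) * Y j) +
            0 * ((n j : ℝ) ^ 4 * (x j : ℝ) ^ 2) +
            0 * ((n j : ℝ) ^ 2 * (m j : ℝ) ^ 2 * x j) +
            1 * (m j : ℝ) ^ 4 = (n j : ℝ) ^ 4 * w j ^ 4 := by
          rw [hmw]
          ring
        rw [f1, f2, f3, f4]
        simp only [abs_mul, abs_pow, abs_of_pos hnR, abs_of_pos hbR]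
        rw [sq_abs]
        ring
      have h5 : ∏ p ∈ S, ∏ i, av (some p) ((![n j ^ 3 * m j * Y j, n j ^ 4 * x j ^ 2,
          n j ^ 2 * m j ^ 2 * x j, m j ^ 4] i : ℤ) : ℚ)
          = ∏ p ∈ S, (av (some p) ((n j ^ 3 * m j * Y j : ℤ) : ℚ) *
          av (some p) ((n j ^ 4 * x j ^ 2 : ℤ) : ℚ) *
          av (some p) ((n j ^ 2 * m j ^ 2 * x j : ℤ) : ℚ) * av (some p) ((m j ^ 4 : ℤ) : ℚ)) := by
        refine Finset.prod_congr rfl fun p _ => ?_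
        rw [Fin.prod_univ_four]
        rfl
      rw [h3, h5, hre]
      have n1 : 0 ≤ (n j : ℝ) ^ 16 * (|E j| * a j ^ 2 * (w j ^ 2 * |a j|) * w j ^ 4) := by
        positivity
      have h8 : (0 : ℝ) ≤ ∏ p ∈ S, av (some p) (n j : ℚ) := by
        apply Finset.prod_nonneg
        intro p _
        exact avs_nonneg _ _
      have h8' : (0 : ℝ) ≤ ∏ p ∈ S, av (some p) (m j : ℚ) := by
        apply Finset.prod_nonneg
        intro p _
        exact avs_nonneg _ _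
      refine (mul_le_mul_of_nonneg_left h4 n1).trans ?_
      have hajq : |a j| ≤ q j * r j := by rw [ha]; exact D.ha j hjM
      have h9 : |a j| ^ 3 ≤ (q j * r j) ^ 3 := pow_le_pow_left₀ (abs_nonneg _) hajq 3
      have h10 : (|E j| * q j ^ 3) * (r j ^ 3) ≤ (w j * (48 * r j ^ 3)) * (r j ^ 3) :=
        mul_le_mul_of_nonneg_right (hE1 j hjM) (by positivity)
      calc (n j : ℝ) ^ 16 * (|E j| * a j ^ 2 * (w j ^ 2 * |a j|) * w j ^ 4) *
            ((∏ p ∈ S, av (some p) (n j : ℚ)) ^ 9 * (∏ p ∈ S, av (some p) (m j : ℚ)) ^ 7)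
          = |a j| ^ 3 * (|E j| * (w j ^ 6 * (n j : ℝ) ^ 7 *
            (∏ p ∈ S, av (some p) (m j : ℚ)) ^ 7)) *
            ((n j : ℝ) * ∏ p ∈ S, av (some p) (n j : ℚ)) ^ 9 := by
            rw [← sq_abs (a j)]
            ring
        _ = |a j| ^ 3 * (|E j| * (w j ^ 6 * (n j : ℝ) ^ 7 *
            (∏ p ∈ S, av (some p) (m j : ℚ)) ^ 7)) := by rw [hPn, one_pow, mul_one]
        _ ≤ (q j * r j) ^ 3 * (|E j| * (w j ^ 6 * (n j : ℝ) ^ 7 *
            (∏ p ∈ S, av (some p) (m j : ℚ)) ^ 7)) := by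
            apply mul_le_mul_of_nonneg_right h9 (by positivity)
        _ = ((|E j| * q j ^ 3) * (r j ^ 3)) * (w j ^ 6 * (n j : ℝ) ^ 7 *
            (∏ p ∈ S, av (some p) (m j : ℚ)) ^ 7) := by ring
        _ ≤ ((w j * (48 * r j ^ 3)) * (r j ^ 3)) * (w j ^ 6 * (n j : ℝ) ^ 7 *
            (∏ p ∈ S, av (some p) (m j : ℚ)) ^ 7) :=
            mul_le_mul_of_nonneg_right h10 (by positivity)
        _ = 48 * r j ^ 6 * ((w j * n j) * (∏ p ∈ S, av (some p) (m j : ℚ))) ^ 7 := by ring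
        _ = 48 * r j ^ 6 := by rw [← hmw, hPm]; ring
        _ ≤ r j := by
            have h11 : r j ^ 5 ≤ (1 / 4) ^ 5 := pow_le_pow_left₀ hr0.le hr1 5
            have h12 : 48 * r j ^ 6 = r j * (48 * r j ^ 5) := by ring
            rw [h12]
            have h13 : 48 * r j ^ 5 ≤ 1 := by
              have : (48 : ℝ) * (1 / 4) ^ 5 ≤ 1 := by norm_num
              linarith
            calc r j * (48 * r j ^ 5) ≤ r j * 1 := mul_le_mul_of_nonneg_left h13 hr0.le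
              _ = r j := mul_one _)
  simp only [Fin.sum_univ_four, Matrix.cons_val_zero, Matrix.cons_val_one, Matrix.cons_val] at hrel
  obtain ⟨M2, hM2⟩ : ∃ M2 : Set ℕ, M2 = {j | j ∈ M1 ∧ c 0 * ((n j ^ 3 * m j * Y j : ℤ) : ℚ) +
    c 1 * ((n j ^ 4 * x j ^ 2 : ℤ) : ℚ) + c 2 * ((n j ^ 2 * m j ^ 2 * x j : ℤ) : ℚ) +
    c 3 * ((m j ^ 4 : ℤ) : ℚ) = 0} := ⟨_, rfl⟩
  rw [← hM2] at hrel
  have hM2s : M2 ⊆ M1 := by rw [hM2]; exact fun j h => h.1
  have D2 := D.mono hM2s hrel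
  obtain ⟨γ1, hγ1⟩ : ∃ γ1 : ℝ, γ1 = (c 1 : ℝ) * μ ^ 2 + c 2 * μ + c 3 := ⟨_, rfl⟩
  obtain ⟨γ2, hγ2⟩ : ∃ γ2 : ℝ, γ2 = 2 * (c 1 : ℝ) * μ + c 2 := ⟨_, rfl⟩
  have hrelR : ∀ j ∈ M2, (c 0 : ℝ) * (w j * Y j) + (γ1 * w j ^ 4 +
      γ2 * (w j ^ 2 * a j) + (c 1 : ℝ) * a j ^ 2) = 0 := by
    intro j hjM
    have hjM1 := hM2s hjM
    have hnR : (0 : ℝ) < n j := by exact_mod_cast (D.hn j hjM1).1
    rw [hM2] at hjM
    have h2 : (c 0 : ℝ) * ((n j : ℝ) ^ 3 * (m j : ℝ) * Y j) + c 1 * ((n j : ℝ) ^ 4 * (x j : ℝ) ^ 2) +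
        c 2 * ((n j : ℝ) ^ 2 * (m j : ℝ) ^ 2 * x j) + c 3 * (m j : ℝ) ^ 4 = 0 := by
      have h3 := hjM.2
      exact_mod_cast h3
    have h3 : (n j : ℝ) ^ 4 * ((c 0 : ℝ) * (w j * Y j) + (γ1 * w j ^ 4 +
        γ2 * (w j ^ 2 * a j) + (c 1 : ℝ) * a j ^ 2)) = 0 := by
      rw [← D.hw j hjM1] at h2
      rw [hγ1, hγ2, ha]
      linear_combination h2
    exact (mul_eq_zero.mp h3).resolve_left (by positivity)
  have q1 : ∀ j ∈ M2, 1 ≤ q j := fun j h => (D2.hq j h).2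
  have qj : ∀ j ∈ M2, (j : ℝ) ≤ q j ^ 4 := D2.hj
  have cW : ∀ j ∈ M2, 1 / (2 * μ) * q j ^ 4 ≤ w j ^ 2 := by
    intro j h
    obtain ⟨k1, k2⟩ := hK j (hM2s h)
    have h1 := (D2.bd hμ h k1 k2).1
    rw [div_mul_eq_mul_div, one_mul, div_le_iff₀ (by positivity)]
    linarith
  have aq : ∀ j ∈ M2, |a j| ≤ q j := by
    intro j h
    obtain ⟨k1, k2⟩ := hK j (hM2s h)
    rw [ha]
    exact (D2.bd hμ h k1 k2).2.2.2.2
  have hμc : (0 : ℝ) < 1 / (2 * μ) := by positivity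
  have hc0 : c 0 ≠ 0 := by
    intro hc0
    have hr0 : ∀ j ∈ M2, γ1 * w j ^ 4 + γ2 * (w j ^ 2 * a j) + (c 1 : ℝ) * a j ^ 2 = 0 := by
      intro j h
      have := hrelR j h
      rw [hc0] at this
      push_cast at this
      linarith
    have g1 := first_zero hrel q w a (fun _ => 0) (1 / (2 * μ)) 0 γ1 γ2 (c 1 : ℝ)
      hμc le_rfl q1 qj cW aq (fun j _ => by simp) hr0
    obtain ⟨g2, g3⟩ := lin_zero hrel q w a (1 / (2 * μ)) γ2 (c 1 : ℝ)
      hμc q1 qj cW aq (fun j h => ha0 j (hM2s h)) (fun j h => by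
        have h1 := hr0 j h
        rw [g1] at h1
        have h2 : a j * (γ2 * w j ^ 2 + (c 1 : ℝ) * a j) = 0 := by linarith
        exact (mul_eq_zero.mp h2).resolve_left (ha0 j (hM2s h)))
    rw [hγ2, g3, mul_zero, zero_mul, zero_add] at g2
    rw [hγ1, g3, g2, zero_mul, zero_mul, zero_add, zero_add] at g1
    apply hc
    funext i
    fin_cases i
    · exact hc0
    · exact_mod_cast g3
    · exact_mod_cast g2
    · exact_mod_cast g1
  have hc0R : (c 0 : ℝ) ≠ 0 := by exact_mod_cast hc0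
  obtain ⟨δ1, hδ1⟩ : ∃ δ1 : ℝ, δ1 = -γ1 / c 0 - s ^ 3 := ⟨_, rfl⟩
  obtain ⟨δ2, hδ2⟩ : ∃ δ2 : ℝ, δ2 = -γ2 / c 0 - 3 / 2 * s := ⟨_, rfl⟩
  obtain ⟨δ3, hδ3⟩ : ∃ δ3 : ℝ, δ3 = -(c 1 : ℝ) / c 0 - 3 / 8 * s⁻¹ := ⟨_, rfl⟩
  have hrelE : ∀ j ∈ M2, δ1 * w j ^ 4 + δ2 * (w j ^ 2 * a j) + δ3 * a j ^ 2 = E j := by
    intro j h
    have h1 := hrelR j h
    have h2 : w j * Y j = -γ1 / c 0 * w j ^ 4 +
        -γ2 / c 0 * (w j ^ 2 * a j) + -(c 1 : ℝ) / c 0 * a j ^ 2 := by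
      field_simp
      linarith
    rw [hE, h2, hδ1, hδ2, hδ3]
    ring
  have hEq : ∀ j ∈ M2, |E j| * q j ≤ 96 / s := by
    intro j h
    obtain ⟨hr0, hr1, -, -⟩ := D2.hr j h
    have h1 := hE1 j (hM2s h)
    have h2 := (hpt j (hM2s h)).1
    have hq1 := q1 j h
    have hbR : 0 < w j := D2.w0 h
    rw [le_div_iff₀ hs0]
    have h3 : (|E j| * q j * s) * q j ^ 2 ≤ 96 * q j ^ 2 := by
      calc (|E j| * q j * s) * q j ^ 2 = s * (|E j| * q j ^ 3) := by ring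
        _ ≤ s * (w j * (48 * r j ^ 3)) := mul_le_mul_of_nonneg_left h1 hs0.le
        _ = (s * w j) * (48 * r j ^ 3) := by ring
        _ ≤ (2 * q j ^ 2) * (48 * 1) := by
            have h4 : r j ^ 3 ≤ 1 := pow_le_one₀ hr0.le (by linarith)
            apply mul_le_mul h2 _ (by positivity) (by positivity)
            linarith
        _ = 96 * q j ^ 2 := by ring
    exact le_of_mul_le_mul_right h3 (by positivity)
  have hC96 : 0 ≤ 96 / s := by positivity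
  have g1 : δ1 = 0 := first_zero hrel q w a E (1 / (2 * μ)) (96 / s) δ1 δ2 δ3
    hμc hC96 q1 qj cW aq hEq hrelE
  have hE23 : ∀ j ∈ M2, δ2 * (w j ^ 2 * a j) + δ3 * a j ^ 2 = E j := by
    intro j h
    have := hrelE j h
    rw [g1] at this
    linarith
  have g2 : δ2 = 0 := by
    by_contra hne2
    have hd2 : 0 < |δ2| := abs_pos.mpr hne2
    -- restrict to large `q`
    obtain ⟨L, hL⟩ : ∃ L : ℝ, L = |δ3| * (4 * μ) / |δ2| := ⟨_, rfl⟩
    have hMi := inf_q hrel q q1 qj L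
    refine smallR hSUBTQ hS (D2.mono (fun j h => h.1) hMi) hμ halg
      (fun j h => h0 j (hM1s (hM2s h.1))) ((96 / s * (4 * μ) / |δ2|) ^ 2) ?_
    intro j hj
    obtain ⟨hjM, hjL⟩ := hj
    have hq1 := q1 j hjM
    have hw := cW j hjM
    have haj := aq j hjM
    have hEj := hEq j hjM
    have hrj := hE23 j hjM
    rw [← ha]
    have hb2 : (0 : ℝ) < w j ^ 2 := lt_of_lt_of_le (by positivity) hw
    -- `|δ3| |a| ≤ |δ2| w ^ 2 / 2`
    have h1 : |δ3| * |a j| ≤ |δ2| * w j ^ 2 / 2 := by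
      have h2 : |δ3| * (4 * μ) ≤ |δ2| * q j := by
        rw [hL, div_le_iff₀ hd2] at hjL
        linarith
      have h3 : |δ3| * |a j| * (4 * μ) ≤ (|δ2| * w j ^ 2 / 2) * (4 * μ) := by
        have h4 : q j ^ 2 ≤ q j ^ 4 := pow_le_pow_right₀ hq1 (by norm_num)
        have h5 : q j ^ 4 ≤ 2 * μ * w j ^ 2 := by
          rw [div_mul_eq_mul_div, one_mul, div_le_iff₀ (by positivity)] at hw
          linarith
        calc |δ3| * |a j| * (4 * μ) = (|δ3| * (4 * μ)) * |a j| := by ring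
          _ ≤ (|δ2| * q j) * q j := mul_le_mul h2 haj (abs_nonneg _) (by positivity)
          _ = |δ2| * q j ^ 2 := by ring
          _ ≤ |δ2| * q j ^ 4 := mul_le_mul_of_nonneg_left h4 hd2.le
          _ ≤ |δ2| * (2 * μ * w j ^ 2) := mul_le_mul_of_nonneg_left h5 hd2.le
          _ = (|δ2| * w j ^ 2 / 2) * (4 * μ) := by ring
      exact le_of_mul_le_mul_right h3 (by positivity)
    have h6 : |δ2| * w j ^ 2 * |a j| ≤ |δ3| * |a j| * |a j| + |E j| := by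
      have h7 : δ2 * (w j ^ 2 * a j) = E j - δ3 * a j ^ 2 := by linarith
      have h8 : |δ2 * (w j ^ 2 * a j)| ≤ |E j| + |δ3 * a j ^ 2| := by
        rw [h7]; exact abs_sub _ _
      rw [abs_mul, abs_mul, abs_mul, abs_of_nonneg hb2.le, abs_pow] at h8
      nlinarith
    have h9 : |δ2| * w j ^ 2 * |a j| / 2 ≤ |E j| := by
      have h10 : |δ3| * |a j| * |a j| ≤ |δ2| * w j ^ 2 / 2 * |a j| :=
        mul_le_mul_of_nonneg_right h1 (abs_nonneg _)
      linarith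
    -- `|a| q ≤ 96 / s * 4 μ / |δ2|`
    have h11 : |a j| * q j ≤ 96 / s * (4 * μ) / |δ2| := by
      rw [le_div_iff₀ hd2]
      have h12 : (|δ2| * w j ^ 2 * |a j| / 2) * q j ≤ 96 / s :=
        (mul_le_mul_of_nonneg_right h9 (by linarith)).trans hEj
      have h13 : 1 ≤ 2 * μ * w j ^ 2 := by
        rw [div_mul_eq_mul_div, one_mul, div_le_iff₀ (by positivity)] at hw
        have : (1 : ℝ) ≤ q j ^ 4 := one_le_pow₀ hq1
        linarith
      have h14 : 0 ≤ |a j| * q j * |δ2| := by positivity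
      calc |a j| * q j * |δ2| = (|a j| * q j * |δ2|) * 1 := (mul_one _).symm
        _ ≤ (|a j| * q j * |δ2|) * (2 * μ * w j ^ 2) := mul_le_mul_of_nonneg_left h13 h14
        _ = ((|δ2| * w j ^ 2 * |a j| / 2) * q j) * (4 * μ) := by ring
        _ ≤ 96 / s * (4 * μ) := mul_le_mul_of_nonneg_right h12 (by positivity)
    have h15 : (|a j| * q j) ^ 2 ≤ (96 / s * (4 * μ) / |δ2|) ^ 2 :=
      pow_le_pow_left₀ (by positivity) h11 2
    refine le_trans ?_ h15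
    rw [mul_pow, sq_abs]
    apply mul_le_mul_of_nonneg_left _ (sq_nonneg _)
    exact le_self_pow₀ hq1 (by norm_num)
  have hE3 : ∀ j ∈ M2, δ3 * a j ^ 2 = E j := by
    intro j h
    have := hE23 j h
    rw [g2] at this
    linarith
  have g3 : δ3 = 0 := by
    by_contra hne3
    have hd3 : 0 < |δ3| := abs_pos.mpr hne3
    refine smallR hSUBTQ hS D2 hμ halg (fun j h => h0 j (hM1s (hM2s h))) (96 / s / |δ3|) ?_
    intro j hjM
    have h1 := hEq j hjM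
    rw [← hE3 j hjM, abs_mul, abs_of_nonneg (sq_nonneg (a j))] at h1
    rw [← ha, le_div_iff₀ hd3]
    linarith
  -- `s` is rational
  have hc1 : (c 1 : ℝ) ≠ 0 := by
    intro h
    rw [hδ3, h, neg_zero, zero_div] at g3
    have : 0 < 3 / 8 * s⁻¹ := by positivity
    linarith
  obtain ⟨θ, hθ⟩ : ∃ θ : ℚ, θ = -3 * c 0 / (8 * c 1) := ⟨_, rfl⟩
  have hsθ : s = (θ : ℝ) := by
    rw [hθ]
    push_cast
    rw [hδ3] at g3
    have h1 : -(c 1 : ℝ) / c 0 = 3 / 8 * s⁻¹ := by linarith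
    field_simp at h1 ⊢
    linarith
  have hθ0 : 0 < θ := by
    have : (0 : ℝ) < θ := by rw [← hsθ]; exact hs0
    exact_mod_cast this
  obtain ⟨h, hh⟩ : ∃ h : ℤ, h = θ.num := ⟨_, rfl⟩
  obtain ⟨k, hk⟩ : ∃ k : ℤ, k = (θ.den : ℤ) := ⟨_, rfl⟩
  have hk0 : 0 < k := by rw [hk]; exact_mod_cast θ.den_pos
  have hkR : (0 : ℝ) < k := by exact_mod_cast hk0
  have hk1 : (1 : ℝ) ≤ k := by exact_mod_cast hk0
  have hshk : s = (h : ℝ) / k := by
    rw [hsθ, hh, hk]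
    have := Rat.num_div_den θ
    conv_lhs => rw [← this]
    push_cast
    rfl
  -- a large index with small `r`
  obtain ⟨ρ, hρ⟩ : ∃ ρ : ℝ, ρ = 1 / (18 * μ * (k : ℝ) ^ 8 * (h : ℝ) ^ 16) := ⟨_, rfl⟩
  have hhR : (0 : ℝ) < h := by
    have : (0 : ℝ) < (h : ℝ) / k := by rw [← hshk]; exact hs0
    exact (div_pos_iff_of_pos_right hkR).mp this
  have hρ0 : 0 < ρ := by rw [hρ]; positivity
  obtain ⟨j, hjM, hjr⟩ : ∃ j ∈ M2, r j < min ρ 1 := by
    have h1 : ∀ᶠ t : ℝ in Filter.atTop, t ^ (-κ) < min ρ 1 :=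
      (tendsto_rpow_neg_atTop hκ).eventually (gt_mem_nhds (lt_min hρ0 one_pos))
    obtain ⟨T, hT⟩ := Filter.eventually_atTop.mp h1
    obtain ⟨j, hj1, hj2⟩ := (inf_q hrel q q1 qj T).nonempty
    refine ⟨j, hj1, ?_⟩
    rw [← (D2.hr j hj1).2.2.2]
    exact hT _ hj2
  have hj1 := hM2s hjM
  obtain ⟨hr0, hr1, -, -⟩ := D2.hr j hjM
  obtain ⟨hx, hq1⟩ := D2.hq j hjM
  have hbR : 0 < w j := D2.w0 hjM
  have hmR : (0 : ℝ) < m j := by exact_mod_cast (D2.hm j hjM).1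
  have hnR : (0 : ℝ) < n j := by exact_mod_cast (D2.hn j hjM).1
  have hn1 : (1 : ℝ) ≤ n j := by exact_mod_cast (D2.hn j hjM).1
  have hmw : (m j : ℝ) = w j * n j := (D2.hw j hjM).symm
  have hE0 : E j = 0 := by rw [← hE3 j hjM, g3, zero_mul]
  obtain ⟨a', ha'⟩ : ∃ a' : ℤ, a' = k ^ 2 * n j ^ 2 * x j - h ^ 2 * m j ^ 2 := ⟨_, rfl⟩
  have haa : (a' : ℝ) = (k : ℝ) ^ 2 * (n j : ℝ) ^ 2 * a j := by
    rw [ha', ha, ← hs2, hshk]
    push_cast
    rw [hmw]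
    field_simp
  have ha'0 : a' ≠ 0 := by
    intro h1
    rw [h1] at haa
    push_cast at haa
    have h2 : (k : ℝ) ^ 2 * (n j : ℝ) ^ 2 * a j = 0 := haa.symm
    rcases mul_eq_zero.mp h2 with h3 | h3
    · exact absurd h3 (by positivity)
    · exact ha0 j hj1 h3
  have h1 : w j * Y j =
      s ^ 3 * w j ^ 4 + 3 / 2 * s * (w j ^ 2 * a j) + 3 / 8 * s⁻¹ * a j ^ 2 := by
    have h2 := hE j
    rw [hE0] at h2
    linarith
  -- equation (E)
  have hEE : 8 * h * k ^ 3 * m j * n j ^ 3 * Y j =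
      8 * h ^ 4 * m j ^ 4 + 12 * h ^ 2 * m j ^ 2 * a' + 3 * a' ^ 2 := by
    have h3 : 8 * (h : ℝ) * (k : ℝ) ^ 3 * m j * (n j : ℝ) ^ 3 * Y j =
        8 * (h : ℝ) ^ 4 * (m j : ℝ) ^ 4 + 12 * (h : ℝ) ^ 2 * (m j : ℝ) ^ 2 * a' +
        3 * (a' : ℝ) ^ 2 := by
      have h4 : 8 * (h : ℝ) * (k : ℝ) ^ 3 * m j * (n j : ℝ) ^ 3 * Y j =
          8 * (h : ℝ) * (k : ℝ) ^ 3 * (n j : ℝ) ^ 4 * (w j * Y j) := by
        rw [hmw]; ring
      rw [h4, h1, haa, hshk, hmw]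
      field_simp
      ring
    exact_mod_cast h3
  have h2 : 3 * a' ^ 2 = m j * (8 * h * k ^ 3 * n j ^ 3 * Y j - 8 * h ^ 4 * m j ^ 3 -
      12 * h ^ 2 * m j * a') := by
    linear_combination -hEE
  have h3 : m j ≤ 3 * a' ^ 2 := by
    apply Int.le_of_dvd
    · positivity
    · exact ⟨_, h2⟩
  -- equation (E')
  have hE' : n j ^ 2 ∣ h ^ 4 * m j ^ 4 := by
    refine ⟨6 * h ^ 2 * k ^ 2 * m j ^ 2 * x j + 3 * k ^ 4 * n j ^ 2 * x j ^ 2 -
      8 * h * k ^ 3 * m j * n j * Y j, ?_⟩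
    rw [ha'] at hEE
    linear_combination hEE
  have hnh : n j ^ 2 ∣ h ^ 4 :=
    ((((D2.hc j hjM).symm.pow_left (m := 2)).pow_right (n := 4))).dvd_of_dvd_mul_right hE'
  have hh0 : 0 < h := by exact_mod_cast hhR
  have hnh2 : (n j : ℝ) ^ 2 ≤ (h : ℝ) ^ 4 := by
    have := Int.le_of_dvd (by positivity) hnh
    exact_mod_cast this
  have h4 : (m j : ℝ) ≤ 3 * (a' : ℝ) ^ 2 := by exact_mod_cast h3
  have hajq : |a j| ≤ q j * r j := by rw [ha]; exact D2.ha j hjM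
  have h5 : a j ^ 2 ≤ (q j * r j) ^ 2 := by
    rw [← sq_abs]
    exact pow_le_pow_left₀ (abs_nonneg _) hajq 2
  have h5' : ((n j : ℝ) ^ 2) ^ 2 ≤ ((h : ℝ) ^ 4) ^ 2 := pow_le_pow_left₀ (by positivity) hnh2 2
  have h6 : w j ≤ 3 * (k : ℝ) ^ 4 * (h : ℝ) ^ 8 * (q j * r j) ^ 2 := by
    have hwm : w j ≤ m j := by
      rw [hmw]
      nlinarith
    calc w j ≤ m j := hwm
      _ ≤ 3 * (a' : ℝ) ^ 2 := h4
      _ = 3 * (k : ℝ) ^ 4 * ((n j : ℝ) ^ 2) ^ 2 * a j ^ 2 := by rw [haa]; ring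
      _ ≤ 3 * (k : ℝ) ^ 4 * ((h : ℝ) ^ 4) ^ 2 * (q j * r j) ^ 2 := by
          apply mul_le_mul _ h5 (sq_nonneg _) (by positivity)
          exact mul_le_mul_of_nonneg_left h5' (by positivity)
      _ = 3 * (k : ℝ) ^ 4 * (h : ℝ) ^ 8 * (q j * r j) ^ 2 := by ring
  have h7 : w j ^ 2 ≤ (3 * (k : ℝ) ^ 4 * (h : ℝ) ^ 8 * (q j * r j) ^ 2) ^ 2 :=
    pow_le_pow_left₀ hbR.le h6 2
  have h8 := cW j hjM
  have h9 : 1 / (2 * μ) * q j ^ 4 ≤ 9 * (k : ℝ) ^ 8 * (h : ℝ) ^ 16 * r j ^ 4 * q j ^ 4 := by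
    calc 1 / (2 * μ) * q j ^ 4 ≤ w j ^ 2 := h8
      _ ≤ (3 * (k : ℝ) ^ 4 * (h : ℝ) ^ 8 * (q j * r j) ^ 2) ^ 2 := h7
      _ = 9 * (k : ℝ) ^ 8 * (h : ℝ) ^ 16 * r j ^ 4 * q j ^ 4 := by ring
  have h10 : 1 / (2 * μ) ≤ 9 * (k : ℝ) ^ 8 * (h : ℝ) ^ 16 * r j ^ 4 :=
    le_of_mul_le_mul_right h9 (by positivity)
  have h11 : r j ^ 4 ≤ r j := pow_le_of_le_one hr0.le (by linarith) (by norm_num)
  have h12 : r j < ρ := lt_of_lt_of_le hjr (min_le_left _ _)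
  have h13 : 9 * (k : ℝ) ^ 8 * (h : ℝ) ^ 16 * r j ^ 4 < 1 / (2 * μ) := by
    calc 9 * (k : ℝ) ^ 8 * (h : ℝ) ^ 16 * r j ^ 4 ≤ 9 * (k : ℝ) ^ 8 * (h : ℝ) ^ 16 * r j :=
          mul_le_mul_of_nonneg_left h11 (by positivity)
      _ < 9 * (k : ℝ) ^ 8 * (h : ℝ) ^ 16 * ρ := mul_lt_mul_of_pos_left h12 (by positivity)
      _ = 1 / (2 * μ) := by rw [hρ]; field_simp; norm_num
  linarith

/-- squarefree part of a rational `S`-unit -/
theorem sqf2 {S : Finset ℕ} (hS : ∀ p ∈ S, p.Prime) (u v : ℤ) (hu : SU S u) (hv : SU S v) :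
    ∃ e m n : ℕ, e ≤ ∏ p ∈ S, p ∧ 0 < e ∧ 0 < m ∧ 0 < n ∧ Nat.Coprime m n ∧ SU S (m : ℤ) ∧
      SU S (n : ℤ) ∧ (n : ℤ) ≤ |v| ∧ |(u : ℝ) / v| = e * ((m : ℝ) / n) ^ 2 := by
  obtain ⟨e, b, hb, -, heN, he0, hb0, hbS⟩ := sqf hS (u * v) (Pool.Agent.Helper94.SUB.SU_mul hu hv)
  have hv0 : v.natAbs ≠ 0 := Int.natAbs_ne_zero.mpr hv.1
  obtain ⟨g, hg⟩ : ∃ g : ℕ, g = Nat.gcd b v.natAbs := ⟨_, rfl⟩
  have hg0 : 0 < g := by rw [hg]; exact Nat.gcd_pos_of_pos_left _ hb0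
  obtain ⟨m, hm⟩ : g ∣ b := by rw [hg]; exact Nat.gcd_dvd_left _ _
  obtain ⟨n, hn⟩ : g ∣ v.natAbs := by rw [hg]; exact Nat.gcd_dvd_right _ _
  have hm0 : 0 < m := Nat.pos_of_ne_zero (by rintro rfl; rw [mul_zero] at hm; omega)
  have hn0 : 0 < n := Nat.pos_of_ne_zero (by rintro rfl; rw [mul_zero] at hn; omega)
  refine ⟨e, m, n, heN, he0, hm0, hn0, ?_, ?_, ?_, ?_, ?_⟩
  · have h1 : Nat.gcd (g * m) (g * n) = g := by rw [← hm, ← hn, ← hg]
    rw [Nat.gcd_mul_left] at h1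
    have h2 : g * Nat.gcd m n = g * 1 := by rw [h1, mul_one]
    exact Nat.eq_of_mul_eq_mul_left hg0 h2
  · refine ⟨by exact_mod_cast hm0.ne', fun p hp h => hbS.2 p hp ?_⟩
    have h2 : p ∣ m := by exact_mod_cast h
    rw [hm]
    exact_mod_cast h2.mul_left g
  · refine ⟨by exact_mod_cast hn0.ne', fun p hp h => hv.2 p hp ?_⟩
    have h2 : p ∣ n := by exact_mod_cast h
    have h3 : p ∣ v.natAbs := by rw [hn]; exact h2.mul_left g
    exact Int.natCast_dvd.mpr h3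
  · have h1 : n ≤ v.natAbs := by rw [hn]; exact Nat.le_mul_of_pos_left n hg0
    have h2 : ((v.natAbs : ℕ) : ℤ) = |v| := Int.natCast_natAbs v
    rw [← h2]
    exact_mod_cast h1
  · have hgR : (0 : ℝ) < g := by exact_mod_cast hg0
    have hnR : (0 : ℝ) < n := by exact_mod_cast hn0
    have hvR : |(v : ℝ)| = g * n := by
      have : ((v.natAbs : ℕ) : ℝ) = |(v : ℝ)| := by rw [Nat.cast_natAbs, Int.cast_abs]
      rw [← this, hn]
      push_cast
      ring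
    have hv2 : 0 < |(v : ℝ)| := by rw [hvR]; positivity
    have huvR : |(u : ℝ)| * |(v : ℝ)| = (g * m : ℝ) ^ 2 * e := by
      have h1 : (((u * v).natAbs : ℕ) : ℝ) = |(u : ℝ)| * |(v : ℝ)| := by
        rw [Nat.cast_natAbs, Int.cast_abs, Int.cast_mul, abs_mul]
      rw [← h1, ← hb, hm]
      push_cast
      ring
    rw [abs_div]
    have h3 : |(u : ℝ)| = (g * m : ℝ) ^ 2 * e / |(v : ℝ)| := by
      rw [← huvR]
      field_simp
    rw [h3, hvR]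
    field_simp

/-- **Row NXR.** -/
theorem NXR (hSUBTQ : ST_SUBTQ) : ST_NXR := by
  classical
  intro S lam ε η0 B0 hS hlam hε hη0
  by_contra hne
  let τ : Type := {t : ℤ × ℤ × ℤ × ℤ // SU S t.2.2.1 ∧ SU S t.2.2.2 ∧
    |(t.2.2.2 : ℝ)| ≤ |(t.1 : ℝ)| ^ B0 ∧
    |(t.1 : ℝ) - lam * (t.2.2.1 / t.2.2.2)| ≤ |(t.1 : ℝ)| ^ (1 / 4 - η0) ∧ t.2.1 ^ 2 ≠ t.1 ^ 3}
  obtain ⟨f, hf1, hf2⟩ := Pool.Agent.Helper72.SUB.EXTR τ (fun s => s.1.1) (fun s => s.1.2.1) ε hε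
    (fun s => s.2.2.2.2.2) (by
      rintro ⟨C, hC⟩
      exact hne ⟨C, fun x y u v h1 h2 h3 h4 h5 => hC ⟨(x, y, u, v), h1, h2, h3, h4, h5⟩⟩)
  obtain ⟨x, hx⟩ : ∃ x : ℕ → ℤ, x = fun j => (f j).1.1 := ⟨_, rfl⟩
  obtain ⟨y, hy⟩ : ∃ y : ℕ → ℤ, y = fun j => (f j).1.2.1 := ⟨_, rfl⟩
  obtain ⟨u, hu⟩ : ∃ u : ℕ → ℤ, u = fun j => (f j).1.2.2.1 := ⟨_, rfl⟩
  obtain ⟨v, hv⟩ : ∃ v : ℕ → ℤ, v = fun j => (f j).1.2.2.2 := ⟨_, rfl⟩
  have hxj : ∀ j : ℕ, (j : ℝ) ≤ |(x j : ℝ)| := by rw [hx]; exact hf1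
  have hdj : ∀ j, |((y j ^ 2 - x j ^ 3 : ℤ) : ℝ)| ≤ |(x j : ℝ)| ^ (1 / (2 + ε)) := by
    rw [hx, hy]; exact hf2
  have huS : ∀ j, SU S (u j) := by rw [hu]; exact fun j => (f j).2.1
  have hvS : ∀ j, SU S (v j) := by rw [hv]; exact fun j => (f j).2.2.1
  have hvB : ∀ j, |(v j : ℝ)| ≤ |(x j : ℝ)| ^ B0 := by
    rw [hx, hv]; exact fun j => (f j).2.2.2.1
  have hxu : ∀ j, |(x j : ℝ) - lam * (u j / v j)| ≤ |(x j : ℝ)| ^ (1 / 4 - η0) := by
    rw [hx, hu, hv]; exact fun j => (f j).2.2.2.2.1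
  have hne3 : ∀ j, y j ^ 2 ≠ x j ^ 3 := by
    rw [hx, hy]; exact fun j => (f j).2.2.2.2.2
  clear hx hy hu hv hf1 hf2 f
  obtain ⟨η, hη⟩ : ∃ η : ℝ, η = min η0 (1 / 12) := ⟨_, rfl⟩
  have hη1 : 0 < η := by rw [hη]; exact lt_min hη0 (by norm_num)
  have hη2 : η ≤ η0 := by rw [hη]; exact min_le_left _ _
  have hη3 : η ≤ 1 / 12 := by rw [hη]; exact min_le_right _ _
  obtain ⟨T, hT⟩ : ∃ T : ℕ, ∀ t : ℝ, (T : ℝ) ≤ t → 2 ≤ t ∧ t ^ (-η) ≤ 1 / 4 := by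
    have h1 : ∀ᶠ t : ℝ in Filter.atTop, t ^ (-η) < 1 / 4 :=
      (tendsto_rpow_neg_atTop hη1).eventually (gt_mem_nhds (by norm_num))
    obtain ⟨T0, hT0⟩ := Filter.eventually_atTop.mp (h1.and (Filter.eventually_ge_atTop (2 : ℝ)))
    obtain ⟨T, hT⟩ := exists_nat_ge T0
    exact ⟨T, fun t ht => ⟨(hT0 t (hT.trans ht)).2, (hT0 t (hT.trans ht)).1.le⟩⟩
  have hMi : (Set.Ici T).Infinite := Set.Ici_infinite T
  -- the sign of x
  have hxpos : ∀ j ∈ Set.Ici T, (0 : ℝ) < x j ∧ (2 : ℝ) ≤ x j ∧ (x j : ℝ) ^ (-η) ≤ 1 / 4 ∧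
      (j : ℝ) ≤ x j := by
    intro j hjT
    have h0 : (T : ℝ) ≤ |(x j : ℝ)| := by
      refine le_trans ?_ (hxj j)
      exact_mod_cast hjT
    obtain ⟨h1, h2⟩ := hT _ h0
    have h3 : (0 : ℝ) < x j := by
      by_contra hc
      have hc' : (x j : ℝ) ≤ 0 := not_lt.mp hc
      rw [abs_of_nonpos hc'] at h1
      have h4 := hdj j
      push_cast at h4
      have h5 : |(x j : ℝ)| ^ (1 / (2 + ε)) ≤ |(x j : ℝ)| := by
        conv_rhs => rw [← Real.rpow_one |(x j : ℝ)|]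
        apply Real.rpow_le_rpow_of_exponent_le
        · rw [abs_of_nonpos hc']; linarith
        · rw [div_le_one (by linarith)]; linarith
      have h6 := (le_abs_self _).trans (h4.trans h5)
      rw [abs_of_nonpos hc'] at h6
      obtain ⟨t, ht⟩ : ∃ t : ℝ, t = -(x j : ℝ) := ⟨_, rfl⟩
      have hxt : (x j : ℝ) = -t := by rw [ht]; ring
      rw [hxt] at h6 h1
      have h7 : (0 : ℝ) ≤ (y j : ℝ) ^ 2 := sq_nonneg _
      have h8 : 2 ≤ t := by linarith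
      nlinarith [sq_nonneg t, sq_nonneg (t - 1)]
    rw [abs_of_pos h3] at h1 h2
    refine ⟨h3, h1, h2, ?_⟩
    have := hxj j
    rwa [abs_of_pos h3] at this
  obtain ⟨q, hq⟩ : ∃ q : ℕ → ℝ, ∀ j, q j = (x j : ℝ) ^ (1 / 4 : ℝ) := ⟨_, fun _ => rfl⟩
  obtain ⟨r, hr⟩ : ∃ r : ℕ → ℝ, ∀ j, r j = (x j : ℝ) ^ (-η) := ⟨_, fun _ => rfl⟩
  have hq4 : ∀ j ∈ Set.Ici T, (x j : ℝ) = q j ^ 4 ∧ 1 ≤ q j := by
    intro j hjT
    obtain ⟨h1, h2, h3, h4⟩ := hxpos j hjT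
    constructor
    · rw [hq, ← Real.rpow_natCast, ← Real.rpow_mul h1.le]
      norm_num
    · rw [hq]
      exact Real.one_le_rpow (by linarith) (by norm_num)
  have hrr : ∀ j ∈ Set.Ici T, 0 < r j ∧ r j ≤ 1 / 4 ∧ 1 ≤ q j * r j ^ 3 ∧
      q j ^ (-(4 * η)) = r j := by
    intro j hjT
    obtain ⟨h1, h2, h3, h4⟩ := hxpos j hjT
    refine ⟨by rw [hr]; positivity, by rw [hr]; exact h3, ?_, ?_⟩
    · rw [hq, hr, ← Real.rpow_natCast, ← Real.rpow_mul h1.le, ← Real.rpow_add h1]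
      apply Real.one_le_rpow (by linarith)
      push_cast
      linarith
    · rw [hq, hr, ← Real.rpow_mul h1.le]
      congr 1
      ring
  have ha : ∀ j ∈ Set.Ici T, |(x j : ℝ) - lam * (u j / v j)| ≤ q j * r j := by
    intro j hjT
    obtain ⟨h1, h2, h3, h4⟩ := hxpos j hjT
    refine (hxu j).trans ?_
    rw [abs_of_pos h1, hq, hr, ← Real.rpow_add h1]
    apply Real.rpow_le_rpow_of_exponent_le (by linarith)
    linarith
  have hd2 : ∀ j ∈ Set.Ici T, |(((|y j|) ^ 2 - x j ^ 3 : ℤ) : ℝ)| ≤ q j ^ 2 := by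
    intro j hjT
    obtain ⟨h1, h2, h3, h4⟩ := hxpos j hjT
    rw [sq_abs]
    refine (hdj j).trans ?_
    rw [abs_of_pos h1, hq, ← Real.rpow_natCast, ← Real.rpow_mul h1.le]
    apply Real.rpow_le_rpow_of_exponent_le (by linarith)
    push_cast
    rw [div_le_iff₀ (by linarith)]
    linarith
  choose e m n heN he0 hm0 hn0 hcop hmS hnS hnv huv using fun j => sqf2 hS (u j) (v j) (huS j) (hvS j)
  have hlu : ∀ j ∈ Set.Ici T, 0 < lam * (u j / v j) ∧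
      lam * (u j / v j) = |lam| * e j * ((m j : ℝ) / n j) ^ 2 := by
    intro j hjT
    obtain ⟨h1, h2, h3, h4⟩ := hxpos j hjT
    obtain ⟨h5, h6⟩ := hq4 j hjT
    obtain ⟨h7, h8, h9, -⟩ := hrr j hjT
    have h10 := ha j hjT
    have hqx : q j ≤ x j := by
      rw [h5]
      exact le_self_pow₀ h6 (by norm_num)
    have h11 : q j * r j ≤ x j / 4 := by nlinarith
    have h12 := (abs_le.mp (h10.trans h11)).2
    have h13 : (0 : ℝ) < lam * (u j / v j) := by linarith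
    refine ⟨h13, ?_⟩
    rw [← abs_of_pos h13, abs_mul, huv j]
    ring
  have hlam0 : 0 < |lam| := by
    apply abs_pos.mpr
    intro h
    have h1 := (hlu T (Set.mem_Ici.mpr le_rfl)).1
    rw [h, zero_mul] at h1
    exact lt_irrefl _ h1
  have hlamA : IsAlgebraic ℚ |lam| := by
    rcases abs_choice lam with h | h
    · rw [h]; exact hlam
    · rw [h]; exact hlam.neg
  -- constant squarefree part
  obtain ⟨e0, he0i⟩ := Pool.Agent.Helper94.SUB.pig hMi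
    (fun j => (⟨e j, Nat.lt_succ_of_le (heN j)⟩ : Fin ((∏ p ∈ S, p) + 1)))
  have hsub0 : ∀ j, j ∈ {j | j ∈ Set.Ici T ∧
      (⟨e j, Nat.lt_succ_of_le (heN j)⟩ : Fin ((∏ p ∈ S, p) + 1)) = e0} → j ∈ Set.Ici T ∧
      e j = (e0 : ℕ) := by
    intro j hjM
    refine ⟨hjM.1, ?_⟩
    have h1 : (⟨e j, Nat.lt_succ_of_le (heN j)⟩ : Fin ((∏ p ∈ S, p) + 1)) = e0 := hjM.2
    rw [← h1]
  obtain ⟨M1, hM1⟩ : ∃ M1 : Set ℕ, M1 = {j | j ∈ Set.Ici T ∧
      (⟨e j, Nat.lt_succ_of_le (heN j)⟩ : Fin ((∏ p ∈ S, p) + 1)) = e0} := ⟨_, rfl⟩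
  rw [← hM1] at he0i
  simp only [← hM1] at hsub0
  obtain ⟨μ, hμ⟩ : ∃ μ : ℝ, μ = |lam| * (e0 : ℕ) := ⟨_, rfl⟩
  obtain ⟨j0, hj0⟩ := he0i.nonempty
  have hE0 : 0 < (e0 : ℕ) := by
    rw [← (hsub0 j0 hj0).2]
    exact he0 j0
  have hμ0 : 0 < μ := by
    rw [hμ]
    have : (0 : ℝ) < ((e0 : ℕ) : ℝ) := by exact_mod_cast hE0
    positivity
  have hμA : IsAlgebraic ℚ μ := by
    rw [hμ]
    exact hlamA.mul (isAlgebraic_natCast _)
  have D : DatR S x (fun j => (m j : ℤ)) (fun j => (n j : ℤ)) (fun j => |y j|)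
      (fun j => (m j : ℝ) / n j) q r μ (4 * η) (4 * max B0 0) M1 := by
    refine ⟨he0i, fun j h => hq4 j (hsub0 j h).1, fun j h => ?_,
      fun j _ => ⟨by exact_mod_cast hm0 j, hmS j⟩, fun j _ => ⟨by exact_mod_cast hn0 j, hnS j⟩,
      fun j _ => Nat.isCoprime_iff_coprime.mpr (hcop j), fun j _ => ?_, ⟨?_, fun j h => ?_⟩,
      fun j _ => abs_nonneg _, fun j _ => ?_,
      fun j h => hd2 j (hsub0 j h).1, fun j h => hrr j (hsub0 j h).1, fun j h => ?_⟩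
    · rw [← (hq4 j (hsub0 j h).1).1]
      exact (hxpos j (hsub0 j h).1).2.2.2
    · have : (n j : ℝ) ≠ 0 := by exact_mod_cast (hn0 j).ne'
      push_cast
      field_simp
    · have := le_max_right B0 0
      linarith
    · obtain ⟨h1, h2, h3, h4⟩ := hxpos j (hsub0 j h).1
      have h5 := hvB j
      rw [abs_of_pos h1] at h5
      have h6 : (n j : ℝ) ≤ |(v j : ℝ)| := by
        have := hnv j
        exact_mod_cast this
      have h7 : (x j : ℝ) ^ B0 ≤ (x j : ℝ) ^ (max B0 0) :=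
        Real.rpow_le_rpow_of_exponent_le (by linarith) (le_max_left _ _)
      have h8 : (x j : ℝ) ^ (max B0 0) = q j ^ (4 * max B0 0) := by
        rw [hq, ← Real.rpow_mul h1.le]
        congr 1
        ring
      push_cast
      linarith
    · simp only [sq_abs]
      exact hne3 j
    · have h1 := ha j (hsub0 j h).1
      rw [(hlu j (hsub0 j h).1).2, (hsub0 j h).2] at h1
      rw [hμ]
      exact h1
  obtain ⟨c0, hc0i⟩ := Pool.Agent.Helper94.SUB.pig he0i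
    (fun j => decide ((x j : ℝ) - μ * ((m j : ℝ) / n j) ^ 2 = 0))
  have D' := D.mono (M' := {j | j ∈ M1 ∧
    decide ((x j : ℝ) - μ * ((m j : ℝ) / n j) ^ 2 = 0) = c0}) (fun j h => h.1) hc0i
  cases c0 with
  | true =>
    refine caseA3 hSUBTQ hS D' hμ0 hμA fun j h => ?_
    have h1 := of_decide_eq_true h.2
    linarith
  | false =>
    exact caseB3 hSUBTQ hS D' hμ0 (by positivity) hμA fun j h => of_decide_eq_false h.2

end Pool.Agent.Helper94.SUBK
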