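import Pool.Agent.Helper94.SUBK.SVB

/-!
Project SUBK, row T1K: from Galois extensions to all number fields.
-/

set_option autoImplicit false

namespace Pool.Agent.Helper94.SUBK

open Finset
open Pool.Agent.Helper70.SUB
open Pool.Agent.Helper77.SUBK

/-- Galois closure -/
theorem gal_cl (M : Type) [Field M] [NumberField M] : ∃ (M' : Type) (_ : Field M')
    (_ : NumberField M') (_ : IsGalois ℚ M'), Nonempty (M →+* M') := by
  have h1 : Algebra.IsAlgebraic ℚ (AlgebraicClosure M) := Algebra.IsAlgebraic.trans ℚ M (AlgebraicClosure M)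
  have h2 : Normal ℚ (AlgebraicClosure M) :=
    { toIsAlgebraic := h1, splits' := fun x => IsAlgClosed.splits _ }
  let N : IntermediateField ℚ (AlgebraicClosure M) := IntermediateField.normalClosure ℚ M (AlgebraicClosure M)
  have hfd : FiniteDimensional ℚ N := inferInstance
  have hnf : NumberField N := NumberField.of_module_finite ℚ N
  have hne : Nonempty (M →ₐ[ℚ] AlgebraicClosure M) := ⟨IsScalarTower.toAlgHom ℚ M (AlgebraicClosure M)⟩
  have hnc : IsNormalClosure ℚ M N := isNormalClosure_normalClosure ℚ M (AlgebraicClosure M)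
  have hno : Normal ℚ N := hnc.normal
  have hg : IsGalois ℚ N := ⟨⟩
  have hle : (IsScalarTower.toAlgHom ℚ M (AlgebraicClosure M)).fieldRange ≤ N :=
    AlgHom.fieldRange_le_normalClosure _
  exact ⟨N, inferInstance, hnf, hg,
    ⟨((IntermediateField.inclusion hle).comp
      (IsScalarTower.toAlgHom ℚ M (AlgebraicClosure M)).rangeRestrict : M →ₐ[ℚ] N).toRingHom⟩⟩

/-- **T1K**. -/
theorem T1K (hT1KG : ST_T1KG) : ST_T1K := by
  intro M _ _ Γ t ε hΓ hε
  obtain ⟨S, hS, hSΓ⟩ := ex_Gam Γ hΓ
  obtain ⟨M', _, _, _, ⟨f⟩⟩ := gal_cl M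
  obtain ⟨C, hC⟩ := hT1KG M' S t ε hS hε
  refine ⟨C, fun a b x y ha hb hx hy hne => ?_⟩
  refine hC (fun i => f (a i)) (fun i => f (b i)) x y (fun i => ?_) (fun i => ?_) ?_ ?_ hne
  · rcases ha i with h | ⟨γ, hγ, h⟩
    · left
      show f (a i) = 0
      rw [h, map_zero]
    · right
      show SV S (f (a i))
      rw [h]
      exact SV_map f (hSΓ γ hγ)
  · rcases hb i with h | ⟨γ, hγ, h⟩
    · left
      show f (b i) = 0
      rw [h, map_zero]
    · right
      show SV S (f (b i))
      rw [h]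
      exact SV_map f (hSΓ γ hγ)
  · rw [← map_sum, hx, map_intCast]
  · rw [← map_sum, hy, map_intCast]

end Pool.Agent.Helper94.SUBK
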